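import Mathlib

/-!
# MP_347126_al: Brunnian braids. Definitions, part 1 (groups)

Text of the proof: team store, `MP_347126_al_BR_h4.md`.
-/

set_option autoImplicit false

namespace Pool.Agent.Lib.MP347126.BR

open Finset

/-! ## Noncommutative power series -/

/-- noncommutative power series with integer coefficients in the letters `Λ` -/
@[ext] structure PS (Λ : Type) where
  /-- the coefficients -/
  co : List Λ → ℤ

namespace PS

variable {Λ : Type}

lemma co_injective : Function.Injective (PS.co (Λ := Λ)) := fun _ _ h => PS.ext h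

instance : Zero (PS Λ) := ⟨⟨0⟩⟩
instance : Add (PS Λ) := ⟨fun f g => ⟨f.co + g.co⟩⟩
instance : Neg (PS Λ) := ⟨fun f => ⟨-f.co⟩⟩
instance : Sub (PS Λ) := ⟨fun f g => ⟨f.co - g.co⟩⟩
instance : SMul ℕ (PS Λ) := ⟨fun n f => ⟨n • f.co⟩⟩
instance : SMul ℤ (PS Λ) := ⟨fun n f => ⟨n • f.co⟩⟩

instance : AddCommGroup (PS Λ) :=
  co_injective.addCommGroup PS.co rfl (fun _ _ => rfl) (fun _ => rfl) (fun _ _ => rfl)
    (fun _ _ => rfl) (fun _ _ => rfl)

lemma ext' {f g : PS Λ} (h : ∀ ω, f.co ω = g.co ω) : f = g := PS.ext (funext h)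

/-- left derivative -/
def dv (a : Λ) (f : PS Λ) : PS Λ := ⟨fun τ => f.co (a :: τ)⟩

/-- convolution -/
def conv : List Λ → PS Λ → PS Λ → ℤ
  | [], f, g => f.co [] * g.co []
  | a :: ω, f, g => f.co [] * g.co (a :: ω) + conv ω (dv a f) g

instance : Mul (PS Λ) := ⟨fun f g => ⟨fun ω => conv ω f g⟩⟩

/-- the unit -/
def one' : List Λ → ℤ
  | [] => 1
  | _ :: _ => 0

instance : One (PS Λ) := ⟨⟨one'⟩⟩

lemma add_apply (f g : PS Λ) (ω : List Λ) : (f + g).co ω = f.co ω + g.co ω := rfl
lemma sub_apply (f g : PS Λ) (ω : List Λ) : (f - g).co ω = f.co ω - g.co ω := rfl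
lemma neg_apply (f : PS Λ) (ω : List Λ) : (-f).co ω = -f.co ω := rfl
lemma zero_apply (ω : List Λ) : (0 : PS Λ).co ω = 0 := rfl
lemma smul_apply (n : ℤ) (f : PS Λ) (ω : List Λ) : (n • f).co ω = n * f.co ω := rfl
lemma one_nil : (1 : PS Λ).co [] = 1 := rfl
lemma one_cons (a : Λ) (ω : List Λ) : (1 : PS Λ).co (a :: ω) = 0 := rfl
lemma dv_apply (a : Λ) (f : PS Λ) (ω : List Λ) : (dv a f).co ω = f.co (a :: ω) := rfl
lemma mul_nil (f g : PS Λ) : (f * g).co [] = f.co [] * g.co [] := rfl
lemma mul_cons (f g : PS Λ) (a : Λ) (ω : List Λ) :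
    (f * g).co (a :: ω) = f.co [] * g.co (a :: ω) + (dv a f * g).co ω := rfl
lemma dv_add (a : Λ) (f g : PS Λ) : dv a (f + g) = dv a f + dv a g := rfl
lemma dv_neg (a : Λ) (f : PS Λ) : dv a (-f) = -dv a f := rfl
lemma dv_zero (a : Λ) : dv a (0 : PS Λ) = 0 := rfl
lemma dv_one (a : Λ) : dv a (1 : PS Λ) = 0 := rfl
lemma dv_zsmul (a : Λ) (n : ℤ) (f : PS Λ) : dv a (n • f) = n • dv a f := rfl
lemma dv_mul (a : Λ) (f g : PS Λ) : dv a (f * g) = f.co [] • dv a g + dv a f * g := rfl

protected lemma zero_mul' (g : PS Λ) : (0 : PS Λ) * g = 0 := by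
  apply ext'
  intro ω
  induction ω with
  | nil => rw [mul_nil, zero_apply, zero_mul]
  | cons a ω ih => rw [mul_cons, dv_zero, ih, zero_apply, zero_apply, zero_mul, add_zero,
      zero_apply]

protected lemma mul_zero' (g : PS Λ) : g * (0 : PS Λ) = 0 := by
  apply ext'
  intro ω
  induction ω generalizing g with
  | nil => rw [mul_nil, zero_apply, mul_zero]
  | cons a ω ih => rw [mul_cons, ih, zero_apply, zero_apply, mul_zero, add_zero]

protected lemma add_mul' (f g h : PS Λ) : (f + g) * h = f * h + g * h := by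
  apply ext'
  intro ω
  induction ω generalizing f g with
  | nil => rw [mul_nil, add_apply, add_apply, mul_nil, mul_nil, add_mul]
  | cons a ω ih =>
    rw [mul_cons, dv_add, ih, add_apply, add_apply, add_apply, mul_cons, mul_cons]
    ring

protected lemma mul_add' (f g h : PS Λ) : f * (g + h) = f * g + f * h := by
  apply ext'
  intro ω
  induction ω generalizing f with
  | nil => rw [mul_nil, add_apply, add_apply, mul_nil, mul_nil, mul_add]
  | cons a ω ih =>
    rw [mul_cons, ih, add_apply, add_apply, add_apply, mul_cons, mul_cons]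
    ring

protected lemma smul_mul' (n : ℤ) (f g : PS Λ) : (n • f) * g = n • (f * g) := by
  apply ext'
  intro ω
  induction ω generalizing f with
  | nil => rw [mul_nil, smul_apply, smul_apply, mul_nil, mul_assoc]
  | cons a ω ih =>
    rw [mul_cons, dv_zsmul, ih, smul_apply, smul_apply, smul_apply, mul_cons]
    ring

protected lemma one_mul' (g : PS Λ) : (1 : PS Λ) * g = g := by
  apply ext'
  intro ω
  cases ω with
  | nil => rw [mul_nil, one_nil, one_mul]
  | cons a ω => rw [mul_cons, dv_one, PS.zero_mul', one_nil, one_mul, zero_apply, add_zero]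

protected lemma mul_one' (g : PS Λ) : g * (1 : PS Λ) = g := by
  apply ext'
  intro ω
  induction ω generalizing g with
  | nil => rw [mul_nil, one_nil, mul_one]
  | cons a ω ih => rw [mul_cons, one_cons, mul_zero, ih, zero_add, dv_apply]

protected lemma mul_assoc' (f g h : PS Λ) : f * g * h = f * (g * h) := by
  apply ext'
  intro ω
  induction ω generalizing f with
  | nil => rw [mul_nil, mul_nil, mul_nil, mul_nil, mul_assoc]
  | cons a ω ih =>
    rw [mul_cons, dv_mul, PS.add_mul', add_apply, PS.smul_mul', smul_apply, ih, mul_nil, mul_cons f,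
      mul_cons g]
    ring

instance : Ring (PS Λ) :=
  { (inferInstance : AddCommGroup (PS Λ)), (inferInstance : Mul (PS Λ)),
    (inferInstance : One (PS Λ)) with
    left_distrib := PS.mul_add'
    right_distrib := PS.add_mul'
    zero_mul := PS.zero_mul'
    mul_zero := PS.mul_zero'
    mul_assoc := PS.mul_assoc'
    one_mul := PS.one_mul'
    mul_one := PS.mul_one'
    zsmul := fun n f => n • f }

open Classical in
/-- the variable `a` -/
noncomputable def X (a : Λ) : PS Λ := ⟨fun ω => if ω = [a] then 1 else 0⟩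

open Classical in
/-- the inverse of `1 + X a` -/
noncomputable def Xi (a : Λ) : PS Λ := ⟨fun ω => if (∀ b ∈ ω, b = a) then (-1) ^ ω.length else 0⟩

lemma X_nil (a : Λ) : (X a).co [] = 0 := by
  simp [X]

open Classical in
lemma X_cons (a b : Λ) (ω : List Λ) : (X a).co (b :: ω) = if b = a ∧ ω = [] then 1 else 0 := by
  unfold X
  simp only [List.cons.injEq]

lemma Xi_nil (a : Λ) : (Xi a).co [] = 1 := by simp [Xi]

lemma Xi_cons_self (a : Λ) (ω : List Λ) : (Xi a).co (a :: ω) = - (Xi a).co ω := by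
  unfold Xi
  by_cases h : ∀ b ∈ ω, b = a
  · simp only
    rw [if_pos h, if_pos (by simpa using h), List.length_cons, pow_succ]
    ring
  · simp only
    rw [if_neg h, if_neg (by simpa using h), neg_zero]

lemma Xi_cons_ne {a b : Λ} (h : b ≠ a) (ω : List Λ) : (Xi a).co (b :: ω) = 0 := by
  unfold Xi
  simp only
  rw [if_neg]
  intro h1
  exact h (h1 b (by simp))

lemma dv_X_self (a : Λ) : dv a (X a) = 1 := by
  apply ext'
  intro ω
  rw [dv_apply, X_cons]
  cases ω with
  | nil => simp [one_nil]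
  | cons b ω => simp [one_cons]

lemma dv_X_ne {a b : Λ} (h : b ≠ a) : dv b (X a) = 0 := by
  apply ext'
  intro ω
  rw [dv_apply, X_cons, if_neg (fun h1 => h h1.1), zero_apply]

lemma dv_Xi_self (a : Λ) : dv a (Xi a) = - Xi a := by
  apply ext'
  intro ω
  rw [dv_apply, Xi_cons_self, neg_apply]

lemma dv_Xi_ne {a b : Λ} (h : b ≠ a) : dv b (Xi a) = 0 := by
  apply ext'
  intro ω
  rw [dv_apply, Xi_cons_ne h, zero_apply]

lemma one_add_X_mul_Xi (a : Λ) : (1 + X a) * Xi a = 1 := by
  apply ext'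
  intro ω
  rw [add_mul, one_mul, add_apply]
  cases ω with
  | nil => rw [mul_nil, X_nil, zero_mul, add_zero, Xi_nil, one_nil]
  | cons b ω =>
    rw [mul_cons, X_nil, zero_mul, zero_add, one_cons]
    by_cases h : b = a
    · subst h
      rw [dv_X_self, one_mul, Xi_cons_self, neg_add_cancel]
    · rw [dv_X_ne h, zero_mul, zero_apply, Xi_cons_ne h, add_zero]

lemma Xi_mul_one_add_X (a : Λ) : Xi a * (1 + X a) = 1 := by
  apply ext'
  intro ω
  rw [mul_add, mul_one, add_apply]
  induction ω with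
  | nil => rw [mul_nil, X_nil, mul_zero, add_zero, Xi_nil, one_nil]
  | cons b ω ih =>
    rw [mul_cons, Xi_nil, one_mul, one_cons]
    by_cases h : b = a
    · subst h
      rw [dv_Xi_self, neg_mul, neg_apply, Xi_cons_self, ← dv_apply, dv_X_self]
      linarith
    · rw [dv_Xi_ne h, zero_mul, zero_apply, Xi_cons_ne h, X_cons, if_neg (fun h1 => h h1.1)]
      simp

/-- the unit `1 + X a` -/
noncomputable def gu (a : Λ) : (PS Λ)ˣ := ⟨1 + X a, Xi a, one_add_X_mul_Xi a, Xi_mul_one_add_X a⟩

end PS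

/-! ## Magnus coefficients and traces -/

/-- the Magnus embedding -/
noncomputable def mu {Λ : Type} : FreeGroup Λ →* (PS Λ)ˣ := FreeGroup.lift fun a => PS.gu a

/-- the Magnus coefficient of `z` at the word `ω` -/
noncomputable def cf {Λ : Type} (ω : List Λ) (z : FreeGroup Λ) : ℤ := (mu z : PS Λ).co ω

/-- the Magnus trace of `z` at the word `ω`: the sum of the coefficients at the rotations -/
noncomputable def T {Λ : Type} (ω : List Λ) (z : FreeGroup Λ) : ℤ :=
  ∑ i ∈ range ω.length, cf (ω.rotate i) z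

/-- `d` is the lowest degree in which the traces of `z₁` and `z₂` differ -/
def Low {Λ : Type} (z₁ z₂ : FreeGroup Λ) (d : ℕ) : Prop :=
  (∀ ω : List Λ, ω.length < d → T ω z₁ = T ω z₂) ∧ ∃ ω : List Λ, ω.length = d ∧ T ω z₁ ≠ T ω z₂

/-- the letters of the words of length `d` at which the traces of `z₁` and `z₂` differ -/
def Tset {Λ : Type} (z₁ z₂ : FreeGroup Λ) (d : ℕ) : Set Λ :=
  {u | ∃ ω : List Λ, ω.length = d ∧ T ω z₁ ≠ T ω z₂ ∧ u ∈ ω}

/-- the group generated by the quotients of the letters -/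
def WG {Φ : Type} [Group Φ] (z : FreeGroup Φ) (d : ℕ) : Subgroup Φ :=
  Subgroup.closure {w | ∃ t ∈ Tset z 1 d, ∃ t' ∈ Tset z 1 d, w = t⁻¹ * t'}

/-- products of syllables -/
def ev {Λ : Type} (l : List (Λ × ℤ)) : FreeGroup Λ := (l.map fun x => FreeGroup.of x.1 ^ x.2).prod

/-- words of runs -/
def flat {Λ : Type} (r : List (Λ × ℕ)) : List Λ := r.flatMap fun x => List.replicate x.2 x.1

/-- consecutive letters are different -/
def Ch {Λ M : Type} (l : List (Λ × M)) : Prop := l.IsChain fun x y => x.1 ≠ y.1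

/-- consecutive letters are different, cyclically -/
def CyCh {Λ M : Type} (l : List (Λ × M)) : Prop :=
  Ch l ∧ (2 ≤ l.length → ∀ a ∈ l.head?, ∀ b ∈ l.getLast?, b.1 ≠ a.1)

/-! ## Profinite notions -/

section prof

variable {G : Type} [Group G]

/-- normal of finite index -/
def FI (M : Subgroup G) : Prop := M.Normal ∧ M.FiniteIndex

/-- the elements of the filter conjugate `x` to `y` in the finite quotients -/
def Cj (U : Filter G) (x y : G) : Prop :=
  ∀ M : Subgroup G, FI M → ∀ᶠ g in U, g * x * g⁻¹ * y⁻¹ ∈ M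

/-- conclusion: the filter converges into `γ C(x)` -/
def Cv (U : Filter G) (x γ : G) : Prop :=
  ∀ M : Subgroup G, FI M → ∀ᶠ g in U, ∃ a, a * x = x * a ∧ (γ * a)⁻¹ * g ∈ M

/-- the class of `x` is closed, and the centraliser of `x` is dense in its profinite centraliser -/
def DD (x : G) : Prop :=
  ∀ (U : Ultrafilter G) (y : G), Cj (U : Filter G) x y →
    ∃ γ : G, γ * x * γ⁻¹ = y ∧ Cv (U : Filter G) x γ

/-- the same without ultrafilters -/
def DDa (x : G) : Prop :=
  ∀ y : G, (∃ M : Subgroup G, FI M ∧ ∀ g, g * x * g⁻¹ * y⁻¹ ∉ M) ∨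
    ∃ γ : G, γ * x * γ⁻¹ = y ∧ ∀ M : Subgroup G, FI M → ∃ M' : Subgroup G, FI M' ∧
      ∀ g, g * x * g⁻¹ * y⁻¹ ∈ M' → ∃ a, a * x = x * a ∧ (γ * a)⁻¹ * g ∈ M

/-- residually finite -/
def RFs (G : Type) [Group G] : Prop := ∀ g : G, (∀ M : Subgroup G, FI M → g ∈ M) → g = 1

/-- height: chains of kernels of nontrivial homomorphisms to `ℤ` -/
def Ht : ℕ → Subgroup G → Prop
  | 0, A => ∀ B : Subgroup G, B ≤ A → ∀ v : B →* Multiplicative ℤ, v = 1
  | k + 1, A => ∀ B : Subgroup G, B ≤ A → ∀ v : B →* Multiplicative ℤ, v ≠ 1 →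
      Ht k (v.ker.map B.subtype)

end prof

/-! ## The free groups of the last strand -/

/-- forget the last generator -/
def kappa (e : ℕ) : FreeGroup (Fin (e + 1)) →* FreeGroup (Fin e) :=
  FreeGroup.lift fun i => if h : i.val < e then FreeGroup.of ⟨i.val, h⟩ else 1

/-- the inclusion -/
def io (e : ℕ) : FreeGroup (Fin e) →* FreeGroup (Fin (e + 1)) := FreeGroup.map Fin.castSucc

/-- the last generator -/
def cc (e : ℕ) : FreeGroup (Fin (e + 1)) := FreeGroup.of (Fin.last e)

/-- the conjugates of the last generator -/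
def be (e : ℕ) : FreeGroup (FreeGroup (Fin e)) →* FreeGroup (Fin (e + 1)) :=
  FreeGroup.lift fun u => io e u * cc e * (io e u)⁻¹

/-- kill the generator `i` -/
def kill {k : ℕ} (i : Fin k) : FreeGroup (Fin k) →* FreeGroup (Fin k) :=
  FreeGroup.lift fun l => if l = i then 1 else FreeGroup.of l

/-- nontrivial, but trivial when any generator different from the first one is killed -/
def Br (k : ℕ) (x : FreeGroup (Fin k)) : Prop := x ≠ 1 ∧ ∀ i : Fin k, i.val ≠ 0 → kill i x = 1

/-! ## The data -/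

/-- the data of the pinning theorem -/
structure PinData (r : ℕ) (G G' : Type) [Group G] [Group G'] where
  p : G →* G'
  nu : FreeGroup (Fin r) →* G
  p_surj : Function.Surjective p
  nu_inj : Function.Injective nu
  nu_range : ∀ g, p g = 1 ↔ ∃ n, nu n = g
  conj : ∀ (g : G) (i : Fin r), ∃ n, g * nu (FreeGroup.of i) * g⁻¹ = nu (n * FreeGroup.of i * n⁻¹)
  rf : RFs G'
  dom : ∀ (Q : Type) [Group Q] [Finite Q] (f : FreeGroup (Fin r) →* Q),
    ∃ M : Subgroup G, FI M ∧ ∀ n, nu n ∈ M → f n = 1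

/-- the data of the induction step -/
structure StepData (e : ℕ) (G G' : Type) [Group G] [Group G'] extends PinData (e + 1) G G' where
  q : G →* G'
  j : FreeGroup (Fin e) →* G'
  j_inj : Function.Injective j
  j_norm : ∀ (h : G') (u : FreeGroup (Fin e)), ∃ u', h * j u * h⁻¹ = j u'
  q_nu : ∀ n, q (nu n) = j (kappa e n)
  cab : ∀ h : G', ∃ s : G, p s = h ∧ q s = h ∧ s * nu (cc e) = nu (cc e) * s

/-- the letter `t` is controlled: for every profinite conjugator of `x` into `G` the image of `t`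
is an honest letter -/
def Ctl {e : ℕ} {G G' : Type} [Group G] [Group G'] (S : StepData e G G') (x : G)
    (t : FreeGroup (Fin e)) : Prop :=
  ∀ (U : Ultrafilter G) (y : G), Cj (U : Filter G) x y → ∃ t' : FreeGroup (Fin e),
    ∀ M' : Subgroup G', FI M' → ∀ᶠ g in (U : Filter G),
      S.q g * S.j t * (S.p g)⁻¹ * (S.j t')⁻¹ ∈ M'

end Pool.Agent.Lib.MP347126.BR
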