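import Pool.Agent.Lib.MP_347126_al.BR.Spec

section
/-!
# MP_347126_al: Brunnian braids. Module ACT

The action on the letters.
-/
set_option autoImplicit false

namespace Pool.Agent.Lib.MP347126.BR.ACTM

variable {e : ℕ} {G G' : Type} [Group G] [Group G'] (S : StepData e G G')

lemma p_nu (n : FreeGroup (Fin (e + 1))) : S.p (S.nu n) = 1 := (S.nu_range _).2 ⟨n, rfl⟩

/-- elements killed by `p` and `q` -/
lemma pq (hB : SpecB0) (g : G) (hp : S.p g = 1) (hq : S.q g = 1) : ∃ z, S.nu (be e z) = g := by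
  obtain ⟨n, hn⟩ := (S.nu_range g).1 hp
  have h1 : kappa e n = 1 := by
    apply S.j_inj
    rw [← S.q_nu, hn, hq, map_one]
  obtain ⟨z, hz⟩ := (hB.2.1 e n).1 h1
  exact ⟨z, by rw [hz, hn]⟩

/-- the data for one letter -/
lemma one_letter (hB : SpecB0) (g : G) (u : FreeGroup (Fin e)) :
    ∃ (v : FreeGroup (Fin e)) (κ : FreeGroup (FreeGroup (Fin e))),
      S.j v = S.q g * S.j u * (S.p g)⁻¹ ∧
      S.nu (be e (κ * FreeGroup.of v * κ⁻¹)) = g * S.nu (be e (FreeGroup.of u)) * g⁻¹ := by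
  have beof : ∀ w : FreeGroup (Fin e), be e (FreeGroup.of w) = io e w * cc e * (io e w)⁻¹ := by
    intro w
    simp [be]
  obtain ⟨s, hs1, hs2, hs3⟩ := S.cab (S.p g)
  have h1 : S.p (g * S.nu (io e u) * s⁻¹) = 1 := by
    rw [map_mul, map_mul, map_inv, p_nu, hs1, mul_one, mul_inv_cancel]
  obtain ⟨n, hn⟩ := (S.nu_range _).1 h1
  have h2 : S.j (kappa e n) = S.q g * S.j u * (S.p g)⁻¹ := by
    rw [← S.q_nu, hn, map_mul, map_mul, map_inv, S.q_nu, hB.2.2.1, hs2]
  have h3 : kappa e (n * (io e (kappa e n))⁻¹) = 1 := by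
    rw [map_mul, map_inv, hB.2.2.1, mul_inv_cancel]
  obtain ⟨κ, hκ⟩ := (hB.2.1 e _).1 h3
  refine ⟨kappa e n, κ, h2, ?_⟩
  have h4 : be e (κ * FreeGroup.of (kappa e n) * κ⁻¹) = n * cc e * n⁻¹ := by
    rw [map_mul, map_mul, map_inv, hκ, beof]
    group
  rw [h4, beof, map_mul, map_mul, map_inv, hn, map_mul, map_mul, map_inv]
  have h5 : s⁻¹ * S.nu (cc e) = S.nu (cc e) * s⁻¹ := by
    rw [inv_mul_eq_iff_eq_mul, ← mul_assoc, hs3, mul_inv_cancel_right]
  calc g * S.nu (io e u) * s⁻¹ * S.nu (cc e) * (g * S.nu (io e u) * s⁻¹)⁻¹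
      = g * S.nu (io e u) * (s⁻¹ * S.nu (cc e)) * (g * S.nu (io e u) * s⁻¹)⁻¹ := by group
    _ = g * S.nu (io e u) * (S.nu (cc e) * s⁻¹) * (g * S.nu (io e u) * s⁻¹)⁻¹ := by rw [h5]
    _ = _ := by group

theorem specAct (hB : SpecB0) : SpecAct := by
  intro e G G' _ _ S
  refine ⟨fun g hp hq => pq S hB g hp hq, ?_⟩
  intro g
  choose b κ hb hκ using one_letter S hB g
  choose b' κ' hb' hκ' using one_letter S hB g⁻¹
  refine ⟨b, FreeGroup.lift fun u => κ u * FreeGroup.of (b u) * (κ u)⁻¹, ?_, hb, ?_, ?_⟩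
  · constructor
    · intro u v h
      have h1 := congrArg S.j h
      rw [hb, hb] at h1
      exact S.j_inj (mul_left_cancel (mul_right_cancel h1))
    · intro v
      refine ⟨b' v, ?_⟩
      apply S.j_inj
      rw [hb, hb', map_inv, map_inv, inv_inv]
      group
  · intro z
    have h : (S.nu.comp (be e)).comp
        (FreeGroup.lift fun u => κ u * FreeGroup.of (b u) * (κ u)⁻¹) =
        (MulAut.conj g).toMonoidHom.comp (S.nu.comp (be e)) := by
      apply FreeGroup.ext_hom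
      intro u
      simp only [MonoidHom.comp_apply, MulEquiv.toMonoidHom_eq_coe, MonoidHom.coe_coe,
        MulAut.conj_apply, FreeGroup.lift_apply_of]
      exact hκ u
    have h1 := DFunLike.congr_fun h z
    simpa only [MonoidHom.comp_apply, MulEquiv.toMonoidHom_eq_coe, MonoidHom.coe_coe,
      MulAut.conj_apply] using h1
  · intro u
    exact ⟨κ u, by simp⟩

end Pool.Agent.Lib.MP347126.BR.ACTM
end

section
/-!
# MP_347126_al: Brunnian braids. Module B0

The kernel of `kappa` is free on the conjugates of the last generator; killing generators.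
-/
set_option autoImplicit false

namespace Pool.Agent.Lib.MP347126.BR.B0M

/-- left translation of the letters -/
def psi (Φ : Type) [Group Φ] : Φ →* MulAut (FreeGroup Φ) where
  toFun u := FreeGroup.freeGroupCongr (Equiv.mulLeft u)
  map_one' := by
    ext z
    have h : (Equiv.mulLeft (1 : Φ)) = Equiv.refl Φ := by ext; simp
    rw [h, FreeGroup.freeGroupCongr_refl]
    rfl
  map_mul' u v := by
    ext z
    have h : (Equiv.mulLeft (u * v)) = (Equiv.mulLeft v).trans (Equiv.mulLeft u) := by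
      ext; simp
    rw [h, ← FreeGroup.freeGroupCongr_trans]
    rfl

lemma psi_of (Φ : Type) [Group Φ] (u v : Φ) :
    psi Φ u (FreeGroup.of v) = FreeGroup.of (u * v) := by
  simp [psi]

/-- the homomorphism which detects the letters -/
def Th (e : ℕ) : FreeGroup (Fin (e + 1)) →*
    (FreeGroup (FreeGroup (Fin e)) ⋊[psi (FreeGroup (Fin e))] FreeGroup (Fin e)) :=
  FreeGroup.lift fun i => if h : i.val < e then SemidirectProduct.inr (FreeGroup.of ⟨i.val, h⟩)
    else SemidirectProduct.inl (FreeGroup.of 1)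

lemma Th_io (e : ℕ) (u : FreeGroup (Fin e)) : Th e (io e u) = SemidirectProduct.inr u := by
  have h : (Th e).comp (io e) = SemidirectProduct.inr := by
    apply FreeGroup.ext_hom
    intro i
    simp [Th, io]
  exact DFunLike.congr_fun h u

lemma Th_cc (e : ℕ) : Th e (cc e) = SemidirectProduct.inl (FreeGroup.of 1) := by
  simp [Th, cc]

lemma Th_be (e : ℕ) (z : FreeGroup (FreeGroup (Fin e))) :
    Th e (be e z) = SemidirectProduct.inl z := by
  have h : (Th e).comp (be e) = SemidirectProduct.inl := by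
    apply FreeGroup.ext_hom
    intro u
    have h1 : be e (FreeGroup.of u) = io e u * cc e * (io e u)⁻¹ := by simp [be]
    rw [MonoidHom.comp_apply, h1, map_mul, map_mul, map_inv, Th_io, Th_cc,
      ← map_inv, ← SemidirectProduct.inl_aut, psi_of, mul_one]
  exact DFunLike.congr_fun h z

theorem be_inj (e : ℕ) : Function.Injective (be e) := by
  intro z z' h
  have h1 := congrArg (Th e) h
  rw [Th_be, Th_be] at h1
  exact SemidirectProduct.inl_injective h1

theorem kappa_io (e : ℕ) (u : FreeGroup (Fin e)) : kappa e (io e u) = u := by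
  have h : (kappa e).comp (io e) = MonoidHom.id _ := by
    apply FreeGroup.ext_hom
    intro i
    simp [kappa, io]
  exact DFunLike.congr_fun h u

theorem io_inj (e : ℕ) : Function.Injective (io e) :=
  Function.LeftInverse.injective (kappa_io e)

theorem kappa_cc (e : ℕ) : kappa e (cc e) = 1 := by
  simp [kappa, cc]

theorem be_of (e : ℕ) (u : FreeGroup (Fin e)) :
    be e (FreeGroup.of u) = io e u * cc e * (io e u)⁻¹ := by simp [be]

theorem kappa_be (e : ℕ) (z : FreeGroup (FreeGroup (Fin e))) : kappa e (be e z) = 1 := by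
  have h : (kappa e).comp (be e) = 1 := by
    apply FreeGroup.ext_hom
    intro u
    rw [MonoidHom.comp_apply, be_of, map_mul, map_mul, map_inv, kappa_cc, mul_one, mul_inv_cancel,
      MonoidHom.one_apply]
  exact DFunLike.congr_fun h z

theorem be_psi (e : ℕ) (u : FreeGroup (Fin e)) (z : FreeGroup (FreeGroup (Fin e))) :
    be e (psi _ u z) = io e u * be e z * (io e u)⁻¹ := by
  have h : (be e).comp (psi _ u).toMonoidHom = (MulAut.conj (io e u)).toMonoidHom.comp (be e) := by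
    apply FreeGroup.ext_hom
    intro v
    simp only [MonoidHom.comp_apply, MulEquiv.toMonoidHom_eq_coe, MonoidHom.coe_coe,
      MulAut.conj_apply]
    rw [psi_of, be_of, be_of, map_mul]
    group
  have h1 := DFunLike.congr_fun h z
  simpa only [MonoidHom.comp_apply, MulEquiv.toMonoidHom_eq_coe, MonoidHom.coe_coe,
      MulAut.conj_apply] using h1

/-- every element is a product of a word in the letters and a word without the last generator -/
theorem decomp (e : ℕ) (n : FreeGroup (Fin (e + 1))) : ∃ z, n = be e z * io e (kappa e n) := by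
  have hmul : ∀ a b : FreeGroup (Fin (e + 1)), (∃ z, a = be e z * io e (kappa e a)) →
      (∃ z, b = be e z * io e (kappa e b)) → ∃ z, a * b = be e z * io e (kappa e (a * b)) := by
    rintro a b ⟨z, hz⟩ ⟨z', hz'⟩
    refine ⟨z * psi _ (kappa e a) z', ?_⟩
    rw [map_mul, be_psi, map_mul, map_mul]
    calc a * b = (be e z * io e (kappa e a)) * (be e z' * io e (kappa e b)) := by rw [← hz, ← hz']
      _ = _ := by group
  have hinv : ∀ a : FreeGroup (Fin (e + 1)), (∃ z, a = be e z * io e (kappa e a)) →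
      ∃ z, a⁻¹ = be e z * io e (kappa e a⁻¹) := by
    rintro a ⟨z, hz⟩
    refine ⟨psi _ (kappa e a)⁻¹ z⁻¹, ?_⟩
    rw [be_psi, map_inv, map_inv, map_inv, map_inv]
    calc a⁻¹ = (be e z * io e (kappa e a))⁻¹ := by rw [← hz]
      _ = _ := by group
  have hof : ∀ i : Fin (e + 1), ∃ z, FreeGroup.of i =
      be e z * io e (kappa e (FreeGroup.of i)) := by
    intro i
    by_cases h : i.val < e
    · refine ⟨1, ?_⟩
      have h1 : kappa e (FreeGroup.of i) = FreeGroup.of ⟨i.val, h⟩ := by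
        simp [kappa, h]
      rw [h1, map_one, one_mul]
      simp [io]
    · refine ⟨FreeGroup.of 1, ?_⟩
      have h0 : i = Fin.last e := by
        apply Fin.ext
        have := i.isLt
        simp only [Fin.val_last]
        omega
      subst h0
      have h1 : kappa e (FreeGroup.of (Fin.last e)) = 1 := kappa_cc e
      rw [h1, map_one, mul_one, be_of, map_one]
      simp [cc]
  refine FreeGroup.induction_on (C := fun n => ∃ z, n = be e z * io e (kappa e n)) n
    ⟨1, ?_⟩ hof ?_ hmul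
  · simp
  · intro i hi
    exact hinv _ hi

theorem kappa_eq_one (e : ℕ) (n : FreeGroup (Fin (e + 1))) :
    kappa e n = 1 ↔ ∃ z, be e z = n := by
  constructor
  · intro h
    obtain ⟨z, hz⟩ := decomp e n
    rw [h, map_one, mul_one] at hz
    exact ⟨z, hz.symm⟩
  · rintro ⟨z, rfl⟩
    exact kappa_be e z

theorem kill_io (e : ℕ) (i : Fin e) (u : FreeGroup (Fin e)) :
    kill i.castSucc (io e u) = io e (kill i u) := by
  have h : (kill i.castSucc).comp (io e) = (io e).comp (kill i) := by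
    apply FreeGroup.ext_hom
    intro l
    by_cases hl : l = i
    · subst hl
      simp [kill, io]
    · simp [kill, io, hl, Fin.castSucc_inj]
  exact DFunLike.congr_fun h u

theorem kill_cc (e : ℕ) (i : Fin e) : kill i.castSucc (cc e) = cc e := by
  have h : Fin.last e ≠ i.castSucc := (Fin.castSucc_lt_last i).ne'
  simp [kill, cc, h]

theorem kill_be (e : ℕ) (i : Fin e) (z : FreeGroup (FreeGroup (Fin e))) :
    kill i.castSucc (be e z) = be e (FreeGroup.map (kill i) z) := by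
  have h : (kill i.castSucc).comp (be e) = (be e).comp (FreeGroup.map (kill i)) := by
    apply FreeGroup.ext_hom
    intro u
    rw [MonoidHom.comp_apply, MonoidHom.comp_apply, FreeGroup.map.of, be_of, be_of, map_mul,
      map_mul, map_inv, kill_io, kill_cc]
  exact DFunLike.congr_fun h z

theorem kill_last (e : ℕ) (n : FreeGroup (Fin (e + 1))) :
    kill (Fin.last e) n = io e (kappa e n) := by
  have h : kill (Fin.last e) = (io e).comp (kappa e) := by
    apply FreeGroup.ext_hom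
    intro i
    by_cases hi : i.val < e
    · have h0 : i ≠ Fin.last e := by
        intro h
        rw [h] at hi
        simp at hi
      simp [kill, kappa, io, hi, h0]
    · have h0 : i = Fin.last e := by
        apply Fin.ext
        have := i.isLt
        simp only [Fin.val_last]
        omega
      subst h0
      simp [kill, kappa]
  exact DFunLike.congr_fun h n

theorem specB0 : SpecB0 := by
  refine ⟨be_inj, kappa_eq_one, kappa_io, kill_be, ?_⟩
  intro e n
  rw [kill_last]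
  constructor
  · intro h
    apply io_inj e
    rw [h, map_one]
  · intro h
    rw [h, map_one]

end Pool.Agent.Lib.MP347126.BR.B0M
end

section
/-!
# MP_347126_al, BR: module CK. Magnus coefficients of syllable products at words of runs
-/
set_option autoImplicit false

namespace Pool.Agent.Lib.MP347126.BR.CKM

open Finset
open PS

open Classical in
/-- the series `∑ choose e (j + m) a ^ m` -/
noncomputable def Gs {Λ : Type} (a : Λ) (e : ℤ) (j : ℕ) : PS Λ :=
  ⟨fun ω => if (∀ b ∈ ω, b = a) then Ring.choose e (j + ω.length) else 0⟩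

variable {Λ : Type}

lemma Gs_nil (a : Λ) (e : ℤ) (j : ℕ) : (Gs a e j).co [] = Ring.choose e j := by
  simp [Gs]

lemma Gs_pos {a : Λ} {ω : List Λ} (h : ∀ b ∈ ω, b = a) (e : ℤ) (j : ℕ) :
    (Gs a e j).co ω = Ring.choose e (j + ω.length) := by
  unfold Gs
  simp only
  rw [if_pos h]

lemma Gs_neg {a : Λ} {ω : List Λ} (h : ¬ ∀ b ∈ ω, b = a) (e : ℤ) (j : ℕ) :
    (Gs a e j).co ω = 0 := by
  unfold Gs
  simp only
  rw [if_neg h]

lemma Gs_cons_self (a : Λ) (e : ℤ) (j : ℕ) (ω : List Λ) :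
    (Gs a e j).co (a :: ω) = (Gs a e (j + 1)).co ω := by
  by_cases h : ∀ b ∈ ω, b = a
  · rw [Gs_pos h, Gs_pos (by simpa using h), List.length_cons]
    congr 1
    omega
  · rw [Gs_neg h, Gs_neg (by simpa using h)]

lemma Gs_cons_ne {a b : Λ} (h : b ≠ a) (e : ℤ) (j : ℕ) (ω : List Λ) :
    (Gs a e j).co (b :: ω) = 0 :=
  Gs_neg (fun h1 => h (h1 b (by simp))) e j

lemma dv_Gs_self (a : Λ) (e : ℤ) (j : ℕ) : dv a (Gs a e j) = Gs a e (j + 1) := by
  apply ext'
  intro ω
  rw [dv_apply, Gs_cons_self]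

lemma dv_Gs_ne {a b : Λ} (h : b ≠ a) (e : ℤ) (j : ℕ) : dv b (Gs a e j) = 0 := by
  apply ext'
  intro ω
  rw [dv_apply, PS.zero_apply, Gs_cons_ne h]

lemma Gs_succ (a : Λ) (e : ℤ) (j : ℕ) (ω : List Λ) :
    (Gs a e (j + 1)).co ω + (Gs a e j).co ω = (Gs a (e + 1) (j + 1)).co ω := by
  by_cases h : ∀ b ∈ ω, b = a
  · rw [Gs_pos h, Gs_pos h, Gs_pos h, show j + 1 + ω.length = j + ω.length + 1 by omega,
      Ring.choose_succ_succ]
    ring
  · rw [Gs_neg h, Gs_neg h, Gs_neg h, add_zero]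

lemma Gs_zero (a : Λ) : Gs a 0 0 = 1 := by
  apply ext'
  intro ω
  cases ω with
  | nil => rw [Gs_nil, one_nil, Ring.choose_zero_right]
  | cons b ω =>
    rw [one_cons]
    by_cases h : ∀ c ∈ b :: ω, c = a
    · rw [Gs_pos h, List.length_cons, zero_add]
      exact Ring.choose_zero_succ ℤ _
    · rw [Gs_neg h]

lemma gu_mul_Gs (a : Λ) (e : ℤ) : (1 + X a) * Gs a e 0 = Gs a (e + 1) 0 := by
  apply ext'
  intro ω
  rw [add_mul, one_mul, add_apply]
  cases ω with
  | nil => rw [mul_nil, X_nil, zero_mul, add_zero, Gs_nil, Gs_nil, Ring.choose_zero_right,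
      Ring.choose_zero_right]
  | cons b ω =>
    rw [mul_cons, X_nil, zero_mul, zero_add]
    by_cases h : b = a
    · subst h
      rw [dv_X_self, one_mul, Gs_cons_self, Gs_cons_self, Gs_succ]
    · rw [dv_X_ne h, zero_mul, PS.zero_apply, add_zero, Gs_cons_ne h, Gs_cons_ne h]

lemma gu_zpow (a : Λ) (e : ℤ) : (((gu a) ^ e : (PS Λ)ˣ) : PS Λ) = Gs a e 0 := by
  have key : ∀ e : ℤ, ((gu a : (PS Λ)ˣ) : PS Λ) * Gs a e 0 = Gs a (e + 1) 0 := gu_mul_Gs a
  induction e using Int.induction_on with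
  | zero => rw [zpow_zero, Units.val_one, Gs_zero]
  | succ i ih =>
    rw [← key, ← ih, ← Units.val_mul, zpow_add_one, (Commute.self_zpow (gu a) (i : ℤ)).eq]
  | pred i ih =>
    have h1 := key (-(i : ℤ) - 1)
    rw [sub_add_cancel, ← ih] at h1
    have h2 : Gs a (-(i : ℤ) - 1) 0 = (((gu a)⁻¹ : (PS Λ)ˣ) : PS Λ) *
        (((gu a : (PS Λ)ˣ) : PS Λ) * Gs a (-(i : ℤ) - 1) 0) := by
      rw [← mul_assoc, Units.inv_mul, one_mul]
    rw [h2, h1, ← Units.val_mul, zpow_sub_one,
      ((Commute.self_zpow (gu a) (-(i : ℤ))).inv_left).eq]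

lemma mu_of_zpow (a : Λ) (e : ℤ) : ((mu (FreeGroup.of a ^ e) : (PS Λ)ˣ) : PS Λ) = Gs a e 0 := by
  rw [map_zpow, ← gu_zpow]
  congr 2
  exact FreeGroup.lift_apply_of

lemma Gs_mul (a : Λ) (e : ℤ) (g : PS Λ) (τ : List Λ) (hτ : ∀ b ∈ τ.head?, b ≠ a) (m : ℕ) :
    ∀ j, (∀ k, 1 ≤ k → k ≤ m → g.co (List.replicate k a ++ τ) = 0) →
    (Gs a e j * g).co (List.replicate m a ++ τ) = Ring.choose e (j + m) * g.co τ := by
  induction m with
  | zero =>
    intro j _
    cases τ with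
    | nil => simp [mul_nil, Gs_nil]
    | cons b τ =>
      rw [List.replicate_zero, List.nil_append, mul_cons, dv_Gs_ne (hτ b (by simp)), zero_mul,
        PS.zero_apply, add_zero, Gs_nil, add_zero]
  | succ m ih =>
    intro j h
    rw [List.replicate_succ, List.cons_append, mul_cons, dv_Gs_self,
      ih (j + 1) (fun k h1 h2 => h k h1 (by omega))]
    have h3 := h (m + 1) (by omega) le_rfl
    rw [List.replicate_succ, List.cons_append] at h3
    rw [h3, mul_zero, zero_add]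
    congr 2
    omega

lemma flat_cons (b : Λ) (m : ℕ) (r : List (Λ × ℕ)) :
    flat ((b, m) :: r) = List.replicate m b ++ flat r := rfl

lemma ev_cons (a : Λ) (e : ℤ) (l : List (Λ × ℤ)) : ev ((a, e) :: l) = FreeGroup.of a ^ e * ev l := by
  simp [ev]

lemma cf_one_cons (b : Λ) (ω : List Λ) : cf (b :: ω) (1 : FreeGroup Λ) = 0 := by
  rw [cf, map_one, Units.val_one, one_cons]

lemma cf_mul (ω : List Λ) (a : Λ) (e : ℤ) (z : FreeGroup Λ) :
    cf ω (FreeGroup.of a ^ e * z) = (Gs a e 0 * (mu z : PS Λ)).co ω := by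
  rw [cf, map_mul, Units.val_mul, mu_of_zpow]

lemma flat_head {r : List (Λ × ℕ)} (h1 : ∀ x ∈ r, 1 ≤ x.2) : ∀ b ∈ (flat r).head?,
    ∃ x ∈ r.head?, x.1 = b := by
  intro b hb
  cases r with
  | nil => simp [flat] at hb
  | cons x r =>
    obtain ⟨c, m⟩ := x
    have hm : 1 ≤ m := h1 (c, m) (by simp)
    obtain ⟨m', rfl⟩ : ∃ m', m = m' + 1 := ⟨m - 1, by omega⟩
    rw [flat_cons, List.replicate_succ, List.cons_append, List.head?_cons, Option.mem_def,
      Option.some.injEq] at hb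
    exact ⟨(c, m' + 1), by simp, hb⟩

theorem main (l : List (Λ × ℤ)) : ∀ r : List (Λ × ℕ), Ch r → (∀ x ∈ r, 1 ≤ x.2) →
    (l.length < r.length → cf (flat r) (ev l) = 0) ∧
    (l.length = r.length → l.map Prod.fst = r.map Prod.fst →
      cf (flat r) (ev l) = (List.zipWith (fun x y => Ring.choose x.2 y.2) l r).prod) ∧
    (l.length = r.length → l.map Prod.fst ≠ r.map Prod.fst → cf (flat r) (ev l) = 0) := by
  induction l with
  | nil =>
    intro r hC h1
    refine ⟨fun h => ?_, fun h _ => ?_, fun h hne => ?_⟩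
    · cases r with
      | nil => simp at h
      | cons x r =>
        obtain ⟨c, m⟩ := x
        have hm : 1 ≤ m := h1 (c, m) (by simp)
        obtain ⟨m', rfl⟩ : ∃ m', m = m' + 1 := ⟨m - 1, by omega⟩
        rw [flat_cons, List.replicate_succ, List.cons_append]
        exact cf_one_cons _ _
    · have hr : r = [] := List.length_eq_zero_iff.mp h.symm
      subst hr
      simp [flat, ev, cf, one_nil]
    · have hr : r = [] := List.length_eq_zero_iff.mp h.symm
      subst hr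
      exact absurd rfl hne
  | cons x l ih =>
    obtain ⟨a, e⟩ := x
    intro r hC h1
    cases r with
    | nil =>
      refine ⟨fun h => ?_, fun h _ => ?_, fun h hne => ?_⟩
      · simp at h
      · simp at h
      · simp at h
    | cons y r =>
      obtain ⟨b, m⟩ := y
      have hm : 1 ≤ m := h1 (b, m) (by simp)
      have hC' : Ch r := List.IsChain.tail hC
      have h1' : ∀ x ∈ r, 1 ≤ x.2 := fun x hx => h1 x (List.mem_cons_of_mem _ hx)
      obtain ⟨i1, i2, i3⟩ := ih r hC' h1'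
      by_cases hba : b = a
      · subst hba
        have hk : l.length < r.length + 1 → cf (flat ((b, m) :: r)) (ev ((b, e) :: l)) =
            Ring.choose e m * cf (flat r) (ev l) := by
          intro hlt
          rw [flat_cons, ev_cons, cf_mul, Gs_mul b e _ (flat r) ?_ m 0 ?_, zero_add]
          · rfl
          · intro c hc
            obtain ⟨x, hx, hxc⟩ := flat_head h1' c hc
            cases r with
            | nil => simp at hx
            | cons x' r =>
              rw [List.head?_cons, Option.mem_def, Option.some.injEq] at hx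
              subst hx
              have := (List.isChain_cons_cons.mp hC).1
              rw [← hxc]
              exact fun h => this h.symm
          · intro k hk1 hk2
            have hCk : Ch ((b, k) :: r) := by
              cases r with
              | nil => exact List.isChain_singleton _
              | cons x' r =>
                have h2 := List.isChain_cons_cons.mp hC
                exact List.isChain_cons_cons.mpr ⟨h2.1, h2.2⟩
            have h1k : ∀ x ∈ ((b, k) :: r), 1 ≤ x.2 := by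
              intro x hx
              rcases List.mem_cons.mp hx with rfl | hx
              · exact hk1
              · exact h1' x hx
            have := (ih ((b, k) :: r) hCk h1k).1 (by rw [List.length_cons]; exact hlt)
            rw [flat_cons] at this
            exact this
        refine ⟨fun h => ?_, fun h hm => ?_, fun h hne => ?_⟩
        · simp only [List.length_cons] at h
          rw [hk (by omega), i1 (by omega), mul_zero]
        · simp only [List.length_cons] at h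
          rw [hk (by omega), List.zipWith_cons_cons, List.prod_cons]
          simp only [List.map_cons, List.cons.injEq, true_and] at hm
          rw [i2 (by omega) hm]
        · simp only [List.length_cons] at h
          simp only [List.map_cons, ne_eq, List.cons.injEq, true_and] at hne
          rw [hk (by omega), i3 (by omega) hne, mul_zero]
      · have hz : l.length < r.length + 1 → cf (flat ((b, m) :: r)) (ev ((a, e) :: l)) = 0 := by
          intro hlt
          have h0 := (ih ((b, m) :: r) hC h1).1 (by rw [List.length_cons]; exact hlt)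
          rw [cf] at h0
          obtain ⟨m', rfl⟩ : ∃ m', m = m' + 1 := ⟨m - 1, by omega⟩
          rw [ev_cons, cf_mul]
          rw [flat_cons, List.replicate_succ, List.cons_append] at h0 ⊢
          rw [mul_cons, dv_Gs_ne hba, zero_mul, PS.zero_apply, h0, mul_zero, add_zero]
        refine ⟨fun h => ?_, fun h hm => ?_, fun h hne => ?_⟩
        · simp only [List.length_cons] at h
          exact hz (by omega)
        · simp only [List.map_cons, List.cons.injEq] at hm
          exact absurd hm.1.symm hba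
        · simp only [List.length_cons] at h
          exact hz (by omega)

theorem specCK : SpecCK := fun Λ r l hC h1 => main l r hC h1

end Pool.Agent.Lib.MP347126.BR.CKM
end

section
/-!
# MP_347126_al, module CT: controlled letters
-/
set_option autoImplicit false

namespace Pool.Agent.Lib.MP347126.BR

open Finset

namespace CTM

variable {G G' : Type} [Group G] [Group G']

theorem fi_inf {M N : Subgroup G} (hM : FI M) (hN : FI N) : FI (M ⊓ N) := by
  obtain ⟨_, _⟩ := hM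
  obtain ⟨_, _⟩ := hN
  exact ⟨inferInstance, inferInstance⟩

theorem fi_comap (p : G →* G') {M : Subgroup G'} (hM : FI M) : FI (M.comap p) := by
  obtain ⟨h1, h2⟩ := hM
  refine ⟨h1.comap p, ⟨?_⟩⟩
  rw [Subgroup.index_comap]
  intro h3
  have h4 : M.relIndex p.range ∣ M.index := Subgroup.relIndex_dvd_index_of_normal M p.range
  rw [h3] at h4
  exact h2.index_ne_zero (Nat.eq_zero_of_zero_dvd h4)

theorem sep (h : RFs G') (X : Finset G') (hX : ∀ x ∈ X, x ≠ 1) :
    ∃ M : Subgroup G', FI M ∧ ∀ x ∈ X, x ∉ M := by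
  classical
  induction X using Finset.induction_on with
  | empty => exact ⟨⊤, ⟨inferInstance, inferInstance⟩, by simp⟩
  | insert a X ha ih =>
    obtain ⟨M, hM, h1⟩ := ih (fun x hx => hX x (Finset.mem_insert_of_mem hx))
    have h2 : ∃ N : Subgroup G', FI N ∧ a ∉ N := by
      by_contra hcon
      push Not at hcon
      exact hX a (Finset.mem_insert_self _ _) (h a hcon)
    obtain ⟨N, hN, h3⟩ := h2
    refine ⟨M ⊓ N, fi_inf hM hN, fun x hx => ?_⟩
    rcases Finset.mem_insert.mp hx with rfl | hx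
    · exact fun h4 => h3 h4.2
    · exact fun h4 => h1 x hx h4.1

theorem ker_of_cj (h : RFs G') (f : G →* G') (U : Ultrafilter G) (x y : G)
    (hC : Cj (U : Filter G) x y) (hx : f x = 1) : f y = 1 := by
  apply h
  intro M hM
  obtain ⟨g, hg⟩ := (hC (M.comap f) (fi_comap f hM)).exists
  rw [Subgroup.mem_comap] at hg
  simp only [map_mul, map_inv, hx, mul_one, mul_inv_cancel, one_mul] at hg
  exact inv_mem_iff.mp hg

theorem kappa_be (e : ℕ) (z : FreeGroup (FreeGroup (Fin e))) : kappa e (be e z) = 1 := by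
  have h1 : (kappa e).comp (be e) = 1 := by
    ext1 u
    simp only [MonoidHom.comp_apply, be, FreeGroup.lift_apply_of, map_mul, map_inv, cc, kappa]
    rw [dif_neg (by simp)]
    simp
  exact DFunLike.congr_fun h1 z

/-- Separation of the elements of a finite set. -/
theorem sepj {Φ : Type} [Group Φ] (h : RFs G') (j : Φ →* G') (hj : Function.Injective j)
    (X : Set Φ) (hX : X.Finite) : ∃ M : Subgroup G', FI M ∧
      ∀ u ∈ X, ∀ u' ∈ X, (j u)⁻¹ * j u' ∈ M → u = u' := by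
  classical
  obtain ⟨M, hM, h1⟩ := sep h (((hX.toFinset ×ˢ hX.toFinset).filter fun x => x.1 ≠ x.2).image
    fun x => (j x.1)⁻¹ * j x.2) (by
      intro x hx
      rw [Finset.mem_image] at hx
      obtain ⟨⟨a, b⟩, hab, rfl⟩ := hx
      rw [Finset.mem_filter] at hab
      intro h2
      exact hab.2 (hj (inv_mul_eq_one.mp h2)))
  refine ⟨M, hM, fun u hu u' hu' h2 => ?_⟩
  by_contra hne
  refine h1 _ (Finset.mem_image.mpr ⟨(u, u'), ?_, rfl⟩) h2
  rw [Finset.mem_filter, Finset.mem_product]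
  exact ⟨⟨hX.mem_toFinset.mpr hu, hX.mem_toFinset.mpr hu'⟩, hne⟩

/-- The main step. -/
theorem step (hTR : SpecTr) (hT2 : SpecT2) (hT3 : SpecT3) (hACT : SpecAct) (hFQ : SpecFQ)
    {e : ℕ} (S : StepData e G G') (z yt : FreeGroup (FreeGroup (Fin e)))
    (t₀ t₀' : FreeGroup (Fin e)) (n : ℤ) (d : ℕ) (U : Ultrafilter G)
    (hC : Cj (U : Filter G) (S.nu (be e z)) (S.nu (be e yt)))
    (hL : Low z (FreeGroup.of t₀ ^ n) d)
    (h0 : n = 0 ∨ ∀ M' : Subgroup G', FI M' → ∀ᶠ g in (U : Filter G),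
      S.q g * S.j t₀ * (S.p g)⁻¹ * (S.j t₀')⁻¹ ∈ M')
    (E : Finset (FreeGroup (Fin e)))
    (hE : ∀ (Λ' : Type) (b : FreeGroup (Fin e) → Λ') (ω' : List Λ'),
      T ω' (FreeGroup.map b yt) ≠ 0 → ∀ u' ∈ ω', ∃ u ∈ E, b u = u')
    (hE' : ∀ (Λ' : Type) (b : FreeGroup (Fin e) → Λ') (ω' : List Λ'),
      T ω' (FreeGroup.map b (FreeGroup.of t₀' ^ n)) ≠ 0 → ∀ u' ∈ ω', ∃ u ∈ E, b u = u')
    (M' : Subgroup G') (hM' : FI M')
    (hs : ∀ u ∈ Tset z (FreeGroup.of t₀ ^ n) d, ∀ u' ∈ Tset z (FreeGroup.of t₀ ^ n) d,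
      (S.j u)⁻¹ * S.j u' ∈ M' → u = u')
    (t : FreeGroup (Fin e)) (ht : t ∈ Tset z (FreeGroup.of t₀ ^ n) d) :
    ∀ᶠ g in (U : Filter G), ∃ t' ∈ E, S.q g * S.j t * (S.p g)⁻¹ * (S.j t')⁻¹ ∈ M' := by
  obtain ⟨-, hact⟩ := hACT e G G' S
  choose b φ hb hj hnu hof using hact
  obtain ⟨hTconj, hT1, -, -, -⟩ := hTR
  have hFL : FI (M'.comap S.j) := fi_comap S.j hM'
  obtain ⟨hn1, hn2⟩ := hFL
  set L := M'.comap S.j with hLdef
  have hMn : M'.Normal := hM'.1
  let mk : FreeGroup (Fin e) → FreeGroup (Fin e) ⧸ L := QuotientGroup.mk (s := L)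
  let π : FreeGroup (FreeGroup (Fin e)) →* FreeGroup (FreeGroup (Fin e) ⧸ L) := FreeGroup.map mk
  have hmk : ∀ u u', mk u = mk u' ↔ (S.j u)⁻¹ * S.j u' ∈ M' := by
    intro u u'
    rw [QuotientGroup.eq, hLdef, Subgroup.mem_comap, map_mul, map_inv]
  have hmkb : ∀ g u u', mk (b g u) = mk (b g u') ↔ mk u = mk u' := by
    intro g u u'
    rw [hmk, hmk, hj, hj]
    have h1 : (S.q g * S.j u * (S.p g)⁻¹)⁻¹ * (S.q g * S.j u' * (S.p g)⁻¹) =
        S.p g * ((S.j u)⁻¹ * S.j u') * (S.p g)⁻¹ := by group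
    rw [h1]
    constructor
    · intro h2
      have h3 := hMn.conj_mem _ h2 (S.p g)⁻¹
      have h4 : (S.p g)⁻¹ * (S.p g * ((S.j u)⁻¹ * S.j u') * (S.p g)⁻¹) * (S.p g)⁻¹⁻¹ =
        (S.j u)⁻¹ * S.j u' := by group
      rwa [h4] at h3
    · intro h2
      exact hMn.conj_mem _ h2 _
  obtain ⟨ω, hωd, hωT, htω⟩ := ht
  have hωsub : ∀ u ∈ ω, u ∈ Tset z (FreeGroup.of t₀ ^ n) d := fun u hu => ⟨ω, hωd, hωT, hu⟩
  set D : ℤ := T ω z - T ω (FreeGroup.of t₀ ^ n) with hD
  have hD0 : D ≠ 0 := sub_ne_zero.mpr hωT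
  -- congruences for the words over the quotient
  have key : ∀ᶠ g in (U : Filter G), ∀ ω' ∈ {l : List (FreeGroup (Fin e) ⧸ L) | l.length = d},
      ((D.natAbs + 1 : ℕ) : ℤ) ∣ T ω' (π (φ g z)) - T ω' (π yt) := by
    rw [Filter.eventually_all_finite (List.finite_length_eq _ d)]
    intro ω' _
    obtain ⟨Q, _, _, f, hf⟩ := hT3 (FreeGroup (Fin e) ⧸ L) ω' (D.natAbs + 1) (Nat.succ_ne_zero _)
    obtain ⟨M, hM, hMf⟩ := hFQ e G G' S.toPinData L Q f
    filter_upwards [hC M hM] with g hg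
    apply hf
    have h1 : S.nu (be e (φ g z * yt⁻¹)) ∈ M := by
      rw [map_mul, map_mul, hnu, map_inv, map_inv]
      exact hg
    have h2 := hMf _ h1
    rw [map_mul, map_inv, map_mul, map_inv, mul_inv_eq_one] at h2
    exact h2
  have key0 : ∀ᶠ g in (U : Filter G), n = 0 ∨ mk (b g t₀) = mk t₀' := by
    rcases h0 with h0 | h0
    · exact Filter.Eventually.of_forall fun g => Or.inl h0
    · filter_upwards [h0 M' hM'] with g hg
      right
      rw [hmk, hj]
      have h1 := hMn.conj_mem _ (inv_mem hg) (S.q g * S.j t₀ * (S.p g)⁻¹)⁻¹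
      have h2 : (S.q g * S.j t₀ * (S.p g)⁻¹)⁻¹ *
          (S.q g * S.j t₀ * (S.p g)⁻¹ * (S.j t₀')⁻¹)⁻¹ * (S.q g * S.j t₀ * (S.p g)⁻¹)⁻¹⁻¹ =
          (S.q g * S.j t₀ * (S.p g)⁻¹)⁻¹ * S.j t₀' := by group
      rwa [h2] at h1
  filter_upwards [key, key0] with g hg hg0
  -- transport
  have hpo : ∀ u, ∃ κ, (π.comp (φ g)) (FreeGroup.of u) =
      κ * FreeGroup.of ((fun u => mk (b g u)) u) * κ⁻¹ := by
    intro u
    obtain ⟨κ, hκ⟩ := hof g u
    refine ⟨π κ, ?_⟩
    rw [MonoidHom.comp_apply, hκ, map_mul, map_mul, map_inv]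
    rfl
  obtain ⟨-, h3⟩ := hT2 _ _ (π.comp (φ g)) (fun u => mk (b g u)) hpo z (FreeGroup.of t₀ ^ n) d hL.1
  have h4 := h3 ω hωd (by
    intro u hu u' hu' h5
    have h6 : mk u = mk u' := (hmkb g u u').mp h5
    exact hs u (hωsub u hu) u' hu' ((hmk u u').mp h6))
  set ω' : List (FreeGroup (Fin e) ⧸ L) := ω.map fun u => mk (b g u) with hω'
  have hω'd : ω'.length = d := by rw [hω', List.length_map, hωd]
  have h5 := hg ω' hω'd
  -- the second element
  have h6 : T ω' ((π.comp (φ g)) (FreeGroup.of t₀ ^ n)) =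
      T ω' (FreeGroup.map mk (FreeGroup.of t₀' ^ n)) := by
    obtain ⟨κ, hκ⟩ := hpo t₀
    rw [map_zpow, hκ]
    have h7 : ∀ (κ a : FreeGroup (FreeGroup (Fin e) ⧸ L)), (κ * a * κ⁻¹) ^ n = κ * a ^ n * κ⁻¹ := by
      intro κ a
      rw [conj_zpow]
    rw [h7, hTconj, map_zpow, FreeGroup.map.of]
    rcases hg0 with hn | hn
    · rw [hn, zpow_zero, zpow_zero]
    · rw [← hn]
  have h8 : ((D.natAbs + 1 : ℕ) : ℤ) ∣ D - (T ω' (π yt) -
      T ω' (FreeGroup.map mk (FreeGroup.of t₀' ^ n))) := by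
    have h9 : D - (T ω' (π yt) - T ω' (FreeGroup.map mk (FreeGroup.of t₀' ^ n))) =
        T ω' (π (φ g z)) - T ω' (π yt) := by
      rw [hD, ← h4, h6]
      simp only [MonoidHom.comp_apply]
      ring
    rw [h9]
    exact h5
  have h10 : T ω' (π yt) - T ω' (FreeGroup.map mk (FreeGroup.of t₀' ^ n)) ≠ 0 := by
    intro h11
    rw [h11, sub_zero] at h8
    have h12 := Int.le_of_dvd (abs_pos.mpr hD0) ((dvd_abs _ _).mpr h8)
    have h13 : |D| = (D.natAbs : ℤ) := (Int.natCast_natAbs D).symm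
    rw [h13] at h12
    push_cast at h12
    omega
  have htω' : mk (b g t) ∈ ω' := List.mem_map.mpr ⟨t, htω, rfl⟩
  have h14 : ∃ t' ∈ E, mk t' = mk (b g t) := by
    by_cases h15 : T ω' (π yt) = 0
    · rw [h15, zero_sub, neg_ne_zero] at h10
      exact hE' _ mk ω' h10 _ htω'
    · exact hE _ mk ω' h15 _ htω'
  obtain ⟨t', ht', h16⟩ := h14
  refine ⟨t', ht', ?_⟩
  rw [hmk, hj] at h16
  have h17 := hMn.conj_mem _ h16 (S.j t')
  have h18 : S.j t' * ((S.j t')⁻¹ * (S.q g * S.j t * (S.p g)⁻¹)) * (S.j t')⁻¹ =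
      S.q g * S.j t * (S.p g)⁻¹ * (S.j t')⁻¹ := by group
  rwa [h18] at h17

theorem specCT (hTR : SpecTr) (hT2 : SpecT2) (hT3 : SpecT3) (hACT : SpecAct) (hFQ : SpecFQ) :
    SpecCT := by
  classical
  intro e G G' _ _ S z t₀ t₀' n d U y hC hL h0 t ht
  have hpx : S.p (S.nu (be e z)) = 1 := (S.nu_range _).mpr ⟨_, rfl⟩
  have hqx : S.q (S.nu (be e z)) = 1 := by rw [S.q_nu, kappa_be, map_one]
  have hpy := ker_of_cj S.rf S.p U _ _ hC hpx
  have hqy := ker_of_cj S.rf S.q U _ _ hC hqx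
  obtain ⟨yt, rfl⟩ := (hACT e G G' S).1 y hpy hqy
  obtain ⟨E₁, hE₁⟩ := hTR.2.2.2.1 _ yt
  obtain ⟨E₂, hE₂⟩ := hTR.2.2.2.1 _ (FreeGroup.of t₀' ^ n)
  have hfin := hTR.2.2.2.2 _ z (FreeGroup.of t₀ ^ n) d
  obtain ⟨M₁, hM₁, hs₁⟩ := sepj S.rf S.j S.j_inj _ hfin
  obtain ⟨M₂, hM₂, hs₂⟩ := sepj S.rf S.j S.j_inj _ (E₁ ∪ E₂).finite_toSet
  have key : ∀ M' : Subgroup G', FI M' → ∀ᶠ g in (U : Filter G), ∃ t' ∈ E₁ ∪ E₂,
      S.q g * S.j t * (S.p g)⁻¹ * (S.j t')⁻¹ ∈ M' ⊓ (M₁ ⊓ M₂) := by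
    intro M' hM'
    apply step hTR hT2 hT3 hACT hFQ S z yt t₀ t₀' n d U hC hL h0 (E₁ ∪ E₂)
      (fun Λ' b ω' h1 u' hu' => ?_) (fun Λ' b ω' h1 u' hu' => ?_) _
      (fi_inf hM' (fi_inf hM₁ hM₂)) (fun u hu u' hu' h1 => hs₁ u hu u' hu' h1.2.1) t ht
    · obtain ⟨u, hu, h2⟩ := hE₁ Λ' b ω' h1 u' hu'
      exact ⟨u, Finset.mem_union_left _ hu, h2⟩
    · obtain ⟨u, hu, h2⟩ := hE₂ Λ' b ω' h1 u' hu'
      exact ⟨u, Finset.mem_union_right _ hu, h2⟩
  have pick : ∀ M' : Subgroup G', FI M' → ∃ t' ∈ E₁ ∪ E₂, ∀ᶠ g in (U : Filter G),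
      S.q g * S.j t * (S.p g)⁻¹ * (S.j t')⁻¹ ∈ M' ⊓ (M₁ ⊓ M₂) := by
    intro M' hM'
    have h1 := key M' hM'
    have h2 : ∀ᶠ g in (U : Filter G), ∃ t' : (E₁ ∪ E₂ : Finset (FreeGroup (Fin e))),
        S.q g * S.j t * (S.p g)⁻¹ * (S.j t')⁻¹ ∈ M' ⊓ (M₁ ⊓ M₂) := by
      filter_upwards [h1] with g hg
      obtain ⟨t', ht', h3⟩ := hg
      exact ⟨⟨t', ht'⟩, h3⟩
    obtain ⟨t', ht'⟩ := Ultrafilter.eventually_exists_iff.mp h2
    exact ⟨t', t'.2, ht'⟩
  obtain ⟨t', ht', h1⟩ := pick ⊤ ⟨inferInstance, inferInstance⟩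
  refine ⟨t', fun M' hM' => ?_⟩
  obtain ⟨t'', ht'', h2⟩ := pick M' hM'
  have h3 : t'' = t' := by
    obtain ⟨g, hg1, hg2⟩ := (h1.and h2).exists
    have hn := hM₂.1
    have h4 : (S.j t')⁻¹ * S.j t'' ∈ M₂ := by
      have h5 := hn.conj_mem _ (mul_mem (inv_mem hg2.2.2) hg1.2.2) (S.j t')⁻¹
      have h6 := hn.conj_mem _ h5 (S.j t')
      have h7 := hn.conj_mem _ (mul_mem (inv_mem hg1.2.2) hg2.2.2) (S.j t')⁻¹
      have h8 : (S.j t')⁻¹ * ((S.q g * S.j t * (S.p g)⁻¹ * (S.j t')⁻¹)⁻¹ *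
          (S.q g * S.j t * (S.p g)⁻¹ * (S.j t'')⁻¹)) * (S.j t')⁻¹⁻¹ =
          (S.j t'')⁻¹ * S.j t' := by group
      rw [h8] at h7
      have h9 := inv_mem h7
      rwa [mul_inv_rev, inv_inv] at h9
    exact (hs₂ t' (by exact_mod_cast ht') t'' (by exact_mod_cast ht'') h4).symm
  subst h3
  filter_upwards [h2] with g hg
  exact hg.1

end CTM

end Pool.Agent.Lib.MP347126.BR
end

section
/-!
# MP_347126_al, module FQ: finite quotients of the free group on the letters
-/
set_option autoImplicit false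

namespace Pool.Agent.Lib.MP347126.BR

open Finset

namespace FQM

/-- the action of the group on the functions -/
noncomputable abbrev act (Λ Q : Type) [Group Λ] [Group Q] : Λ →* MulAut (Λ → Q) := mulAutArrow

theorem act_apply {Λ Q : Type} [Group Λ] [Group Q] (g : Λ) (F : Λ → Q) (a : Λ) :
    act Λ Q g F a = F (g⁻¹ * a) := rfl

theorem specFQ : SpecFQ := by
  intro e G G' _ _ P L _ _ Q _ _ f
  let Λ : Type := FreeGroup (Fin e) ⧸ L
  let mk : FreeGroup (Fin e) →* Λ := QuotientGroup.mk' L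
  let F : Λ → Q := fun μ => f (FreeGroup.of μ⁻¹)
  let ψ : FreeGroup (Fin (e + 1)) →* (Λ → Q) ⋊[act Λ Q] Λ :=
    FreeGroup.lift fun i => if h : i.val < e then
      SemidirectProduct.inr (mk (FreeGroup.of ⟨i.val, h⟩)) else SemidirectProduct.inl F
  have hio : ∀ u, ψ (io e u) = SemidirectProduct.inr (mk u) := by
    have h1 : ψ.comp (io e) = SemidirectProduct.inr.comp mk := by
      ext1 i
      simp only [MonoidHom.comp_apply, io, FreeGroup.map.of, ψ, FreeGroup.lift_apply_of]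
      rw [dif_pos (by simp)]
      rfl
    intro u
    exact DFunLike.congr_fun h1 u
  have hcc : ψ (cc e) = SemidirectProduct.inl F := by
    simp only [cc, ψ, FreeGroup.lift_apply_of]
    rw [dif_neg (by simp)]
  let H : FreeGroup (FreeGroup (Fin e)) →* (Λ → Q) :=
    FreeGroup.lift fun u => act Λ Q (mk u) F
  have hbe : ∀ z, ψ (be e z) = SemidirectProduct.inl (H z) := by
    have h1 : ψ.comp (be e) = SemidirectProduct.inl.comp H := by
      ext1 u
      simp only [MonoidHom.comp_apply, be, FreeGroup.lift_apply_of, H, map_mul, map_inv, hio, hcc]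
      rw [SemidirectProduct.inl_aut, map_inv]
    intro z
    exact DFunLike.congr_fun h1 z
  have hev : ∀ z, H z 1 = f (FreeGroup.map (QuotientGroup.mk (s := L)) z) := by
    have h1 : (Pi.evalMonoidHom (fun _ : Λ => Q) 1).comp H =
        f.comp (FreeGroup.map (QuotientGroup.mk (s := L))) := by
      ext1 u
      simp only [MonoidHom.comp_apply, Pi.evalMonoidHom_apply, H, FreeGroup.lift_apply_of,
        FreeGroup.map.of, act_apply, F]
      rw [mul_one, inv_inv]
      rfl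
    intro z
    exact DFunLike.congr_fun h1 z
  have hfin : Finite ((Λ → Q) ⋊[act Λ Q] Λ) :=
    Finite.of_equiv _ (SemidirectProduct.equivProd (N := Λ → Q) (G := Λ) (φ := act Λ Q)).symm
  obtain ⟨M, hM, h2⟩ := P.dom _ ψ
  refine ⟨M, hM, fun z hz => ?_⟩
  have h3 := h2 _ hz
  rw [hbe z] at h3
  have h4 : H z = 1 := SemidirectProduct.inl_injective (by rw [h3, map_one])
  rw [← hev z, h4]
  rfl

end FQM

end Pool.Agent.Lib.MP347126.BR
end

section
/-!
# MP_347126_al: Brunnian braids. Module FR: conjugacy in free groups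

Text of the proof: team store, `MP_347126_al_BR_h4.md`, (1.1).
-/
set_option autoImplicit false

namespace Pool.Agent.Lib.MP347126.BR.FRM

open Finset

/-- conjugacy separability of free groups, without quotients -/
lemma cs (hTr : SpecTr) (hT3 : SpecT3) (hMT : SpecMT) {Λ : Type} (x y : FreeGroup Λ)
    (h : ∀ M : Subgroup (FreeGroup Λ), FI M → ∃ g, g * x * g⁻¹ * y⁻¹ ∈ M) :
    ∃ g, g * x * g⁻¹ = y := by
  have h1 : IsConj x y := by
    apply hMT
    intro ω
    by_contra hne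
    have h2 : ∀ m : ℕ, m ≠ 0 → (m : ℤ) ∣ T ω x - T ω y := by
      intro m hm
      obtain ⟨Q, _, _, f, hf⟩ := hT3 Λ ω m hm
      obtain ⟨g, hg⟩ := h f.ker ⟨inferInstance, inferInstance⟩
      rw [MonoidHom.mem_ker, map_mul, map_inv, mul_inv_eq_one] at hg
      have h3 := hf _ _ hg
      rwa [hTr.1] at h3
    have h3 : T ω x - T ω y ≠ 0 := sub_ne_zero.2 hne
    have h4 := h2 ((T ω x - T ω y).natAbs + 1) (Nat.succ_ne_zero _)
    have h5 := Int.le_of_dvd (by positivity : 0 < |T ω x - T ω y|) ((dvd_abs _ _).2 h4)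
    rw [Int.abs_eq_natAbs] at h5
    push_cast at h5
    omega
  obtain ⟨c, hc⟩ := isConj_iff.1 h1
  exact ⟨c, hc⟩

/-- the same for groups which are free -/
lemma cs' (hTr : SpecTr) (hT3 : SpecT3) (hMT : SpecMT) {K : Type} [Group K] [IsFreeGroup K]
    (x y : K) (h : ∀ M : Subgroup K, FI M → ∃ g, g * x * g⁻¹ * y⁻¹ ∈ M) :
    ∃ g, g * x * g⁻¹ = y := by
  let E := IsFreeGroup.toFreeGroup K
  obtain ⟨g, hg⟩ := cs hTr hT3 hMT (E x) (E y) (by
    intro M hM
    have : (M.comap E.toMonoidHom).FiniteIndex := by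
      constructor
      rw [Subgroup.index_comap_of_surjective (f := E.toMonoidHom) M E.surjective]
      exact hM.2.index_ne_zero
    have hn : (M.comap E.toMonoidHom).Normal := by
      have := hM.1
      infer_instance
    obtain ⟨g, hg⟩ := h (M.comap E.toMonoidHom) ⟨hn, this⟩
    refine ⟨E g, ?_⟩
    rw [Subgroup.mem_comap] at hg
    simpa using hg)
  refine ⟨E.symm g, E.injective ?_⟩
  rw [map_mul, map_mul, map_inv, E.apply_symm_apply, hg]

/-- the group generated by the centraliser of `x` and `M` -/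
lemma mem_sup {G : Type} [Group G] {x : G} {M : Subgroup G} [M.Normal] {g : G}
    (hg : g ∈ Subgroup.centralizer {x} ⊔ M) : ∃ a, a * x = x * a ∧ a⁻¹ * g ∈ M := by
  rw [← SetLike.mem_coe, Subgroup.mul_normal] at hg
  obtain ⟨a, ha, m, hm, rfl⟩ := hg
  refine ⟨a, Subgroup.mem_centralizer_singleton_iff.1 ha, ?_⟩
  rw [inv_mul_cancel_left]
  exact hm

/-- finite index subgroups of finite index subgroups -/
lemma fi_sub {G : Type} [Group G] (K : Subgroup G) [K.FiniteIndex] (N : Subgroup K) (hN : FI N) :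
    ∃ M : Subgroup G, FI M ∧ ∀ k : K, (k : G) ∈ M → k ∈ N := by
  have h1 : (N.map K.subtype).FiniteIndex := by
    have := hN.2
    constructor
    rw [Subgroup.index_map_subtype]
    exact mul_ne_zero this.index_ne_zero Subgroup.FiniteIndex.index_ne_zero
  refine ⟨(N.map K.subtype).normalCore, ⟨inferInstance, inferInstance⟩, ?_⟩
  intro k hk
  obtain ⟨k', hk', e⟩ := Subgroup.normalCore_le _ hk
  rwa [← Subtype.ext e]

theorem specFR (hTr : SpecTr) (hT3 : SpecT3) (hMT : SpecMT) : SpecFR := by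
  intro k x U y hU
  have hex : ∀ M : Subgroup (FreeGroup (Fin k)), FI M → ∃ g, g * x * g⁻¹ * y⁻¹ ∈ M :=
    fun M hM => (hU M hM).exists
  obtain ⟨γ, hγ⟩ := cs hTr hT3 hMT x y hex
  refine ⟨γ, hγ, ?_⟩
  intro M hM
  have hMn := hM.1
  have hMf := hM.2
  set K := Subgroup.centralizer {x} ⊔ M with hK
  have hMK : M ≤ K := le_sup_right
  have hKf : K.FiniteIndex := Subgroup.finiteIndex_of_le hMK
  -- pigeonhole
  obtain ⟨c, hc⟩ := (U.map fun g => (QuotientGroup.mk (g⁻¹ * γ) : FreeGroup (Fin k) ⧸ K)).eq_pure_of_finite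
  obtain ⟨h', rfl⟩ := QuotientGroup.mk_surjective c
  have hc1 : ∀ᶠ g in (U : Filter (FreeGroup (Fin k))), γ⁻¹ * g * h' ∈ K := by
    have h1 : ({QuotientGroup.mk h'} : Set (FreeGroup (Fin k) ⧸ K)) ∈
        U.map fun g => (QuotientGroup.mk (g⁻¹ * γ) : FreeGroup (Fin k) ⧸ K) := by
      rw [hc]
      exact Set.mem_singleton _
    rw [Ultrafilter.mem_map] at h1
    refine Filter.mem_of_superset h1 ?_
    intro g hg
    have hg' : (QuotientGroup.mk (g⁻¹ * γ) : FreeGroup (Fin k) ⧸ K) = QuotientGroup.mk h' := hg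
    rw [QuotientGroup.eq] at hg'
    simpa [mul_assoc] using hg'
  obtain ⟨h, rfl⟩ : ∃ h, h' = h⁻¹ := ⟨h'⁻¹, (inv_inv _).symm⟩
  -- the other conjugate
  have hconj : ∀ M' : Subgroup (FreeGroup (Fin k)), FI M' →
      ∃ κ ∈ K, κ * (h * x * h⁻¹) * κ⁻¹ * x⁻¹ ∈ M' := by
    intro M' hM'
    have hn := hM'.1
    obtain ⟨g, hg1, hg2⟩ := ((hU M' hM').and hc1).exists
    refine ⟨γ⁻¹ * g * h⁻¹, hg2, ?_⟩
    have h3 := hn.conj_mem _ hg1 γ⁻¹
    have h4 : γ⁻¹ * (g * x * g⁻¹ * y⁻¹) * γ⁻¹⁻¹ = γ⁻¹ * g * h⁻¹ * (h * x * h⁻¹) *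
        (γ⁻¹ * g * h⁻¹)⁻¹ * x⁻¹ := by
      rw [← hγ]
      group
    rwa [h4] at h3
  have hxK : x ∈ K := by
    apply (le_sup_left : Subgroup.centralizer {x} ≤ K)
    rw [Subgroup.mem_centralizer_singleton_iff]
  have hx'K : h * x * h⁻¹ ∈ K := by
    obtain ⟨κ, hκ, h1⟩ := hconj M hM
    have h2 : h * x * h⁻¹ = κ⁻¹ * (κ * (h * x * h⁻¹) * κ⁻¹ * x⁻¹ * x) * κ := by group
    rw [h2]
    exact mul_mem (mul_mem (inv_mem hκ) (mul_mem (hMK h1) hxK)) hκ
  obtain ⟨κ, hκ⟩ := cs' hTr hT3 hMT (K := K) ⟨h * x * h⁻¹, hx'K⟩ ⟨x, hxK⟩ (by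
    intro N hN
    obtain ⟨M', hM', hsub⟩ := fi_sub K N hN
    obtain ⟨κ, hκ, h1⟩ := hconj M' hM'
    exact ⟨⟨κ, hκ⟩, hsub _ h1⟩)
  have hκ' : (κ : FreeGroup (Fin k)) * (h * x * h⁻¹) * (κ : FreeGroup (Fin k))⁻¹ = x :=
    congrArg Subtype.val hκ
  have hκh : (κ : FreeGroup (Fin k)) * h ∈ K := by
    apply (le_sup_left : Subgroup.centralizer {x} ≤ K)
    rw [Subgroup.mem_centralizer_singleton_iff]
    have : (κ : FreeGroup (Fin k)) * h * x = ((κ : FreeGroup (Fin k)) * (h * x * h⁻¹) *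
      (κ : FreeGroup (Fin k))⁻¹) * ((κ : FreeGroup (Fin k)) * h) := by group
    rw [this, hκ']
  have hh : h ∈ K := by
    have := mul_mem (inv_mem κ.2) hκh
    rwa [inv_mul_cancel_left] at this
  filter_upwards [hc1] with g hg
  have hg' : γ⁻¹ * g ∈ K := by
    have := mul_mem hg hh
    rwa [inv_mul_cancel_right] at this
  obtain ⟨a, ha, h1⟩ := mem_sup hg'
  refine ⟨a, ha, ?_⟩
  rwa [mul_inv_rev, mul_assoc]

end Pool.Agent.Lib.MP347126.BR.FRM
end

section
/-!
# MP_347126_al: Brunnian braids, module GE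
-/
set_option autoImplicit false

namespace Pool.Agent.Lib.MP347126.BR.GEM

open Filter

lemma FI_top {G : Type} [Group G] : FI (⊤ : Subgroup G) := ⟨inferInstance, inferInstance⟩

lemma FI_inf {G : Type} [Group G] {M N : Subgroup G} (hM : FI M) (hN : FI N) : FI (M ⊓ N) := by
  obtain ⟨h1, h2⟩ := hM
  obtain ⟨h3, h4⟩ := hN
  exact ⟨inferInstance, inferInstance⟩

lemma FI_subgroupOf {G : Type} [Group G] {M : Subgroup G} (hM : FI M) (K : Subgroup G) :
    FI (M.subgroupOf K) := by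
  obtain ⟨h1, h2⟩ := hM
  exact ⟨inferInstance, inferInstance⟩

lemma FI_core {G : Type} [Group G] {H : Subgroup G} (hH : H.FiniteIndex) : FI H.normalCore := by
  have := hH
  exact ⟨inferInstance, inferInstance⟩

/-- a normal subgroup of finite index of `G` inside a subgroup of finite index of `K` -/
lemma exists_FI_le {G : Type} [Group G] {K : Subgroup G} (hK : K.FiniteIndex) {M : Subgroup K}
    (hM : FI M) : ∃ N : Subgroup G, FI N ∧ ∀ g ∈ N, ∃ h : g ∈ K, (⟨g, h⟩ : K) ∈ M := by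
  have h1 : (M.map K.subtype).FiniteIndex := by
    refine ⟨?_⟩
    rw [Subgroup.index_map_subtype]
    exact mul_ne_zero hM.2.index_ne_zero hK.index_ne_zero
  refine ⟨(M.map K.subtype).normalCore, FI_core h1, fun g hg => ?_⟩
  obtain ⟨k, hk, rfl⟩ := Subgroup.mem_map.1 (Subgroup.normalCore_le _ hg)
  exact ⟨k.2, hk⟩

lemma exists_uf {G : Type} [Group G] (S : Subgroup G → Set G)
    (hmono : ∀ M N : Subgroup G, M ≤ N → S M ⊆ S N) (hne : ∀ M : Subgroup G, FI M → (S M).Nonempty) :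
    ∃ U : Ultrafilter G, ∀ M : Subgroup G, FI M → S M ∈ (U : Filter G) := by
  let f : Filter G := ⨅ (M : {M : Subgroup G // FI M}), 𝓟 (S M.1)
  have hn : Nonempty {M : Subgroup G // FI M} := ⟨⟨⊤, FI_top⟩⟩
  have hf : f.NeBot := by
    apply iInf_neBot_of_directed'
    · rintro ⟨M, hM⟩ ⟨N, hN⟩
      exact ⟨⟨M ⊓ N, FI_inf hM hN⟩, principal_mono.2 (hmono _ _ inf_le_left),
        principal_mono.2 (hmono _ _ inf_le_right)⟩
    · rintro ⟨M, hM⟩
      exact principal_neBot_iff.2 (hne M hM)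
  refine ⟨Ultrafilter.of f, fun M hM => ?_⟩
  exact Ultrafilter.of_le f (mem_iInf_of_mem ⟨M, hM⟩ (mem_principal_self _))

lemma comm_of_conj {G : Type} [Group G] {x y γ γ' : G} (h : γ * x * γ⁻¹ = y)
    (h' : γ' * x * γ'⁻¹ = y) : (γ⁻¹ * γ') * x = x * (γ⁻¹ * γ') := by
  have h1 : γ * x * γ⁻¹ = γ' * x * γ'⁻¹ := h.trans h'.symm
  have h2 : γ' * x = γ * x * γ⁻¹ * γ' := by rw [h1]; group
  calc γ⁻¹ * γ' * x = γ⁻¹ * (γ' * x) := by group
    _ = γ⁻¹ * (γ * x * γ⁻¹ * γ') := by rw [h2]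
    _ = x * (γ⁻¹ * γ') := by group

lemma comm_mul {G : Type} [Group G] {x a b : G} (ha : a * x = x * a) (hb : b * x = x * b) :
    a * b * x = x * (a * b) := by
  rw [mul_assoc, hb, ← mul_assoc, ha, mul_assoc]

lemma comm_inv {G : Type} [Group G] {x a : G} (ha : a * x = x * a) : a⁻¹ * x = x * a⁻¹ := by
  calc a⁻¹ * x = a⁻¹ * (x * a) * a⁻¹ := by group
    _ = a⁻¹ * (a * x) * a⁻¹ := by rw [ha]
    _ = x * a⁻¹ := by group

theorem DD_iff {G : Type} [Group G] (x : G) : DD x ↔ DDa x := by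
  constructor
  · intro hDD y
    by_cases h1 : ∃ M : Subgroup G, FI M ∧ ∀ g, g * x * g⁻¹ * y⁻¹ ∉ M
    · exact Or.inl h1
    · right
      push Not at h1
      -- existence of a conjugator
      obtain ⟨U₀, hU₀⟩ := exists_uf (fun M => {g : G | g * x * g⁻¹ * y⁻¹ ∈ M})
        (fun M N hMN g hg => hMN hg) (fun M hM => h1 M hM)
      obtain ⟨γ₀, hγ₀, -⟩ := hDD U₀ y (fun M hM => hU₀ M hM)
      refine ⟨γ₀, hγ₀, ?_⟩
      by_contra hcon
      push Not at hcon
      obtain ⟨M₀, hM₀, hbad⟩ := hcon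
      obtain ⟨U, hU⟩ := exists_uf (fun M => {g : G | g * x * g⁻¹ * y⁻¹ ∈ M ∧
          ∀ a, a * x = x * a → (γ₀ * a)⁻¹ * g ∉ M₀})
        (fun M N hMN g hg => ⟨hMN hg.1, hg.2⟩) (fun M hM => hbad M hM)
      obtain ⟨γ, hγ, hcv⟩ := hDD U y (fun M hM => (Filter.Eventually.mono (hU M hM) fun g hg => hg.1))
      have h2 : ∀ᶠ g in (U : Filter G), ∀ a, a * x = x * a → (γ₀ * a)⁻¹ * g ∉ M₀ :=
        Filter.Eventually.mono (hU ⊤ FI_top) fun g hg => hg.2
      obtain ⟨g, hg1, a, ha, hg2⟩ := (h2.and (hcv M₀ hM₀)).exists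
      refine hg1 (γ₀⁻¹ * γ * a) (comm_mul (comm_of_conj hγ₀ hγ) ha) ?_
      have h3 : γ₀ * (γ₀⁻¹ * γ * a) = γ * a := by group
      rw [h3]
      exact hg2
  · intro h U y hU
    rcases h y with ⟨M, hM, hno⟩ | ⟨γ, hγ, hun⟩
    · obtain ⟨g, hg⟩ := (hU M hM).exists
      exact absurd hg (hno g)
    · refine ⟨γ, hγ, fun M hM => ?_⟩
      obtain ⟨M', hM', h1⟩ := hun M hM
      exact (hU M' hM').mono fun g hg => h1 g hg

theorem DD_sub {G : Type} [Group G] (K : Subgroup G) (x : K) (hK : K.FiniteIndex)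
    (h : DD (x : G)) : DD x := by
  intro U y hU
  have hV : Cj ((U.map (fun k : K => (k : G)) : Ultrafilter G) : Filter G) (x : G) (y : G) := by
    intro M hM
    have h1 := hU (M.subgroupOf K) (FI_subgroupOf hM K)
    rw [Ultrafilter.coe_map, Filter.eventually_map]
    refine h1.mono fun k hk => ?_
    simpa [Subgroup.mem_subgroupOf] using hk
  obtain ⟨γ, hγ, hcv⟩ := h _ _ hV
  have hcv' : ∀ M : Subgroup G, FI M → ∀ᶠ k : K in (U : Filter K), ∃ a : G,
      a * (x : G) = (x : G) * a ∧ (γ * a)⁻¹ * (k : G) ∈ M := by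
    intro M hM
    have h1 := hcv M hM
    rw [Ultrafilter.coe_map, Filter.eventually_map] at h1
    exact h1
  -- a conjugator in K
  obtain ⟨k₀, a₀, ha₀, hk₀⟩ := (hcv' K.normalCore (FI_core hK)).exists
  have h2 : (γ * a₀)⁻¹ * (k₀ : G) ∈ K := Subgroup.normalCore_le _ hk₀
  have h3 : γ * a₀ ∈ K := by
    have h4 : γ * a₀ = (k₀ : G) * ((γ * a₀)⁻¹ * (k₀ : G))⁻¹ := by group
    rw [h4]
    exact K.mul_mem k₀.2 (K.inv_mem h2)
  have h5 : (γ * a₀) * (x : G) * (γ * a₀)⁻¹ = (y : G) := by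
    calc (γ * a₀) * (x : G) * (γ * a₀)⁻¹ = γ * (a₀ * (x : G)) * a₀⁻¹ * γ⁻¹ := by group
      _ = γ * ((x : G) * a₀) * a₀⁻¹ * γ⁻¹ := by rw [ha₀]
      _ = γ * (x : G) * γ⁻¹ := by group
      _ = y := hγ
  refine ⟨⟨γ * a₀, h3⟩, Subtype.ext h5, fun M hM => ?_⟩
  obtain ⟨N, hN, hNM⟩ := exists_FI_le hK hM
  refine (hcv' N hN).mono fun k hk => ?_
  obtain ⟨a, ha, hka⟩ := hk
  obtain ⟨h6, h7⟩ := hNM _ hka
  have h8 : γ * a ∈ K := by
    have h9 : γ * a = (k : G) * ((γ * a)⁻¹ * (k : G))⁻¹ := by group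
    rw [h9]
    exact K.mul_mem k.2 (K.inv_mem h6)
  have h10 : a₀⁻¹ * a ∈ K := by
    have h11 : a₀⁻¹ * a = (γ * a₀)⁻¹ * (γ * a) := by group
    rw [h11]
    exact K.mul_mem (K.inv_mem h3) h8
  refine ⟨⟨a₀⁻¹ * a, h10⟩, Subtype.ext ?_, ?_⟩
  · exact comm_mul (comm_inv ha₀) ha
  · convert h7 using 1
    apply Subtype.ext
    push_cast
    group

theorem DD_sup {G : Type} [Group G] (K : Subgroup G) (x : K) (hK : K.FiniteIndex)
    (h : DD x) : DD (x : G) := by
  intro U y hU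
  have := hK
  -- pigeonhole on the cosets
  obtain ⟨c, hc⟩ := Ultrafilter.eq_pure_of_finite (U.map (fun g : G => (g : G ⧸ K)))
  obtain ⟨b, rfl⟩ := QuotientGroup.mk_surjective c
  have h1 : ∀ᶠ g in (U : Filter G), b⁻¹ * g ∈ K := by
    have h2 : ({(b : G ⧸ K)} : Set (G ⧸ K)) ∈ U.map (fun g : G => (g : G ⧸ K)) := by
      rw [hc]
      exact Set.mem_singleton _
    have h3 : ∀ᶠ g : G in (U : Filter G), (g : G ⧸ K) = (b : G ⧸ K) := h2
    refine h3.mono fun g hg => ?_
    exact QuotientGroup.eq.1 hg.symm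
  set V : Ultrafilter G := U.map (fun g => b⁻¹ * g) with hV
  have hKV : Set.range (fun k : K => (k : G)) ∈ V := by
    rw [hV, Ultrafilter.mem_map]
    refine Filter.mem_of_superset h1 fun g hg => ?_
    exact ⟨⟨b⁻¹ * g, hg⟩, rfl⟩
  set U' : Ultrafilter K := V.comap Subtype.val_injective hKV with hU'
  have hback : ∀ P : G → Prop, (∀ᶠ g in (U : Filter G), P (b⁻¹ * g)) →
      ∀ᶠ k : K in (U' : Filter K), P (k : G) := by
    intro P hP
    have h2 : ∀ᶠ v in (V : Filter G), P v := by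
      rw [hV, Ultrafilter.coe_map, Filter.eventually_map]
      exact hP
    rw [hU', Ultrafilter.coe_comap]
    exact h2.comap _
  have hforth : ∀ P : K → Prop, (∀ᶠ k in (U' : Filter K), P k) →
      ∀ᶠ g in (U : Filter G), ∃ hg : b⁻¹ * g ∈ K, P ⟨b⁻¹ * g, hg⟩ := by
    intro P hP
    have h2 : (fun k : K => (k : G)) '' {k | P k} ∈ V := by
      rw [← Ultrafilter.mem_comap V Subtype.val_injective hKV]
      exact hP
    rw [hV, Ultrafilter.mem_map] at h2
    refine Filter.mem_of_superset h2 fun g hg => ?_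
    obtain ⟨k, hk, hkg⟩ := hg
    have h3 : b⁻¹ * g ∈ K := by
      have h4 : (k : G) = b⁻¹ * g := hkg
      rw [← h4]
      exact k.2
    refine ⟨h3, ?_⟩
    have h5 : (⟨b⁻¹ * g, h3⟩ : K) = k := Subtype.ext hkg.symm
    rw [h5]
    exact hk
  -- conjugation by b
  have hconj : ∀ M : Subgroup G, FI M → ∀ᶠ k : K in (U' : Filter K),
      (k : G) * (x : G) * (k : G)⁻¹ * (b⁻¹ * y * b)⁻¹ ∈ M := by
    intro M hM
    refine hback (fun k => k * (x : G) * k⁻¹ * (b⁻¹ * y * b)⁻¹ ∈ M) ?_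
    refine (hU M hM).mono fun g hg => ?_
    have h2 := hM.1.conj_mem _ hg b⁻¹
    convert h2 using 1
    group
  have hy : b⁻¹ * y * b ∈ K := by
    obtain ⟨k, hk⟩ := (hconj K.normalCore (FI_core hK)).exists
    have h2 : (k : G) * (x : G) * (k : G)⁻¹ * (b⁻¹ * y * b)⁻¹ ∈ K := Subgroup.normalCore_le _ hk
    have h3 : b⁻¹ * y * b = ((k : G) * (x : G) * (k : G)⁻¹ * (b⁻¹ * y * b)⁻¹)⁻¹ *
        ((k : G) * (x : G) * (k : G)⁻¹) := by group
    rw [h3]
    exact K.mul_mem (K.inv_mem h2) (K.mul_mem (K.mul_mem k.2 x.2) (K.inv_mem k.2))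
  obtain ⟨κ, hκ, hcv⟩ := h U' ⟨b⁻¹ * y * b, hy⟩ (by
    intro M hM
    obtain ⟨N, hN, hNM⟩ := exists_FI_le hK hM
    refine (hconj N hN).mono fun k hk => ?_
    obtain ⟨h6, h7⟩ := hNM _ hk
    exact h7)
  have hκ' : (κ : G) * (x : G) * (κ : G)⁻¹ = b⁻¹ * y * b := by
    have h2 := congrArg (fun k : K => (k : G)) hκ
    simpa using h2
  refine ⟨b * κ, ?_, fun M hM => ?_⟩
  · calc b * (κ : G) * (x : G) * (b * (κ : G))⁻¹ = b * ((κ : G) * (x : G) * (κ : G)⁻¹) * b⁻¹ := by
          group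
      _ = b * (b⁻¹ * y * b) * b⁻¹ := by rw [hκ']
      _ = y := by group
  · have h2 := hforth _ (hcv (M.subgroupOf K) (FI_subgroupOf hM K))
    refine h2.mono fun g hg => ?_
    obtain ⟨hgK, a, ha, hga⟩ := hg
    refine ⟨a, ?_, ?_⟩
    · have h3 := congrArg (fun k : K => (k : G)) ha
      simpa using h3
    · rw [Subgroup.mem_subgroupOf] at hga
      convert hga using 1
      push_cast
      group

theorem specGE : SpecGE := by
  refine ⟨fun G _ x => DD_iff x, fun G _ K x hK => ⟨DD_sup K x hK, DD_sub K x hK⟩, ?_, ?_⟩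
  · intro G _ x z hz hD U y hU
    have hzc : ∀ g : G, g * z = z * g := fun g => Subgroup.mem_center_iff.1 hz g
    obtain ⟨γ, hγ, hcv⟩ := hD U (y * z⁻¹) (by
      intro M hM
      refine (hU M hM).mono fun g hg => ?_
      have h1 : g * x * g⁻¹ * (y * z⁻¹)⁻¹ = g * (x * z) * g⁻¹ * y⁻¹ := by
        calc g * x * g⁻¹ * (y * z⁻¹)⁻¹ = g * x * (g⁻¹ * z) * y⁻¹ := by group
          _ = g * x * (z * g⁻¹) * y⁻¹ := by rw [hzc g⁻¹]
          _ = g * (x * z) * g⁻¹ * y⁻¹ := by group
      rw [h1]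
      exact hg)
    refine ⟨γ, ?_, fun M hM => ?_⟩
    · calc γ * (x * z) * γ⁻¹ = γ * x * (z * γ⁻¹) := by group
        _ = γ * x * (γ⁻¹ * z) := by rw [hzc γ⁻¹]
        _ = (γ * x * γ⁻¹) * z := by group
        _ = y * z⁻¹ * z := by rw [hγ]
        _ = y := by group
    · refine (hcv M hM).mono fun g hg => ?_
      obtain ⟨a, ha, hga⟩ := hg
      refine ⟨a, ?_, hga⟩
      calc a * (x * z) = a * x * z := by group
        _ = x * a * z := by rw [ha]
        _ = x * (a * z) := by group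
        _ = x * (z * a) := by rw [hzc a]
        _ = x * z * a := by group
  · intro G _ x hD y hy
    rcases (DD_iff x).1 hD y with ⟨M, hM, hno⟩ | ⟨γ, hγ, -⟩
    · have h1 := hM.1
      have h2 := hM.2
      refine ⟨G ⧸ M, inferInstance, inferInstance, QuotientGroup.mk' M, fun hc => ?_⟩
      obtain ⟨c, hc⟩ := isConj_iff.1 hc.symm
      obtain ⟨g, rfl⟩ := QuotientGroup.mk'_surjective M c
      refine hno g ?_
      rw [← QuotientGroup.eq_one_iff]
      have h3 : ((g * x * g⁻¹ * y⁻¹ : G) : G ⧸ M) = (QuotientGroup.mk' M g * QuotientGroup.mk' M x *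
          (QuotientGroup.mk' M g)⁻¹) * (QuotientGroup.mk' M y)⁻¹ := rfl
      rw [h3, hc, mul_inv_cancel]
    · exact absurd (isConj_iff.2 ⟨γ, hγ⟩).symm hy

end Pool.Agent.Lib.MP347126.BR.GEM
end

section
/-!
# MP_347126_al: Brunnian braids, module HT (the height)
-/
set_option autoImplicit false

namespace Pool.Agent.Lib.MP347126.BR.HTM

open Pool.Agent.Lib.MP347126.BR

variable {G G' : Type} [Group G] [Group G']

lemma mono {k : ℕ} {A B : Subgroup G} (h : B ≤ A) (hA : Ht k A) : Ht k B := by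
  cases k with
  | zero => exact fun C hC v => hA C (hC.trans h) v
  | succ k => exact fun C hC v hv => hA C (hC.trans h) v hv

lemma ker_map_le (B : Subgroup G) (v : B →* Multiplicative ℤ) : v.ker.map B.subtype ≤ B := by
  intro x hx
  obtain ⟨y, _, rfl⟩ := hx
  exact y.2

lemma succ {k : ℕ} {A : Subgroup G} (hA : Ht k A) : Ht (k + 1) A := by
  cases k with
  | zero =>
    intro B hB v hv
    exact absurd (hA B hB v) hv
  | succ k =>
    intro B hB v hv
    exact mono ((ker_map_le B v).trans hB) hA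

/-- homomorphisms which are trivial on the kernel of `p` descend -/
lemma desc (p : G →* G') (B : Subgroup G) (v : B →* Multiplicative ℤ)
    (hv : ∀ b : B, p b = 1 → v b = 1) :
    ∃ v' : B.map p →* Multiplicative ℤ, (∀ b : B, v' (p.subgroupMap B b) = v b) ∧
      v'.ker.map (B.map p).subtype = (v.ker.map B.subtype).map p := by
  have hf : Function.Surjective (p.subgroupMap B) := p.subgroupMap_surjective B
  have hk : (p.subgroupMap B).ker ≤ v.ker := by
    intro b hb
    apply hv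
    have h1 := congrArg Subtype.val (MonoidHom.mem_ker.1 hb)
    simpa using h1
  have h1 : ∀ b : B, ((p.subgroupMap B).liftOfSurjective hf ⟨v, hk⟩) (p.subgroupMap B b) = v b :=
    fun b => (p.subgroupMap B).liftOfRightInverse_comp_apply _ _ ⟨v, hk⟩ b
  refine ⟨(p.subgroupMap B).liftOfSurjective hf ⟨v, hk⟩, h1, ?_⟩
  ext x
  constructor
  · rintro ⟨⟨y, hy⟩, hy1, rfl⟩
    obtain ⟨b, hb, rfl⟩ := hy
    refine ⟨b, ⟨⟨b, hb⟩, ?_, rfl⟩, rfl⟩
    have h2 : ((p.subgroupMap B).liftOfSurjective hf ⟨v, hk⟩) (p.subgroupMap B ⟨b, hb⟩) = 1 := hy1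
    rw [h1] at h2
    exact h2
  · rintro ⟨y, ⟨b, hb, rfl⟩, rfl⟩
    refine ⟨p.subgroupMap B b, ?_, rfl⟩
    change ((p.subgroupMap B).liftOfSurjective hf ⟨v, hk⟩) (p.subgroupMap B b) = 1
    rw [h1]
    exact hb

lemma ne_one_of_desc {p : G →* G'} {B : Subgroup G} {v : B →* Multiplicative ℤ}
    {v' : B.map p →* Multiplicative ℤ} (h : ∀ b : B, v' (p.subgroupMap B b) = v b) (hv : v ≠ 1) :
    v' ≠ 1 := by
  rintro rfl
  apply hv
  ext b
  rw [← h b]
  rfl

/-- transfer along maps which are injective on the subgroup -/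
lemma inj (p : G →* G') : ∀ (k : ℕ) (C : Subgroup G), (∀ c ∈ C, p c = 1 → c = 1) →
    Ht k (C.map p) → Ht k C := by
  intro k
  induction k with
  | zero =>
    intro C hC hA B hB v
    obtain ⟨v', h1, _⟩ := desc p B v (fun b hb => by
      have h2 : b = 1 := Subtype.ext (hC b (hB b.2) hb)
      rw [h2, map_one])
    by_contra hv
    exact ne_one_of_desc h1 hv (hA _ (Subgroup.map_mono hB) v')
  | succ k ih =>
    intro C hC hA B hB v hv
    obtain ⟨v', h1, h2⟩ := desc p B v (fun b hb => by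
      have h2 : b = 1 := Subtype.ext (hC b (hB b.2) hb)
      rw [h2, map_one])
    have h3 := hA _ (Subgroup.map_mono hB) v' (ne_one_of_desc h1 hv)
    rw [h2] at h3
    exact ih _ (fun c hc => hC c (hB (ker_map_le B v hc))) h3

lemma zpow_ne {a : Multiplicative ℤ} (ha : a ≠ 1) {n : ℤ} (hn : n ≠ 0) : a ^ n ≠ 1 := by
  intro h
  have h1 : n • (Multiplicative.toAdd a) = 0 := by
    have h2 := congrArg Multiplicative.toAdd h
    simpa using h2
  rcases smul_eq_zero.1 h1 with h2 | h2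
  · exact hn h2
  · exact ha (Multiplicative.toAdd.injective (by simpa using h2))

lemma part3 (p : G →* G') : ∀ (k : ℕ) (A : Subgroup G), Ht k (A.map p) →
    (∀ a ∈ A, ∀ b ∈ A, p a = 1 → p b = 1 → a ≠ 1 → b ≠ 1 →
      ∃ i k : ℤ, i ≠ 0 ∧ k ≠ 0 ∧ a ^ i = b ^ k) → Ht (k + 1) A := by
  intro k
  induction k with
  | zero =>
    intro A hA hp B hB v hv
    by_cases h : ∀ b : B, p b = 1 → v b = 1
    · obtain ⟨v', h1, _⟩ := desc p B v h
      exact absurd (hA _ (Subgroup.map_mono hB) v') (ne_one_of_desc h1 hv)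
    · push Not at h
      obtain ⟨b, hb, hb1⟩ := h
      apply inj p 0
      · rintro _ ⟨a, ha, rfl⟩ hpa
        by_contra hne
        obtain ⟨i, l, hi, hl, he⟩ := hp a (hB a.2) b (hB b.2) hpa hb hne (fun h2 => hb1 (by
          have : b = 1 := Subtype.ext h2
          rw [this, map_one]))
        have h3 : a ^ i = b ^ l := Subtype.ext (by simpa using he)
        have h4 := congrArg v h3
        rw [map_zpow, map_zpow, MonoidHom.mem_ker.1 ha, one_zpow] at h4
        exact zpow_ne hb1 hl h4.symm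
      · exact mono (Subgroup.map_mono ((ker_map_le B v).trans hB)) hA
  | succ k ih =>
    intro A hA hp B hB v hv
    by_cases h : ∀ b : B, p b = 1 → v b = 1
    · obtain ⟨v', h1, h2⟩ := desc p B v h
      have h3 := hA _ (Subgroup.map_mono hB) v' (ne_one_of_desc h1 hv)
      rw [h2] at h3
      exact ih _ h3 (fun a ha b hb => hp a (hB (ker_map_le B v ha)) b (hB (ker_map_le B v hb)))
    · push Not at h
      obtain ⟨b, hb, hb1⟩ := h
      apply inj p (k + 1)
      · rintro _ ⟨a, ha, rfl⟩ hpa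
        by_contra hne
        obtain ⟨i, l, hi, hl, he⟩ := hp a (hB a.2) b (hB b.2) hpa hb hne (fun h2 => hb1 (by
          have : b = 1 := Subtype.ext h2
          rw [this, map_one]))
        have h3 : a ^ i = b ^ l := Subtype.ext (by simpa using he)
        have h4 := congrArg v h3
        rw [map_zpow, map_zpow, MonoidHom.mem_ker.1 ha, one_zpow] at h4
        exact zpow_ne hb1 hl h4.symm
      · exact mono (Subgroup.map_mono ((ker_map_le B v).trans hB)) hA

lemma part4 : ∀ (k : ℕ) (A A₀ : Subgroup G), A₀ ≤ A →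
    (∀ a ∈ A, ∃ m : ℕ, 0 < m ∧ a ^ m ∈ A₀) → Ht k A₀ → Ht k A := by
  intro k
  induction k with
  | zero =>
    intro A A₀ _ hm hA B hB v
    have h1 := hA (B ⊓ A₀) inf_le_right (v.comp (Subgroup.inclusion inf_le_left))
    ext b
    obtain ⟨m, hm0, hm1⟩ := hm b (hB b.2)
    have h2 := DFunLike.congr_fun h1 ⟨(b : G) ^ m, B.pow_mem b.2 m, hm1⟩
    have h3 : v (b ^ m) = 1 := h2
    rw [map_pow] at h3
    by_contra h4
    have h5 := zpow_ne (a := v b) (fun h => h4 (by rw [h]; rfl)) (n := (m : ℤ)) (by omega)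
    rw [zpow_natCast] at h5
    exact h5 h3
  | succ k ih =>
    intro A A₀ _ hm hA B hB v hv
    have h0 : v.comp (Subgroup.inclusion (inf_le_left : B ⊓ A₀ ≤ B)) ≠ 1 := by
      intro h1
      apply hv
      ext b
      obtain ⟨m, hm0, hm1⟩ := hm b (hB b.2)
      have h2 := DFunLike.congr_fun h1 ⟨(b : G) ^ m, B.pow_mem b.2 m, hm1⟩
      have h3 : v (b ^ m) = 1 := h2
      rw [map_pow] at h3
      by_contra h4
      have h5 := zpow_ne (a := v b) (fun h => h4 (by rw [h]; rfl)) (n := (m : ℤ)) (by omega)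
      rw [zpow_natCast] at h5
      exact h5 h3
    have h1 := hA (B ⊓ A₀) inf_le_right _ h0
    refine ih _ _ ?_ ?_ h1
    · rintro _ ⟨⟨y, hy⟩, hy1, rfl⟩
      exact ⟨⟨y, hy.1⟩, hy1, rfl⟩
    · rintro _ ⟨a, ha, rfl⟩
      obtain ⟨m, hm0, hm1⟩ := hm a (hB a.2)
      refine ⟨m, hm0, ⟨⟨(a : G) ^ m, B.pow_mem a.2 m, hm1⟩, ?_, rfl⟩⟩
      have h2 : v (a ^ m) = 1 := by rw [map_pow, MonoidHom.mem_ker.1 ha, one_pow]
      exact h2

lemma part5 (p : G →* G') : ∀ (k : ℕ) (S : ℕ → Subgroup G),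
    Ht k ((S 0).map p) → (∀ j, S (j + 1) ≤ S j) →
    (∀ j, (∃ s ∈ S j, s ∉ S (j + 1)) → ∃ v : S j →* Multiplicative ℤ, v ≠ 1 ∧
      (∀ s : S j, (s : G) ∈ S (j + 1) → v s = 1) ∧ ∀ s : S j, p s = 1 → v s = 1) →
    ∃ J, ∀ j, J ≤ j → S j = S J := by
  intro k
  induction k with
  | zero =>
    intro S hA hS hv
    have hanti : Antitone S := antitone_nat_of_succ_le hS
    refine ⟨0, fun j _ => ?_⟩
    induction j with
    | zero => rfl
    | succ j ih =>
      rw [← ih (Nat.zero_le j)]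
      refine le_antisymm (hS j) ?_
      intro s hs
      by_contra hs1
      obtain ⟨v, hv1, _, hv3⟩ := hv j ⟨s, hs, hs1⟩
      obtain ⟨v', h1, _⟩ := desc p (S j) v hv3
      exact ne_one_of_desc h1 hv1 (hA _ (Subgroup.map_mono (hanti (Nat.zero_le j))) v')
  | succ k ih =>
    intro S hA hS hv
    have hanti : Antitone S := antitone_nat_of_succ_le hS
    by_cases hall : ∀ j, S (j + 1) = S j
    · refine ⟨0, fun j _ => ?_⟩
      induction j with
      | zero => rfl
      | succ j ih2 => rw [hall j, ih2 (Nat.zero_le j)]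
    · push Not at hall
      obtain ⟨j₀, hj₀⟩ := hall
      have h0 : ∃ s ∈ S j₀, s ∉ S (j₀ + 1) := by
        by_contra hc
        push Not at hc
        exact hj₀ (le_antisymm (hS j₀) hc)
      obtain ⟨v, hv1, hv2, hv3⟩ := hv j₀ h0
      obtain ⟨v', h1, h2⟩ := desc p (S j₀) v hv3
      have h3 := hA _ (Subgroup.map_mono (hanti (Nat.zero_le j₀))) v' (ne_one_of_desc h1 hv1)
      rw [h2] at h3
      have h4 : Ht k ((S (j₀ + 1)).map p) := by
        refine mono (Subgroup.map_mono ?_) h3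
        intro s hs
        exact ⟨⟨s, hS j₀ hs⟩, hv2 ⟨s, hS j₀ hs⟩ hs, rfl⟩
      obtain ⟨J, hJ⟩ := ih (fun j => S (j₀ + 1 + j)) h4 (fun j => hS (j₀ + 1 + j))
        (fun j => hv (j₀ + 1 + j))
      refine ⟨j₀ + 1 + J, fun j hj => ?_⟩
      have h5 := hJ (j - (j₀ + 1)) (by omega)
      have h6 : j₀ + 1 + (j - (j₀ + 1)) = j := by omega
      simp only [h6] at h5
      exact h5

theorem specHT : SpecHT :=
  ⟨fun _ _ _ _ _ h hA => mono h hA, fun _ _ _ _ hA => succ hA,
    fun _ _ _ _ p k A hA hp => part3 p k A hA hp,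
    fun _ _ k A A₀ h hm hA => part4 k A A₀ h hm hA,
    fun _ _ _ _ p k S hA hS hv => part5 p k S hA hS hv⟩

end Pool.Agent.Lib.MP347126.BR.HTM
end

section
/-!
# MP_347126_al, module IP: interpolation by binomial coefficients
-/
set_option autoImplicit false

namespace Pool.Agent.Lib.MP347126.BR.IP

/-- the function `e ↦ choose e (m + 1)` -/
noncomputable def bn (m : ℕ) : ℤ → ℤ := fun e => Ring.choose e (m + 1)

lemma choose_step (e : ℤ) (m : ℕ) :
    ((m : ℤ) + 1) * Ring.choose e (m + 1) = Ring.choose e m * (e - m) := by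
  have h := Ring.descPochhammer_eq_factorial_smul_choose e (m + 1)
  rw [descPochhammer_succ_right, Polynomial.smeval_mul, 
    Ring.descPochhammer_eq_factorial_smul_choose e m] at h
  have h1 : (Polynomial.X - (m : Polynomial ℤ)).smeval e = e - m := by
    rw [Polynomial.smeval_sub, Polynomial.smeval_X, pow_one, Polynomial.smeval_natCast]
    simp
  rw [h1, Nat.factorial_succ, nsmul_eq_mul, nsmul_eq_mul] at h
  have hf : ((m.factorial : ℕ) : ℤ) ≠ 0 := by exact_mod_cast m.factorial_ne_zero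
  apply mul_left_cancel₀ hf
  push_cast at h
  linarith [h]

/-- the span of the binomials -/
noncomputable def SP : Submodule ℤ (ℤ → ℤ) := Submodule.span ℤ (Set.range bn)

lemma id_mem : (fun e : ℤ => e) ∈ SP := by
  have : (fun e : ℤ => e) = bn 0 := by
    funext e
    simp [bn]
  rw [this]
  exact Submodule.subset_span ⟨0, rfl⟩

lemma mul_mem {g : ℤ → ℤ} (hg : g ∈ SP) : (fun e => e * g e) ∈ SP := by
  refine Submodule.span_induction (p := fun g _ => (fun e => e * g e) ∈ SP) ?_ ?_ ?_ ?_ hg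
  · rintro _ ⟨m, rfl⟩
    have h : (fun e => e * bn m e) = ((m : ℤ) + 2) • bn (m + 1) + ((m : ℤ) + 1) • bn m := by
      funext e
      have := choose_step e (m + 1)
      simp only [bn, Pi.add_apply, Pi.smul_apply, smul_eq_mul]
      push_cast at this
      linarith
    rw [h]
    exact SP.add_mem (SP.smul_mem _ (Submodule.subset_span ⟨_, rfl⟩))
      (SP.smul_mem _ (Submodule.subset_span ⟨_, rfl⟩))
  · have : (fun e => e * (0 : ℤ → ℤ) e) = 0 := by
      funext e
      simp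
    rw [this]
    exact SP.zero_mem
  · intro x y _ _ hx hy
    have : (fun e => e * (x + y) e) = (fun e => e * x e) + (fun e => e * y e) := by
      funext e
      simp [mul_add]
    rw [this]
    exact SP.add_mem hx hy
  · intro a x _ hx
    have : (fun e => e * (a • x) e) = a • (fun e => e * x e) := by
      funext e
      simp only [Pi.smul_apply, smul_eq_mul]
      ring
    rw [this]
    exact SP.smul_mem _ hx

lemma prod_mem (E : Finset ℤ) : (fun e : ℤ => e * ∏ f ∈ E, (e - f)) ∈ SP := by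
  classical
  induction E using Finset.induction_on with
  | empty => simpa using id_mem
  | insert f E hf ih =>
    have h : (fun e : ℤ => e * ∏ f ∈ insert f E, (e - f)) =
        (fun e => e * ((fun e : ℤ => e * ∏ f ∈ E, (e - f)) e)) +
          (-f) • (fun e : ℤ => e * ∏ f ∈ E, (e - f)) := by
      funext e
      rw [Finset.prod_insert hf]
      simp only [Pi.add_apply, Pi.smul_apply, smul_eq_mul]
      ring
    rw [h]
    exact SP.add_mem (mul_mem ih) (SP.smul_mem _ ih)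

theorem specIP : SpecIP := by
  classical
  intro E e₀ h0 he
  have hm := prod_mem (E.erase e₀)
  rw [SP, Finsupp.mem_span_range_iff_exists_finsupp] at hm
  obtain ⟨c, hc⟩ := hm
  refine ⟨c.mapDomain Nat.succ, e₀ * ∏ f ∈ E.erase e₀, (e₀ - f), ?_, ?_, ?_⟩
  · apply Finsupp.mapDomain_of_notMem_range
    rintro ⟨m, hm⟩
    exact Nat.succ_ne_zero m hm
  · refine mul_ne_zero (fun h => h0 (h ▸ he)) (Finset.prod_ne_zero_iff.mpr fun f hf => ?_)
    exact sub_ne_zero.mpr (Finset.ne_of_mem_erase hf).symm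
  · intro e heE
    rw [Finsupp.sum_mapDomain_index (by intro m; simp) (by intro m a b; ring)]
    have h1 := congrFun hc e
    have h2 : (c.sum fun i a => a • bn i) e = c.sum fun m a => a * Ring.choose e (Nat.succ m) := by
      rw [Finsupp.sum, Finset.sum_apply, Finsupp.sum]
      rfl
    rw [← h2, h1]
    split_ifs with h
    · rw [h]
    · exact mul_eq_zero_of_right _ (Finset.prod_eq_zero (Finset.mem_erase.mpr ⟨h, heE⟩) (sub_self e))

end Pool.Agent.Lib.MP347126.BR.IP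
end

section
/-!
# MP_347126_al: the Magnus traces separate the conjugacy classes of a free group
-/
set_option autoImplicit false

namespace Pool.Agent.Lib.MP347126.BR.MTM

open Finset

variable {Λ : Type}

/-- the run word with the letters of `l` and the exponents `m` -/
def rw' (l : List (Λ × ℤ)) (m : Fin l.length → ℕ) : List (Λ × ℕ) :=
  List.ofFn fun j => ((l.get j).1, m j)

lemma length_rw' (l : List (Λ × ℤ)) (m : Fin l.length → ℕ) : (rw' l m).length = l.length := by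
  simp [rw']

lemma fst_rw' (l : List (Λ × ℤ)) (m : Fin l.length → ℕ) :
    (rw' l m).map Prod.fst = l.map Prod.fst := by
  unfold rw'
  rw [List.map_ofFn]
  apply List.ext_getElem
  · simp
  · intro i h1 h2
    simp

lemma cyCh_congr {M M' : Type} {l : List (Λ × M)} {l' : List (Λ × M')}
    (h : l.map Prod.fst = l'.map Prod.fst) (hl : CyCh l) : CyCh l' := by
  have hlen : l.length = l'.length := by
    have := congrArg List.length h
    simpa using this
  have e1 : ∀ {N : Type} (t : List (Λ × N)), Ch t ↔ (t.map Prod.fst).IsChain (· ≠ ·) := by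
    intro N t
    unfold Ch
    rw [List.isChain_map]
  have e2 : ∀ {N : Type} (t : List (Λ × N)), (∀ a ∈ t.head?, ∀ b ∈ t.getLast?, b.1 ≠ a.1) ↔
      ∀ a ∈ (t.map Prod.fst).head?, ∀ b ∈ (t.map Prod.fst).getLast?, b ≠ a := by
    intro N t
    rw [List.head?_map, List.getLast?_map]
    simp only [Option.mem_def, Option.map_eq_some_iff]
    constructor
    · rintro h a ⟨x, hx, rfl⟩ b ⟨y, hy, rfl⟩
      exact h x hx y hy
    · intro h a ha b hb
      exact h a.1 ⟨a, ha, rfl⟩ b.1 ⟨b, hb, rfl⟩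
  refine ⟨?_, fun h2 => ?_⟩
  · rw [e1, ← h, ← e1]
    exact hl.1
  · rw [e2, ← h, ← e2]
    exact hl.2 (by omega)

lemma ev_append (l l' : List (Λ × ℤ)) : ev (l ++ l') = ev l * ev l' := by
  unfold ev
  rw [List.map_append, List.prod_append]

lemma isConj_rotate (l : List (Λ × ℤ)) (i : ℕ) : IsConj (ev l) (ev (l.rotate i)) := by
  rw [List.rotate_eq_drop_append_take_mod]
  conv_lhs => rw [← List.take_append_drop (i % l.length) l]
  rw [ev_append, ev_append]
  refine isConj_iff.2 ⟨(ev (l.take (i % l.length)))⁻¹, ?_⟩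
  group

lemma cyCh_rotate_one {M : Type} (l : List (Λ × M)) (hl : CyCh l) : CyCh (l.rotate 1) := by
  match l, hl with
  | [], _ => simpa using (show CyCh ([] : List (Λ × M)) from ⟨List.isChain_nil, by simp⟩)
  | [a], h => simpa using h
  | a :: b :: t, ⟨h1, h2⟩ =>
    have h3 : (a :: b :: t).rotate 1 = b :: t ++ [a] := by simp
    rw [h3]
    unfold Ch at h1
    rw [List.isChain_cons_cons] at h1
    refine ⟨?_, fun _ => ?_⟩
    · unfold Ch
      rw [List.isChain_append]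
      refine ⟨h1.2, List.isChain_singleton _, fun x hx y hy => ?_⟩
      simp only [List.head?_cons, Option.mem_def, Option.some.injEq] at hy
      subst hy
      refine h2 (by simp) _ (by simp) x ?_
      rw [List.getLast?_cons_cons]
      exact hx
    · intro x hx y hy
      rw [List.getLast?_append] at hy
      simp only [List.cons_append, List.head?_cons, List.getLast?_singleton, Option.some_or,
        Option.mem_def, Option.some.injEq] at hx hy
      subst hx hy
      exact h1.1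

lemma cyCh_rotate {M : Type} (l : List (Λ × M)) (hl : CyCh l) (i : ℕ) : CyCh (l.rotate i) := by
  induction i with
  | zero => simpa using hl
  | succ i ih =>
    rw [← List.rotate_rotate]
    exact cyCh_rotate_one _ ih

/-- the coefficient at a rotation -/
lemma cf_rot (hCK : SpecCK) (l : List (Λ × ℤ)) (l' : List (Λ × ℤ)) (hll : l'.length = l.length)
    (hl : CyCh l) (m : Fin l.length → ℕ) (hm : ∀ j, 1 ≤ m j) (h2 : 2 ≤ l.length)
    (i : ℕ) :
    cf (flat ((rw' l m).rotate i)) (ev l') =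
      open Classical in if l'.map Prod.fst = (l.rotate i).map Prod.fst then
        ∏ j : Fin l.length, Ring.choose (l'.get (Fin.cast hll.symm j)).2
          (m ⟨(j + i) % l.length, Nat.mod_lt _ (by omega)⟩) else 0 := by
  classical
  have hlen : ((rw' l m).rotate i).length = l.length := by
    rw [List.length_rotate, length_rw']
  have hch : Ch ((rw' l m).rotate i) :=
    (cyCh_rotate _ (cyCh_congr (fst_rw' l m).symm hl) i).1
  have hm' : ∀ x ∈ (rw' l m).rotate i, 1 ≤ x.2 := by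
    intro x hx
    rw [List.mem_rotate] at hx
    unfold rw' at hx
    rw [List.mem_ofFn] at hx
    obtain ⟨j, rfl⟩ := hx
    exact hm j
  obtain ⟨-, c2, c3⟩ := hCK Λ ((rw' l m).rotate i) l' hch hm'
  have hfst : ((rw' l m).rotate i).map Prod.fst = (l.rotate i).map Prod.fst := by
    rw [List.map_rotate, fst_rw', List.map_rotate]
  split_ifs with h
  · rw [c2 (by rw [hlen, hll]) (by rw [hfst, h])]
    have e1 : List.zipWith (fun x y => Ring.choose x.2 y.2) l' ((rw' l m).rotate i) =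
        List.ofFn fun j : Fin l.length => Ring.choose (l'.get (Fin.cast hll.symm j)).2
          (m ⟨(j + i) % l.length, Nat.mod_lt _ (by omega)⟩) := by
      apply List.ext_getElem
      · rw [List.length_zipWith, List.length_ofFn, hlen, hll, min_self]
      · intro j h3 h4
        rw [List.getElem_zipWith, List.getElem_ofFn, List.getElem_rotate]
        simp only [rw', List.length_ofFn, List.getElem_ofFn, List.get_eq_getElem, Fin.val_cast]
    rw [e1, List.prod_ofFn]
  · exact c3 (by rw [hlen, hll]) (by rw [hfst]; exact h)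

/-- the rotation of the positions -/
noncomputable def rotP (k : ℕ) (hk : 0 < k) (i : ℕ) : Equiv.Perm (Fin k) :=
  Equiv.ofBijective (fun j => ⟨(j + i) % k, Nat.mod_lt _ hk⟩) (by
    rw [← Finite.injective_iff_bijective]
    intro a b h
    have h1 : (a.val + i) % k = (b.val + i) % k := congrArg Fin.val h
    have h2 : a.val + i ≡ b.val + i [MOD k] := h1
    have h3 : a.val ≡ b.val [MOD k] := Nat.ModEq.add_right_cancel' i h2
    apply Fin.ext
    rwa [Nat.ModEq, Nat.mod_eq_of_lt a.2, Nat.mod_eq_of_lt b.2] at h3)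

lemma rotP_apply (k : ℕ) (hk : 0 < k) (i : ℕ) (j : Fin k) :
    rotP k hk i j = ⟨(j + i) % k, Nat.mod_lt _ hk⟩ := rfl

/-- the functional -/
noncomputable def LF (l : List (Λ × ℤ)) (c : Fin l.length → (ℕ →₀ ℤ))
    (F : (Fin l.length → ℕ) → ℤ) : ℤ :=
  ∑ m ∈ Fintype.piFinset fun j => (c j).support, (∏ j, c j (m j)) * F m

lemma LF_congr (l : List (Λ × ℤ)) (c : Fin l.length → (ℕ →₀ ℤ)) (hc : ∀ j, c j 0 = 0)
    (F F' : (Fin l.length → ℕ) → ℤ) (h : ∀ m, (∀ j, 1 ≤ m j) → F m = F' m) :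
    LF l c F = LF l c F' := by
  unfold LF
  refine sum_congr rfl fun m hm => ?_
  rw [h m]
  intro j
  rw [Fintype.mem_piFinset] at hm
  have h1 := hm j
  rw [Finsupp.mem_support_iff] at h1
  rcases Nat.eq_zero_or_pos (m j) with h2 | h2
  · rw [h2, hc j] at h1
    exact absurd rfl h1
  · exact h2

lemma LF_sum (l : List (Λ × ℤ)) (c : Fin l.length → (ℕ →₀ ℤ)) (n : ℕ)
    (F : ℕ → (Fin l.length → ℕ) → ℤ) :
    LF l c (fun m => ∑ i ∈ range n, F i m) = ∑ i ∈ range n, LF l c (F i) := by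
  unfold LF
  simp_rw [mul_sum]
  rw [sum_comm]

lemma LF_prod (l : List (Λ × ℤ)) (c : Fin l.length → (ℕ →₀ ℤ)) (f : Fin l.length → ℕ → ℤ) :
    LF l c (fun m => ∏ j, f j (m j)) = ∏ j, (c j).sum fun a x => x * f j a := by
  unfold LF
  simp_rw [← prod_mul_distrib, Finsupp.sum]
  rw [prod_univ_sum]

lemma LF_cf (hCK : SpecCK) (l l' : List (Λ × ℤ)) (hll : l'.length = l.length) (hl : CyCh l)
    (h2 : 2 ≤ l.length) (c : Fin l.length → (ℕ →₀ ℤ)) (C : Fin l.length → ℤ)
    (hc : ∀ j, c j 0 = 0)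
    (hC : ∀ j, ∀ x ∈ l', ((c j).sum fun a y => y * Ring.choose x.2 a) =
      if x.2 = (l.get j).2 then C j else 0) (i : ℕ) :
    LF l c (fun m => cf (flat ((rw' l m).rotate i)) (ev l')) =
      open Classical in if l' = l.rotate i then ∏ j, C j else 0 := by
  classical
  have hk : 0 < l.length := by omega
  rw [LF_congr l c hc _ (fun m => if l'.map Prod.fst = (l.rotate i).map Prod.fst then
        ∏ j : Fin l.length, Ring.choose (l'.get (Fin.cast hll.symm j)).2
          (m (rotP _ hk i j)) else 0) (fun m hm => by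
    have h3 := cf_rot hCK l l' hll hl m hm h2 i
    rw [h3]
    rfl)]
  by_cases h : l'.map Prod.fst = (l.rotate i).map Prod.fst
  · simp only [if_pos h]
    have e1 : ∀ m : Fin l.length → ℕ, (∏ j : Fin l.length,
        Ring.choose (l'.get (Fin.cast hll.symm j)).2 (m (rotP _ hk i j))) =
        ∏ j : Fin l.length,
          Ring.choose (l'.get (Fin.cast hll.symm ((rotP _ hk i).symm j))).2 (m j) := by
      intro m
      rw [← Equiv.prod_comp (rotP _ hk i) (fun j =>
        Ring.choose (l'.get (Fin.cast hll.symm ((rotP _ hk i).symm j))).2 (m j))]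
      simp only [Equiv.symm_apply_apply]
    simp_rw [e1]
    rw [LF_prod l c (fun j a => Ring.choose (l'.get (Fin.cast hll.symm ((rotP _ hk i).symm j))).2 a)]
    have e2 : ∀ j, ((c j).sum fun a x =>
        x * Ring.choose (l'.get (Fin.cast hll.symm ((rotP _ hk i).symm j))).2 a) =
        if (l'.get (Fin.cast hll.symm ((rotP _ hk i).symm j))).2 = (l.get j).2 then C j else 0 :=
      fun j => hC j _ (List.get_mem _ _)
    simp_rw [e2]
    by_cases h3 : l' = l.rotate i
    · rw [if_pos h3]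
      refine prod_congr rfl fun j _ => ?_
      rw [if_pos]
      have h4 : ∀ j, l'.get (Fin.cast hll.symm j) = l.get (rotP _ hk i j) := by
        intro j
        rw [rotP_apply]
        have h5 : l'.get (Fin.cast hll.symm j) = l'[(j : ℕ)]'(by omega) := rfl
        rw [h5]
        simp only [h3, List.getElem_rotate]
        rfl
      rw [h4, Equiv.apply_symm_apply]
    · rw [if_neg h3]
      have h5 : ∃ j, (l'.get (Fin.cast hll.symm ((rotP _ hk i).symm j))).2 ≠ (l.get j).2 := by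
        by_contra hcon
        push Not at hcon
        apply h3
        apply List.ext_getElem
        · rw [List.length_rotate, hll]
        · intro j h6 h7
          apply Prod.ext
          · have h8 := congrArg (fun t => t[j]?) h
            simp only [List.getElem?_map, List.getElem?_eq_getElem h6,
              List.getElem?_eq_getElem h7, Option.map_some, Option.some.injEq] at h8
            exact h8
          · have h8 := hcon (rotP _ hk i ⟨j, by omega⟩)
            rw [Equiv.symm_apply_apply] at h8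
            rw [List.getElem_rotate]
            exact h8
      obtain ⟨j, hj⟩ := h5
      exact prod_eq_zero (mem_univ j) (if_neg hj)
  · simp only [if_neg h]
    have h3 : l' ≠ l.rotate i := fun h4 => h (by rw [h4])
    rw [if_neg h3]
    unfold LF
    simp

/-- the main case -/
lemma main_case (hCK : SpecCK) (hRO : SpecRO) (hIP : SpecIP) (l l' : List (Λ × ℤ))
    (hll : l'.length ≤ l.length) (hl : CyCh l) (h2 : 2 ≤ l.length)
    (hn : ∀ x ∈ l, x.2 ≠ 0) (hn' : ∀ x ∈ l', x.2 ≠ 0)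
    (hT : ∀ ω, T ω (ev l) = T ω (ev l')) : IsConj (ev l) (ev l') := by
  classical
  set E : Finset ℤ := (l.map Prod.snd).toFinset ∪ (l'.map Prod.snd).toFinset with hE
  have h0 : (0 : ℤ) ∉ E := by
    rw [hE, mem_union, List.mem_toFinset, List.mem_toFinset, List.mem_map, List.mem_map]
    rintro (⟨x, hx, h3⟩ | ⟨x, hx, h3⟩)
    · exact hn x hx h3
    · exact hn' x hx h3
  have hmem : ∀ x ∈ l, x.2 ∈ E := fun x hx => by
    rw [hE, mem_union, List.mem_toFinset, List.mem_map]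
    exact Or.inl ⟨x, hx, rfl⟩
  have hmem' : ∀ x ∈ l', x.2 ∈ E := fun x hx => by
    rw [hE, mem_union, List.mem_toFinset, List.mem_toFinset, List.mem_map, List.mem_map]
    exact Or.inr ⟨x, hx, rfl⟩
  choose c C hc hC0 hC using fun j : Fin l.length =>
    hIP E (l.get j).2 h0 (hmem _ (List.get_mem _ _))
  have hprod : ∏ j, C j ≠ 0 := prod_ne_zero_iff.2 fun j _ => hC0 j
  have key : ∀ l'' : List (Λ × ℤ), l''.length ≤ l.length →
      LF l c (fun m => T (flat (rw' l m)) (ev l'')) =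
      ∑ i ∈ range l.length, LF l c (fun m => cf (flat ((rw' l m).rotate i)) (ev l'')) := by
    intro l'' h3
    rw [← LF_sum]
    refine LF_congr l c hc _ _ fun m hm => ?_
    have h4 := hRO Λ (rw' l m) l'' (cyCh_congr (fst_rw' l m).symm hl) (by
      intro x hx
      unfold rw' at hx
      rw [List.mem_ofFn] at hx
      obtain ⟨j, rfl⟩ := hx
      exact hm j) (by rw [length_rw']; exact h2) (by rw [length_rw']; exact h3)
    rw [h4, length_rw']
  have k1 := key l le_rfl
  have k2 := key l' hll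
  have k3 : LF l c (fun m => T (flat (rw' l m)) (ev l)) =
      LF l c (fun m => T (flat (rw' l m)) (ev l')) := by
    simp_rw [hT]
  rw [k1, k2] at k3
  have k4 : ∀ i, LF l c (fun m => cf (flat ((rw' l m).rotate i)) (ev l)) =
      if l = l.rotate i then ∏ j, C j else 0 := by
    intro i
    rw [LF_cf hCK l l rfl hl h2 c C hc (fun j x hx => hC j x.2 (hmem x hx)) i]
  simp_rw [k4] at k3
  have k5 : (∑ i ∈ range l.length, if l = l.rotate i then ∏ j, C j else 0) ≠ 0 := by
    rw [← sum_filter, sum_const, nsmul_eq_mul]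
    refine mul_ne_zero ?_ hprod
    rw [Nat.cast_ne_zero, ← Nat.pos_iff_ne_zero, card_pos]
    exact ⟨0, by simp; omega⟩
  rw [k3] at k5
  rcases Nat.lt_or_ge l'.length l.length with h3 | h3
  · exfalso
    apply k5
    refine sum_eq_zero fun i _ => ?_
    rw [LF_congr l c hc _ (fun _ => 0) (fun m hm => by
      refine (hCK Λ ((rw' l m).rotate i) l'
        (cyCh_rotate _ (cyCh_congr (fst_rw' l m).symm hl) i).1 (fun x hx => ?_)).1 ?_
      · rw [List.mem_rotate] at hx
        unfold rw' at hx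
        rw [List.mem_ofFn] at hx
        obtain ⟨j, rfl⟩ := hx
        exact hm j
      · rw [List.length_rotate, length_rw']
        exact h3)]
    unfold LF
    simp
  · have h4 : l'.length = l.length := le_antisymm hll h3
    obtain ⟨i, -, hi⟩ := exists_ne_zero_of_sum_ne_zero k5
    rw [LF_cf hCK l l' h4 hl h2 c C hc (fun j x hx => hC j x.2 (hmem' x hx)) i] at hi
    by_cases h5 : l' = l.rotate i
    · rw [h5]
      exact isConj_rotate l i
    · rw [if_neg h5] at hi
      exact absurd rfl hi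

lemma ev_nil : ev ([] : List (Λ × ℤ)) = 1 := rfl

lemma T_single (hCK : SpecCK) (a b : Λ) (e : ℤ) :
    T [a] (ev [(b, e)]) = open Classical in if b = a then e else 0 := by
  classical
  have h1 : T [a] (ev [(b, e)]) = cf (flat [(a, 1)]) (ev [(b, e)]) := by
    unfold T
    simp [flat]
  obtain ⟨-, c2, c3⟩ := hCK Λ [(a, 1)] [(b, e)] (List.isChain_singleton _) (by simp)
  rw [h1]
  by_cases h : b = a
  · rw [if_pos h, c2 rfl (by simp [h])]
    simp
  · rw [if_neg h, c3 rfl (by simpa using h)]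

theorem specMT (hTr : SpecTr) (hNF : SpecNF) (hCK : SpecCK) (hRO : SpecRO) (hIP : SpecIP) :
    SpecMT := by
  classical
  intro Λ z₁ z₂ hT
  obtain ⟨t1, t2, -, -, -⟩ := hTr
  have hconj : ∀ (z z' : FreeGroup Λ), IsConj z z' → ∀ ω, T ω z = T ω z' := by
    intro z z' h ω
    obtain ⟨c, rfl⟩ := isConj_iff.1 h
    rw [t1]
  obtain ⟨l₁, a1, a2, a3⟩ := hNF Λ z₁
  obtain ⟨l₂, b1, b2, b3⟩ := hNF Λ z₂
  have hT' : ∀ ω, T ω (ev l₁) = T ω (ev l₂) := fun ω => by
    rw [← hconj _ _ a3, ← hconj _ _ b3, hT]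
  suffices h : IsConj (ev l₁) (ev l₂) from a3.trans (h.trans b3.symm)
  rcases Nat.lt_or_ge l₁.length 2 with h1 | h1
  · rcases Nat.lt_or_ge l₂.length 2 with h2 | h2
    · match l₁, l₂ with
      | [], [] => exact IsConj.refl _
      | [], [(b, e)] =>
        exfalso
        have h3 := hT' [b]
        rw [ev_nil, t2, T_single hCK, if_pos rfl] at h3
        exact b2 (b, e) (by simp) h3.symm
      | [(a, e)], [] =>
        exfalso
        have h3 := hT' [a]
        rw [ev_nil, t2, T_single hCK, if_pos rfl] at h3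
        exact a2 (a, e) (by simp) h3
      | [(a, e)], [(b, f)] =>
        have h3 := hT' [a]
        rw [T_single hCK, T_single hCK, if_pos rfl] at h3
        by_cases h4 : b = a
        · rw [if_pos h4] at h3
          rw [h3, h4]
        · rw [if_neg h4] at h3
          exact absurd h3 (a2 (a, e) (by simp))
      | _ :: _ :: _, _ => exact absurd h1 (by simp)
      | _, _ :: _ :: _ => exact absurd h2 (by simp)
    · exact (main_case hCK hRO hIP l₂ l₁ (by omega) b1 h2 b2 a2 fun ω => (hT' ω).symm).symm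
  · rcases Nat.le_total l₂.length l₁.length with h2 | h2
    · exact main_case hCK hRO hIP l₁ l₂ h2 a1 h1 a2 b2 hT'
    · exact (main_case hCK hRO hIP l₂ l₁ h2 b1 (by omega) b2 a2 fun ω => (hT' ω).symm).symm

end Pool.Agent.Lib.MP347126.BR.MTM
end

section
/-!
# MP_347126_al: cyclically reduced syllable forms in free groups
-/
set_option autoImplicit false

namespace Pool.Agent.Lib.MP347126.BR.NFM

variable {Λ : Type}

lemma ev_append (l l' : List (Λ × ℤ)) : ev (l ++ l') = ev l * ev l' := by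
  unfold ev
  rw [List.map_append, List.prod_append]

lemma ev_cons (a : Λ) (k : ℤ) (l : List (Λ × ℤ)) :
    ev ((a, k) :: l) = FreeGroup.of a ^ k * ev l := by
  unfold ev
  rw [List.map_cons, List.prod_cons]

lemma ev_nil : ev ([] : List (Λ × ℤ)) = 1 := rfl

lemma exists_ev (z : FreeGroup Λ) : ∃ l : List (Λ × ℤ), ev l = z := by
  induction z using FreeGroup.induction_on with
  | C1 => exact ⟨[], rfl⟩
  | of a => exact ⟨[(a, 1)], by rw [ev_cons, ev_nil, zpow_one, mul_one]⟩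
  | inv_of a _ => exact ⟨[(a, -1)], by rw [ev_cons, ev_nil, zpow_neg_one, mul_one]⟩
  | mul x y hx hy =>
    obtain ⟨l, rfl⟩ := hx
    obtain ⟨l', rfl⟩ := hy
    exact ⟨l ++ l', ev_append l l'⟩

/-- a list which is not a chain has a bad pair of neighbours -/
lemma exists_bad {α : Type} (R : α → α → Prop) : ∀ l : List α, ¬ l.IsChain R →
    ∃ (l₁ : List α) (a b : α) (l₂ : List α), l = l₁ ++ a :: b :: l₂ ∧ ¬ R a b
  | [], h => absurd List.isChain_nil h
  | [a], h => absurd (List.isChain_singleton a) h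
  | a :: b :: t, h => by
    rw [List.isChain_cons_cons] at h
    by_cases hab : R a b
    · obtain ⟨l₁, c, d, l₂, h1, h2⟩ := exists_bad R (b :: t) (fun h3 => h ⟨hab, h3⟩)
      exact ⟨a :: l₁, c, d, l₂, by rw [h1]; rfl, h2⟩
    · exact ⟨[], a, b, t, rfl, hab⟩

/-- MODULE NF -/
theorem specNF : SpecNF := by
  intro Λ z
  classical
  have hex : ∃ k : ℕ, ∃ l : List (Λ × ℤ), l.length = k ∧ IsConj z (ev l) := by
    obtain ⟨l, hl⟩ := exists_ev z
    exact ⟨l.length, l, rfl, by rw [hl]⟩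
  obtain ⟨l, hlen, hconj⟩ := Nat.find_spec hex
  have hmin : ∀ l' : List (Λ × ℤ), IsConj z (ev l') → l.length ≤ l'.length := by
    intro l' h'
    rw [hlen]
    exact Nat.find_min' hex ⟨l', rfl, h'⟩
  refine ⟨l, ⟨?_, ?_⟩, ?_, hconj⟩
  · by_contra h
    obtain ⟨l₁, ⟨a, e⟩, ⟨b, f⟩, l₂, h1, h2⟩ := exists_bad _ l h
    simp only [ne_eq, not_not] at h2
    subst h2
    have h3 : ev l = ev (l₁ ++ (a, e + f) :: l₂) := by
      rw [h1, ev_append, ev_append, ev_cons, ev_cons, ev_cons, zpow_add]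
      group
    have h4 := hmin _ (h3 ▸ hconj)
    rw [h1] at h4
    simp only [List.length_append, List.length_cons] at h4
    omega
  · intro h2 x hx y hy hxy
    rw [Option.mem_def, List.head?_eq_some_iff] at hx
    obtain ⟨t, ht⟩ := hx
    have ht0 : t ≠ [] := by
      rintro rfl
      rw [ht] at h2
      simp at h2
    rw [Option.mem_def, ht, List.getLast?_cons_of_ne_nil ht0] at hy
    obtain ⟨s, hs⟩ := List.getLast?_eq_some_iff.mp hy
    obtain ⟨a, e⟩ := x
    obtain ⟨b, f⟩ := y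
    simp only at hxy
    subst hxy
    have h3 : IsConj (ev l) (ev (s ++ [(b, f + e)])) := by
      rw [ht, hs, ev_cons, ev_append, ev_append, ev_cons, ev_cons, ev_nil]
      refine isConj_iff.2 ⟨(FreeGroup.of b ^ e)⁻¹, ?_⟩
      rw [zpow_add]
      group
    have h4 := hmin _ (hconj.trans h3)
    rw [ht, hs] at h4
    simp only [List.length_append, List.length_cons, List.length_nil] at h4
    omega
  · rintro ⟨a, e⟩ hx h0
    simp only at h0
    subst h0
    obtain ⟨l₁, l₂, h1⟩ := List.append_of_mem hx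
    have h3 : ev l = ev (l₁ ++ l₂) := by
      rw [h1, ev_append, ev_append, ev_cons, zpow_zero, one_mul]
    have h4 := hmin _ (h3 ▸ hconj)
    rw [h1] at h4
    simp only [List.length_append, List.length_cons] at h4
    omega

end Pool.Agent.Lib.MP347126.BR.NFM
end

section
/-!
# MP_347126_al: Brunnian braids, module PIN: the pinning theorem
-/
set_option autoImplicit false

namespace Pool.Agent.Lib.MP347126.BR.PINM

/-! ### Normal subgroups of finite index -/

section fi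

variable {G G' : Type} [Group G] [Group G']

lemma FI_ker {Q : Type} [Group Q] [Finite Q] (f : G →* Q) : FI f.ker :=
  ⟨inferInstance, Subgroup.finiteIndex_ker f⟩

lemma FI_comap (f : G →* G') {M : Subgroup G'} (h : FI M) : FI (M.comap f) := by
  haveI := h.1
  haveI := h.2
  have h1 : M.comap f = ((QuotientGroup.mk' M).comp f).ker := by
    ext g
    rw [Subgroup.mem_comap, MonoidHom.mem_ker, MonoidHom.comp_apply, QuotientGroup.mk'_apply,
      QuotientGroup.eq_one_iff]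
  rw [h1]
  exact FI_ker _

lemma FI_map {f : G →* G'} (hf : Function.Surjective f) {M : Subgroup G} (h : FI M) :
    FI (M.map f) := by
  haveI := h.1
  haveI := h.2
  refine ⟨Subgroup.Normal.map h.1 f hf, ?_⟩
  rw [Subgroup.finiteIndex_iff]
  intro h0
  have h1 := Subgroup.index_map_dvd M hf
  rw [h0, zero_dvd_iff] at h1
  exact (Subgroup.finiteIndex_iff.mp h.2) h1

lemma FI_inf {M N : Subgroup G} (h : FI M) (h' : FI N) : FI (M ⊓ N) := by
  haveI := h.1
  haveI := h.2
  haveI := h'.1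
  haveI := h'.2
  exact ⟨inferInstance, inferInstance⟩

lemma FI_iInf {ι : Type} [Finite ι] {M : ι → Subgroup G} (h : ∀ i, FI (M i)) : FI (⨅ i, M i) :=
  ⟨Subgroup.normal_iInf_normal fun i => (h i).1, Subgroup.finiteIndex_iInf fun i => (h i).2⟩

lemma conj_mem_of {M : Subgroup G} (h : FI M) {m : G} (hm : m ∈ M) (g : G) : g * m * g⁻¹ ∈ M :=
  h.1.conj_mem m hm g

lemma conj_mem_of' {M : Subgroup G} (h : FI M) {m : G} (hm : m ∈ M) (g : G) :
    g⁻¹ * m * g ∈ M := by
  have := h.1.conj_mem m hm g⁻¹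
  rwa [inv_inv] at this

end fi

section

variable {r : ℕ} {G G' : Type} [Group G] [Group G'] (P : PinData r G G')

lemma p_nu (n : FreeGroup (Fin r)) : P.p (P.nu n) = 1 := (P.nu_range _).mpr ⟨n, rfl⟩

lemma exists_th (g : G) (n : FreeGroup (Fin r)) : ∃ n', P.nu n' = g * P.nu n * g⁻¹ := by
  apply (P.nu_range _).mp
  rw [map_mul, map_mul, p_nu, mul_one, map_inv, mul_inv_cancel]

/-- the action on the kernel -/
noncomputable def th (g : G) : FreeGroup (Fin r) →* FreeGroup (Fin r) :=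
  MonoidHom.mk' (fun n => (exists_th P g n).choose) (by
    intro a b
    apply P.nu_inj
    rw [(exists_th P g _).choose_spec, map_mul, map_mul, (exists_th P g a).choose_spec,
      (exists_th P g b).choose_spec]
    group)

lemma nu_th (g : G) (n : FreeGroup (Fin r)) : P.nu (th P g n) = g * P.nu n * g⁻¹ :=
  (exists_th P g n).choose_spec

lemma th_mul (g g' : G) (n : FreeGroup (Fin r)) : th P (g * g') n = th P g (th P g' n) := by
  apply P.nu_inj
  rw [nu_th, nu_th, nu_th]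
  group

lemma th_one (n : FreeGroup (Fin r)) : th P 1 n = n := by
  apply P.nu_inj
  rw [nu_th]
  group

lemma th_nu (n n' : FreeGroup (Fin r)) : th P (P.nu n) n' = n * n' * n⁻¹ := by
  apply P.nu_inj
  rw [nu_th, map_mul, map_mul, map_inv]

lemma th_of (g : G) (i : Fin r) :
    ∃ κ, th P g (FreeGroup.of i) = κ * FreeGroup.of (id i) * κ⁻¹ := by
  obtain ⟨n, hn⟩ := P.conj g i
  refine ⟨n, ?_⟩
  apply P.nu_inj
  rw [nu_th, hn]
  rfl

lemma tr_lt (h2 : SpecT2) (g : G) (z₁ z₂ : FreeGroup (Fin r)) (d : ℕ)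
    (hT : ∀ ω : List (Fin r), ω.length < d → T ω z₁ = T ω z₂) (ω : List (Fin r))
    (hω : ω.length < d) : T ω (th P g z₁) = T ω (th P g z₂) :=
  (h2 _ _ (th P g) id (th_of P g) z₁ z₂ d hT).1 ω hω

lemma tr_eq (h2 : SpecT2) (g : G) (z₁ z₂ : FreeGroup (Fin r)) (d : ℕ)
    (hT : ∀ ω : List (Fin r), ω.length < d → T ω z₁ = T ω z₂) (ω : List (Fin r))
    (hω : ω.length = d) : T ω (th P g z₁) - T ω (th P g z₂) = T ω z₁ - T ω z₂ := by
  have h := (h2 _ _ (th P g) id (th_of P g) z₁ z₂ d hT).2 ω hω (fun u _ u' _ h => h)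
  rwa [List.map_id] at h

variable (x : FreeGroup (Fin r))

/-- the difference of the traces -/
noncomputable def dd (s : G) (ω : List (Fin r)) : ℤ := T ω (th P s x) - T ω x

lemma dd_mul (h2 : SpecT2) {j : ℕ} (s t : G) (ht : ∀ ω : List (Fin r), ω.length < j → dd P x t ω = 0)
    (ω : List (Fin r)) (hω : ω.length ≤ j) : dd P x (s * t) ω = dd P x s ω + dd P x t ω := by
  have h0 : ∀ ω : List (Fin r), ω.length < j → T ω (th P t x) = T ω x := by
    intro ω hω
    have := ht ω hω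
    unfold dd at this
    linarith
  unfold dd
  rw [th_mul]
  rcases lt_or_eq_of_le hω with h | h
  · rw [tr_lt P h2 s _ _ j h0 ω h, h0 ω h]
    ring
  · have := tr_eq P h2 s _ _ j h0 ω h
    linarith

lemma dd_one (ω : List (Fin r)) : dd P x 1 ω = 0 := by
  unfold dd
  rw [th_one, sub_self]

lemma dd_inv (h2 : SpecT2) {j : ℕ} (s : G) (hs : ∀ ω : List (Fin r), ω.length < j → dd P x s ω = 0)
    (ω : List (Fin r)) (hω : ω.length ≤ j) : dd P x s⁻¹ ω = - dd P x s ω := by
  have h := dd_mul P x h2 s⁻¹ s hs ω hω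
  rw [inv_mul_cancel, dd_one] at h
  linarith

/-- the subgroups of the elements fixing the traces of low degree -/
def Sj (h2 : SpecT2) (A' : Subgroup G') (j : ℕ) : Subgroup G where
  carrier := {s | P.p s ∈ A' ∧ ∀ ω : List (Fin r), ω.length < j → dd P x s ω = 0}
  mul_mem' := by
    rintro s t ⟨hs, hs'⟩ ⟨ht, ht'⟩
    refine ⟨by rw [map_mul]; exact A'.mul_mem hs ht, fun ω hω => ?_⟩
    rw [dd_mul P x h2 s t ht' ω hω.le, hs' ω hω, ht' ω hω, add_zero]
  one_mem' := ⟨by rw [map_one]; exact A'.one_mem, fun ω _ => dd_one P x ω⟩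
  inv_mem' := by
    rintro s ⟨hs, hs'⟩
    refine ⟨by rw [map_inv]; exact A'.inv_mem hs, fun ω hω => ?_⟩
    rw [dd_inv P x h2 s hs' ω hω.le, hs' ω hω, neg_zero]

lemma mem_Sj {h2 : SpecT2} {A' : Subgroup G'} {j : ℕ} {s : G} :
    s ∈ Sj P x h2 A' j ↔ P.p s ∈ A' ∧ ∀ ω : List (Fin r), ω.length < j → dd P x s ω = 0 := Iff.rfl

lemma Sj_succ_le (h2 : SpecT2) (A' : Subgroup G') (j : ℕ) :
    Sj P x h2 A' (j + 1) ≤ Sj P x h2 A' j := fun _ hs => ⟨hs.1, fun ω hω => hs.2 ω (by omega)⟩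

lemma Sj_anti (h2 : SpecT2) (A' : Subgroup G') {i j : ℕ} (h : i ≤ j) :
    Sj P x h2 A' j ≤ Sj P x h2 A' i := fun _ hs => ⟨hs.1, fun ω hω => hs.2 ω (by omega)⟩

/-- the coordinates -/
noncomputable def vj (h2 : SpecT2) (A' : Subgroup G') (j : ℕ) (ω : List (Fin r))
    (hω : ω.length ≤ j) : Sj P x h2 A' j →* Multiplicative ℤ :=
  MonoidHom.mk' (fun s => Multiplicative.ofAdd (dd P x (s : G) ω)) (by
    intro s t
    rw [Subgroup.coe_mul, dd_mul P x h2 _ _ t.2.2 ω hω, ofAdd_add])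

lemma dd_pow (h2 : SpecT2) (A' : Subgroup G') {j : ℕ} {b : G} (hb : b ∈ Sj P x h2 A' j) (m : ℕ)
    (ω : List (Fin r)) (hω : ω.length ≤ j) : dd P x (b ^ m) ω = m * dd P x b ω := by
  have h := map_pow (vj P x h2 A' j ω hω) ⟨b, hb⟩ m
  have h' := congrArg Multiplicative.toAdd h
  rw [toAdd_pow, nsmul_eq_mul] at h'
  exact h'

/-- words of a fixed length -/
abbrev Wd (r j : ℕ) : Type := {ω : List (Fin r) // ω.length = j}

instance (r j : ℕ) : Finite (Wd r j) := (List.finite_length_eq (Fin r) j).to_subtype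

/-- the image of the coordinates -/
def Vj (h2 : SpecT2) (A' : Subgroup G') (j : ℕ) : AddSubgroup (Wd r j → ℤ) where
  carrier := {v | ∃ s ∈ Sj P x h2 A' j, ∀ w : Wd r j, v w = dd P x s w.1}
  add_mem' := by
    rintro v v' ⟨s, hs, h⟩ ⟨t, ht, h'⟩
    refine ⟨s * t, (Sj P x h2 A' j).mul_mem hs ht, fun w => ?_⟩
    rw [dd_mul P x h2 s t ht.2 _ w.2.le, Pi.add_apply, h, h']
  zero_mem' := ⟨1, (Sj P x h2 A' j).one_mem, fun w => by rw [dd_one]; rfl⟩
  neg_mem' := by
    rintro v ⟨s, hs, h⟩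
    refine ⟨s⁻¹, (Sj P x h2 A' j).inv_mem hs, fun w => ?_⟩
    rw [dd_inv P x h2 s hs.2 _ w.2.le, Pi.neg_apply, h]

lemma mem_Vj {h2 : SpecT2} {A' : Subgroup G'} {j : ℕ} {v : Wd r j → ℤ} :
    v ∈ Vj P x h2 A' j ↔ ∃ s ∈ Sj P x h2 A' j, ∀ w : Wd r j, v w = dd P x s w.1 := Iff.rfl

/-! ### The filter -/

variable {x} {U : Ultrafilter G} {y : G}

lemma p_y (hC : Cj (U : Filter G) (P.nu x) y) : P.p y = 1 := by
  apply P.rf
  intro M' hM'
  obtain ⟨g, hg⟩ := (hC _ (FI_comap P.p hM')).exists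
  rw [Subgroup.mem_comap, map_mul, map_mul, map_mul, p_nu, mul_one, map_inv, mul_inv_cancel,
    one_mul, map_inv] at hg
  exact (Subgroup.inv_mem_iff _).mp hg

/-- the finite quotient for the traces modulo `m` -/
lemma exists_M (h3 : SpecT3) (j m : ℕ) (hm : m ≠ 0) : ∃ M : Subgroup G, FI M ∧
    ∀ z₁ z₂ : FreeGroup (Fin r), P.nu (z₁ * z₂⁻¹) ∈ M → ∀ w : Wd r j,
      (m : ℤ) ∣ T w.1 z₁ - T w.1 z₂ := by
  have h : ∀ w : Wd r j, ∃ M : Subgroup G, FI M ∧
    ∀ z₁ z₂ : FreeGroup (Fin r), P.nu (z₁ * z₂⁻¹) ∈ M → (m : ℤ) ∣ T w.1 z₁ - T w.1 z₂ := by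
    intro w
    obtain ⟨Q, iQ, fQ, f, hf⟩ := h3 (Fin r) w.1 m hm
    obtain ⟨M, hM, hM'⟩ := P.dom Q f
    refine ⟨M, hM, fun z₁ z₂ h => hf z₁ z₂ ?_⟩
    have := hM' _ h
    rw [map_mul, map_inv, mul_inv_eq_one] at this
    exact this
  choose M hM hM' using h
  refine ⟨⨅ w, M w, FI_iInf hM, fun z₁ z₂ h w => hM' w z₁ z₂ ?_⟩
  exact (Subgroup.mem_iInf.mp h) w

/-- the claim for `j` -/
def Clm (h2 : SpecT2) (A' : Subgroup G') (x : FreeGroup (Fin r)) (U : Ultrafilter G) (j : ℕ)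
    (γ : G) : Prop :=
  ∀ M : Subgroup G, FI M → ∀ᶠ g in (U : Filter G), ∃ s ∈ Sj P x h2 A' j, (γ * s)⁻¹ * g ∈ M

lemma clm_zero (h2 : SpecT2) (A' : Subgroup G') (h : G')
    (hU : ∀ M' : Subgroup G', FI M' → ∀ᶠ g in (U : Filter G), ∃ a ∈ A', (h * a)⁻¹ * P.p g ∈ M') :
    ∃ γ, Clm P h2 A' x U 0 γ := by
  obtain ⟨γ, hγ⟩ := P.p_surj h
  refine ⟨γ, fun M hM => ?_⟩
  filter_upwards [hU _ (FI_map P.p_surj hM)] with g hg
  obtain ⟨a, ha, hg⟩ := hg
  obtain ⟨m, hm, hmg⟩ := Subgroup.mem_map.mp hg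
  obtain ⟨s₁, hs₁⟩ := P.p_surj a
  -- `(γ s₁ m)⁻¹ g` is in the kernel
  have h1 : P.p ((γ * s₁ * m)⁻¹ * g) = 1 := by
    rw [map_mul, map_inv, map_mul, map_mul, hγ, hs₁, hmg]
    group
  refine ⟨s₁ * ((γ * s₁ * m)⁻¹ * g), ⟨?_, fun ω hω => absurd hω (Nat.not_lt_zero _)⟩, ?_⟩
  · rw [map_mul, h1, mul_one, hs₁]
    exact ha
  · have h2 : (γ * (s₁ * ((γ * s₁ * m)⁻¹ * g)))⁻¹ * g =
        ((γ * s₁ * m)⁻¹ * g)⁻¹ * m * ((γ * s₁ * m)⁻¹ * g) := by group
    rw [h2]
    exact conj_mem_of' hM hm _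

/-- from a good `g`, the congruence for the element `s` -/
lemma conj_of {M : Subgroup G} (hM : FI M) {γ s g : G} (h1 : (γ * s)⁻¹ * g ∈ M)
    (h2 : g * P.nu x * g⁻¹ * y⁻¹ ∈ M) : s * P.nu x * s⁻¹ * (γ⁻¹ * y * γ)⁻¹ ∈ M := by
  have h3 : s * P.nu x * s⁻¹ * (γ⁻¹ * y * γ)⁻¹ =
      (γ⁻¹ * g) * ((((γ * s)⁻¹ * g)⁻¹ * (P.nu x * ((γ * s)⁻¹ * g) * (P.nu x)⁻¹))) * (γ⁻¹ * g)⁻¹ *
        (γ⁻¹ * (g * P.nu x * g⁻¹ * y⁻¹) * γ) := by group
  rw [h3]
  exact M.mul_mem (conj_mem_of hM (M.mul_mem (M.inv_mem h1) (conj_mem_of hM h1 _)) _)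
    (conj_mem_of' hM h2 _)

lemma clm_step (h2 : SpecT2) (h3 : SpecT3) (hZ : SpecZM) (A' : Subgroup G')
    (hC : Cj (U : Filter G) (P.nu x) y) (j : ℕ) (γ : G) (hc : Clm P h2 A' x U j γ) :
    ∃ γ', Clm P h2 A' x U (j + 1) γ' := by
  obtain ⟨yh, hyh⟩ : ∃ yh, P.nu yh = γ⁻¹ * y * γ := by
    apply (P.nu_range _).mp
    rw [map_mul, map_mul, p_y P hC, map_inv, mul_one, inv_mul_cancel]
  set v₀ : Wd r j → ℤ := fun w => T w.1 yh - T w.1 x with hv₀
  have key : ∀ m : ℕ, m ≠ 0 → ∀ M : Subgroup G, FI M → ∀ᶠ g in (U : Filter G),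
      ∃ s ∈ Sj P x h2 A' j, (γ * s)⁻¹ * g ∈ M ∧ ∀ w : Wd r j, (m : ℤ) ∣ dd P x s w.1 - v₀ w := by
    intro m hm M hM
    obtain ⟨M₁, hM₁, hM₁'⟩ := exists_M P h3 j m hm
    filter_upwards [hc _ (FI_inf hM hM₁), hC _ hM₁] with g hg hg'
    obtain ⟨s, hs, hg⟩ := hg
    refine ⟨s, hs, hg.1, fun w => ?_⟩
    have h4 := conj_of P hM₁ hg.2 hg'
    rw [← hyh, ← nu_th, ← map_inv, ← map_mul] at h4
    have h5 := hM₁' _ _ h4 w
    have h6 : dd P x s w.1 - v₀ w = T w.1 (th P s x) - T w.1 yh := by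
      rw [hv₀]
      unfold dd
      ring
    rw [h6]
    exact h5
  obtain ⟨hZ1, hZ2⟩ := hZ (Wd r j) (Vj P x h2 A' j)
  obtain ⟨a₀, ha₀, hv⟩ : v₀ ∈ Vj P x h2 A' j := by
    apply hZ1
    intro m hm
    obtain ⟨g, s, hs, _, hg⟩ := (key m hm.ne' ⊤ ⟨inferInstance, inferInstance⟩).exists
    exact ⟨fun w => dd P x s w.1, ⟨s, hs, fun w => rfl⟩, hg⟩
  refine ⟨γ * a₀, fun M hM => ?_⟩
  haveI := hM.1
  haveI := hM.2
  obtain ⟨m, hm, hmV⟩ := hZ2 M.index (Nat.pos_of_ne_zero Subgroup.FiniteIndex.index_ne_zero)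
  filter_upwards [key m hm.ne' M hM] with g hg
  obtain ⟨s, hs, hg, hdiv⟩ := hg
  have hin : a₀⁻¹ * s ∈ Sj P x h2 A' j :=
    (Sj P x h2 A' j).mul_mem ((Sj P x h2 A' j).inv_mem ha₀) hs
  have hval : ∀ w : Wd r j, dd P x (a₀⁻¹ * s) w.1 = dd P x s w.1 - v₀ w := by
    intro w
    rw [dd_mul P x h2 _ s hs.2 _ w.2.le, dd_inv P x h2 _ ha₀.2 _ w.2.le, hv w]
    ring
  obtain ⟨v', ⟨b, hb, hbv⟩, hv'⟩ := hmV (fun w => dd P x (a₀⁻¹ * s) w.1)
    ⟨a₀⁻¹ * s, hin, fun w => rfl⟩ (fun w => by rw [hval w]; exact hdiv w)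
  have hbm : b ^ M.index ∈ Sj P x h2 A' j := (Sj P x h2 A' j).pow_mem hb _
  have hs'in : (b ^ M.index)⁻¹ * (a₀⁻¹ * s) ∈ Sj P x h2 A' j :=
    (Sj P x h2 A' j).mul_mem ((Sj P x h2 A' j).inv_mem hbm) hin
  refine ⟨(b ^ M.index)⁻¹ * (a₀⁻¹ * s), ⟨hs'in.1, fun ω hω => ?_⟩, ?_⟩
  · rcases Nat.lt_succ_iff_lt_or_eq.mp hω with h | h
    · exact hs'in.2 ω h
    · have h7 := congrFun hv' ⟨ω, h⟩
      rw [Pi.smul_apply, smul_eq_mul, hbv ⟨ω, h⟩] at h7
      simp only at h7
      rw [dd_mul P x h2 _ _ hin.2 _ h.le, dd_inv P x h2 _ hbm.2 _ h.le,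
        dd_pow P x h2 A' hb _ _ h.le, h7]
      ring
  · have h8 : (γ * a₀ * ((b ^ M.index)⁻¹ * (a₀⁻¹ * s)))⁻¹ * g =
        (s⁻¹ * a₀) * b ^ M.index * (s⁻¹ * a₀)⁻¹ * ((γ * s)⁻¹ * g) := by group
    rw [h8]
    exact M.mul_mem (conj_mem_of hM (Subgroup.pow_index_mem M b) _) hg

end

/-- MODULE PIN -/
theorem specPin (hTr : SpecTr) (h2 : SpecT2) (h3 : SpecT3) (hMT : SpecMT) (hFR : SpecFR)
    (hGE : SpecGE) (hHT : SpecHT) (hZ : SpecZM) : SpecPin := by
  intro r G G' _ _ P x U y hC A' k hk h hU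
  have hclm : ∀ j, ∃ γ, Clm P h2 A' x U j γ := by
    intro j
    induction j with
    | zero => exact clm_zero P h2 A' h hU
    | succ j ih =>
      obtain ⟨γ, hγ⟩ := ih
      exact clm_step P h2 h3 hZ A' hC j γ hγ
  obtain ⟨J, hJ⟩ := hHT.2.2.2.2 G G' P.p k (Sj P x h2 A')
    (hHT.1 G' k A' _ (by rintro _ ⟨s, hs, rfl⟩; exact hs.1) hk) (Sj_succ_le P x h2 A') (by
    rintro j ⟨s, hs, hs'⟩
    have hex : ∃ ω : List (Fin r), ω.length = j ∧ dd P x s ω ≠ 0 := by
      by_contra hcon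
      push Not at hcon
      exact hs' ⟨hs.1, fun ω hω => (Nat.lt_succ_iff_lt_or_eq.mp hω).elim (hs.2 ω) (hcon ω)⟩
    obtain ⟨ω, hω, h0⟩ := hex
    refine ⟨vj P x h2 A' j ω hω.le, ?_, ?_, ?_⟩
    · intro h1
      apply h0
      have h2' := DFunLike.congr_fun h1 ⟨s, hs⟩
      exact Multiplicative.ofAdd.injective h2'
    · intro s hs
      change Multiplicative.ofAdd (dd P x (s : G) ω) = 1
      rw [hs.2 ω (by omega)]
      rfl
    · intro s hs
      change Multiplicative.ofAdd (dd P x (s : G) ω) = 1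
      obtain ⟨n, hn⟩ := (P.nu_range _).mp hs
      have h1 : dd P x (s : G) ω = 0 := by
        unfold dd
        rw [← hn, th_nu, hTr.1, sub_self]
      rw [h1]
      rfl)
  obtain ⟨γ, hγ⟩ := hclm J
  -- elements of `S_J` fix all traces
  have hall : ∀ s ∈ Sj P x h2 A' J, ∃ n c : G, (∃ n', P.nu n' = n) ∧ c * P.nu x = P.nu x * c ∧
      s = n * c := by
    intro s hs
    have h1 : ∀ ω, T ω x = T ω (th P s x) := by
      intro ω
      have h2' : s ∈ Sj P x h2 A' (max J (ω.length + 1)) := by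
        rw [hJ _ (le_max_left _ _)]
        exact hs
      have h3' := h2'.2 ω (by
        have := le_max_right J (ω.length + 1)
        omega)
      unfold dd at h3'
      linarith
    obtain ⟨n, hn⟩ := isConj_iff.mp (hMT _ _ _ h1)
    refine ⟨P.nu n, (P.nu n)⁻¹ * s, ⟨n, rfl⟩, ?_, by group⟩
    have h4 := nu_th P s x
    rw [← hn, map_mul, map_mul, map_inv] at h4
    -- `nu n nu x (nu n)⁻¹ = s nu x s⁻¹`
    have h5 : P.nu n * P.nu x * (P.nu n)⁻¹ * s = s * P.nu x := by
      rw [h4]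
      group
    calc (P.nu n)⁻¹ * s * P.nu x = (P.nu n)⁻¹ * (s * P.nu x) := by group
      _ = (P.nu n)⁻¹ * (P.nu n * P.nu x * (P.nu n)⁻¹ * s) := by rw [h5]
      _ = P.nu x * ((P.nu n)⁻¹ * s) := by group
  obtain ⟨yh, hyh⟩ : ∃ yh, P.nu yh = γ⁻¹ * y * γ := by
    apply (P.nu_range _).mp
    rw [map_mul, map_mul, p_y P hC, map_inv, mul_one, inv_mul_cancel]
  -- the good elements
  have hgood : ∀ M : Subgroup G, FI M → ∀ᶠ g in (U : Filter G), ∃ (n : FreeGroup (Fin r)) (c : G),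
      c * P.nu x = P.nu x * c ∧ (γ * (P.nu n * c))⁻¹ * g ∈ M ∧
      P.nu (n * x * n⁻¹ * yh⁻¹) ∈ M := by
    intro M hM
    filter_upwards [hγ M hM, hC M hM] with g hg hg'
    obtain ⟨s, hs, hg⟩ := hg
    obtain ⟨_, c, ⟨n, rfl⟩, hc, rfl⟩ := hall s hs
    refine ⟨n, c, hc, hg, ?_⟩
    have h4 := conj_of P hM hg hg'
    have h5 : P.nu (n * x * n⁻¹ * yh⁻¹) =
        P.nu n * c * P.nu x * (P.nu n * c)⁻¹ * (γ⁻¹ * y * γ)⁻¹ := by
      rw [map_mul, map_mul, map_mul, map_inv, map_inv, hyh, mul_assoc (P.nu n) c, hc]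
      group
    rw [h5]
    exact h4
  have hDD : DDa x := (hGE.1 _ x).mp (hFR r x)
  rcases hDD yh with ⟨MF, hMF, hno⟩ | ⟨n₀, hn₀, hcv⟩
  · exfalso
    haveI := hMF.1
    haveI := hMF.2
    obtain ⟨M, hM, hM'⟩ := P.dom (FreeGroup (Fin r) ⧸ MF) (QuotientGroup.mk' MF)
    obtain ⟨g, n, c, _, _, hn⟩ := (hgood M hM).exists
    have h1 := hM' _ hn
    rw [QuotientGroup.mk'_apply, QuotientGroup.eq_one_iff] at h1
    exact hno n h1
  · refine ⟨γ * P.nu n₀, ?_, ?_⟩
    · have h1 : P.nu n₀ * P.nu x * (P.nu n₀)⁻¹ = γ⁻¹ * y * γ := by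
        rw [← hyh, ← hn₀, map_mul, map_mul, map_inv]
      calc γ * P.nu n₀ * P.nu x * (γ * P.nu n₀)⁻¹
          = γ * (P.nu n₀ * P.nu x * (P.nu n₀)⁻¹) * γ⁻¹ := by group
        _ = y := by rw [h1]; group
    · intro M hM
      obtain ⟨MF', hMF', hcv'⟩ := hcv (M.comap P.nu) (FI_comap P.nu hM)
      haveI := hMF'.1
      haveI := hMF'.2
      obtain ⟨M₂, hM₂, hM₂'⟩ := P.dom (FreeGroup (Fin r) ⧸ MF') (QuotientGroup.mk' MF')
      filter_upwards [hgood _ (FI_inf hM hM₂)] with g hg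
      obtain ⟨n, c, hc, hg, hn⟩ := hg
      have h1 := hM₂' _ hn.2
      rw [QuotientGroup.mk'_apply, QuotientGroup.eq_one_iff] at h1
      obtain ⟨a, ha, han⟩ := hcv' n h1
      rw [Subgroup.mem_comap] at han
      refine ⟨P.nu a * c, ?_, ?_⟩
      · rw [mul_assoc, hc, ← mul_assoc, ← map_mul, ha, map_mul, mul_assoc]
      · have h2' : (γ * P.nu n₀ * (P.nu a * c))⁻¹ * g =
            (c⁻¹ * P.nu ((n₀ * a)⁻¹ * n) * c) * ((γ * (P.nu n * c))⁻¹ * g) := by
          rw [map_mul, map_inv, map_mul]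
          group
        rw [h2']
        exact M.mul_mem (conj_mem_of' hM han c) hg.1

end Pool.Agent.Lib.MP347126.BR.PINM
end
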