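import Pool.Agent.Lib.MP_347126_al.BR.Defs

/-!
# MP_347126_al: Brunnian braids. Interfaces, part 1 (groups)

One file `BR/<MODULE>.lean` per module, namespace `Pool.Agent.Lib.MP347126.BR.<MODULE>`, with the
theorem `spec<Module> (h1 : SpecA) ... : Spec<Module>`. Text: team store `MP_347126_al_BR_h4.md`.
-/

set_option autoImplicit false

namespace Pool.Agent.Lib.MP347126.BR

open Finset

/-! ## Magnus traces -/

/-- MODULE TR (~150 lines). (T1), letters and functoriality.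
Proof of (T1): `T ω (z * z') = T ω (z' * z)`. For series put `Ts ω f = ∑ i < |ω|, f.co (ω.rotate i)`;
`(f * g).co ω = ∑ i ≤ |ω|, f.co (ω.take i) * g.co (ω.drop i)`, and `Ts ω (f * g) = Ts ω (g * f)`
by re-indexing the pairs (rotation, cut) (reduce to: the double sum over the rotation `j < n` and
the cut `i ≤ n`; the cuts `0` and `n` correspond to each other; `(j, i) ↦ (j + i mod n, n - i)`).
The letters: the letters of the word `z.toWord`; `cf ω (FreeGroup.map b z) ≠ 0` implies that the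
letters of `ω` are in `b '' E`, by induction along `z`. -/
def SpecTr : Prop :=
  (∀ (Λ : Type) (ω : List Λ) (g z : FreeGroup Λ), T ω (g * z * g⁻¹) = T ω z) ∧
  (∀ (Λ : Type) (ω : List Λ), T ω (1 : FreeGroup Λ) = 0) ∧
  (∀ (Λ : Type) (ω : List Λ) (k : ℕ) (z : FreeGroup Λ), T (ω.rotate k) z = T ω z) ∧
  (∀ (Λ : Type) (z : FreeGroup Λ), ∃ E : Finset Λ, ∀ (Λ' : Type) (b : Λ → Λ') (ω' : List Λ'),
    T ω' (FreeGroup.map b z) ≠ 0 → ∀ u' ∈ ω', ∃ u ∈ E, b u = u') ∧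
  (∀ (Λ : Type) (z₁ z₂ : FreeGroup Λ) (d : ℕ), (Tset z₁ z₂ d).Finite)

/-- MODULE T2 (~250 lines). Transport of the lowest traces. Proof: section 1 (T2) of the text.
For every `z` and `n` there is `P : MonoidAlgebra ℤ (FreeMonoid Λ)` (finite support) such that for
all `Λ'`, `Y : Λ → PS Λ'` with `(Y u).co [] = 0` and every `ρ : FreeGroup Λ →* (PS Λ')ˣ` with
`ρ (of u) = 1 + Y u`: `(ρ z).co ω' = (∑ over η in the support of P η • product of Y over η).co ω'` for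
`|ω'| ≤ n`. Apply it to `Y = X` and to `Y u = mu (κ u) * X (b u) * mu (κ u)⁻¹`. -/
def SpecT2 : Prop :=
  ∀ (Λ Λ' : Type) (φ : FreeGroup Λ →* FreeGroup Λ') (b : Λ → Λ'),
    (∀ u, ∃ κ, φ (FreeGroup.of u) = κ * FreeGroup.of (b u) * κ⁻¹) →
    ∀ (z₁ z₂ : FreeGroup Λ) (d : ℕ), (∀ ω : List Λ, ω.length < d → T ω z₁ = T ω z₂) →
    (∀ ω' : List Λ', ω'.length < d → T ω' (φ z₁) = T ω' (φ z₂)) ∧
    ∀ ω : List Λ, ω.length = d →
      (∀ u ∈ ω, ∀ u' ∈ Tset z₁ z₂ d, b u = b u' → u = u') →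
      T (ω.map b) (φ z₁) - T (ω.map b) (φ z₂) = T ω z₁ - T ω z₂

/-- MODULE T3 (~100 lines). Finiteness: the congruence `cf τ z₁ ≡ cf τ z₂ mod m` for all `τ` in the
finite set of all infixes of all rotations of `ω` is a two-sided congruence on the free group with
finitely many classes. -/
def SpecT3 : Prop :=
  ∀ (Λ : Type) (ω : List Λ) (m : ℕ), m ≠ 0 → ∃ (Q : Type) (_ : Group Q) (_ : Finite Q)
    (f : FreeGroup Λ →* Q), ∀ z₁ z₂, f z₁ = f z₂ → (m : ℤ) ∣ T ω z₁ - T ω z₂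

/-- MODULE NF (~80 lines): cyclically reduced syllable forms (take `l` of minimal length with `ev l`
conjugate to `z`). -/
def SpecNF : Prop :=
  ∀ (Λ : Type) (z : FreeGroup Λ), ∃ l : List (Λ × ℤ), CyCh l ∧ (∀ x ∈ l, x.2 ≠ 0) ∧ IsConj z (ev l)

/-- MODULE CK (~120 lines): Magnus coefficients of products of syllables at words of runs.
`(1 + X a)^e` has the coefficient `Ring.choose e m` at `a^m` and `0` at the other words; induction
on `l`. -/
def SpecCK : Prop :=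
  ∀ (Λ : Type) (r : List (Λ × ℕ)) (l : List (Λ × ℤ)), Ch r → (∀ x ∈ r, 1 ≤ x.2) →
    (l.length < r.length → cf (flat r) (ev l) = 0) ∧
    (l.length = r.length → l.map Prod.fst = r.map Prod.fst →
      cf (flat r) (ev l) = (List.zipWith (fun x y => Ring.choose x.2 y.2) l r).prod) ∧
    (l.length = r.length → l.map Prod.fst ≠ r.map Prod.fst → cf (flat r) (ev l) = 0)

/-- MODULE RO (~120 lines): rotations of words of runs: a rotation inside a run has one more run. -/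
def SpecRO : Prop :=
  ∀ (Λ : Type) (r : List (Λ × ℕ)) (l : List (Λ × ℤ)), CyCh r → (∀ x ∈ r, 1 ≤ x.2) →
    2 ≤ r.length → l.length ≤ r.length →
    T (flat r) (ev l) = ∑ i ∈ range r.length, cf (flat (r.rotate i)) (ev l)

/-- MODULE IP (~60 lines): interpolation by binomial coefficients (`e * choose e m =
(m + 1) * choose e (m + 1) + m * choose e m`). -/
def SpecIP : Prop :=
  ∀ (E : Finset ℤ) (e₀ : ℤ), 0 ∉ E → e₀ ∈ E → ∃ (c : ℕ →₀ ℤ) (C : ℤ), c 0 = 0 ∧ C ≠ 0 ∧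
    ∀ e ∈ E, (c.sum fun m a => a * Ring.choose e m) = if e = e₀ then C else 0

/-- MODULE MT (~150 lines): the traces separate the conjugacy classes. From NF, CK, RO, IP, TR. -/
def SpecMT : Prop :=
  ∀ (Λ : Type) (z₁ z₂ : FreeGroup Λ), (∀ ω, T ω z₁ = T ω z₂) → IsConj z₁ z₂

/-! ## Free groups -/

/-- MODULE CY (~80 lines): centralisers in free groups are cyclic: the centraliser is free
(Nielsen-Schreier, `subgroupIsFreeOfIsFree`) with nontrivial centre (`free_cent` in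
`MP_347126_al/Cent.lean`). -/
def SpecCY : Prop :=
  ∀ (Λ : Type) (x : FreeGroup Λ), x ≠ 1 →
    (∃ r : FreeGroup Λ, ∀ a, a * x = x * a → ∃ n : ℤ, a = r ^ n) ∧
    (∀ a, a ≠ 1 → a * x = x * a → ∃ i k : ℤ, i ≠ 0 ∧ k ≠ 0 ∧ a ^ i = x ^ k)

/-- MODULE FR (~200 lines): conjugacy separability and `DD` for free groups, from TR, T3, MT:
(1.1) of the text. `K = C(x) M` is free by Nielsen-Schreier. -/
def SpecFR : Prop := ∀ (k : ℕ) (x : FreeGroup (Fin k)), DD x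

/-! ## Generalities -/

/-- MODULE GE (~250 lines): (0.2), (0.3), (0.4), (0.5). -/
def SpecGE : Prop :=
  (∀ (G : Type) [Group G] (x : G), DD x ↔ DDa x) ∧
  (∀ (G : Type) [Group G] (K : Subgroup G) (x : K), K.FiniteIndex → (DD x ↔ DD (x : G))) ∧
  (∀ (G : Type) [Group G] (x z : G), z ∈ Subgroup.center G → DD x → DD (x * z)) ∧
  (∀ (G : Type) [Group G] (x : G), DD x → ∀ y, ¬ IsConj y x →
    ∃ (Q : Type) (_ : Group Q) (_ : Finite Q) (φ : G →* Q), ¬ IsConj (φ y) (φ x))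

/-- MODULE HT (~150 lines): (0.6), (0.7) and the use of the height. -/
def SpecHT : Prop :=
  (∀ (G : Type) [Group G] (k : ℕ) (A B : Subgroup G), B ≤ A → Ht k A → Ht k B) ∧
  (∀ (G : Type) [Group G] (k : ℕ) (A : Subgroup G), Ht k A → Ht (k + 1) A) ∧
  (∀ (G G' : Type) [Group G] [Group G'] (p : G →* G') (k : ℕ) (A : Subgroup G),
    Ht k (A.map p) → (∀ a ∈ A, ∀ b ∈ A, p a = 1 → p b = 1 → a ≠ 1 → b ≠ 1 →
      ∃ i k : ℤ, i ≠ 0 ∧ k ≠ 0 ∧ a ^ i = b ^ k) → Ht (k + 1) A) ∧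
  (∀ (G : Type) [Group G] (k : ℕ) (A A₀ : Subgroup G), A₀ ≤ A →
    (∀ a ∈ A, ∃ m : ℕ, 0 < m ∧ a ^ m ∈ A₀) → Ht k A₀ → Ht k A) ∧
  (∀ (G G' : Type) [Group G] [Group G'] (p : G →* G') (k : ℕ) (S : ℕ → Subgroup G),
    Ht k ((S 0).map p) → (∀ j, S (j + 1) ≤ S j) →
    (∀ j, (∃ s ∈ S j, s ∉ S (j + 1)) → ∃ v : S j →* Multiplicative ℤ, v ≠ 1 ∧
      (∀ s : S j, (s : G) ∈ S (j + 1) → v s = 1) ∧ ∀ s : S j, p s = 1 → v s = 1) →
    ∃ J, ∀ j, J ≤ j → S j = S J)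

/-- MODULE ZM (~80 lines): subgroups of `ℤ^W` (Smith normal form). -/
def SpecZM : Prop :=
  ∀ (W : Type) [Finite W] (V : AddSubgroup (W → ℤ)),
    (∀ v₀ : W → ℤ, (∀ m : ℕ, 0 < m → ∃ v ∈ V, ∀ w, (m : ℤ) ∣ v w - v₀ w) → v₀ ∈ V) ∧
    (∀ m₁ : ℕ, 0 < m₁ → ∃ m : ℕ, 0 < m ∧ ∀ v ∈ V, (∀ w, (m : ℤ) ∣ v w) →
      ∃ v' ∈ V, v = (m₁ : ℤ) • v')

/-- MODULE PIN (~300 lines): the pinning theorem, section 2 of the text. From TR, T2, T3, MT, FR,
GE, HT, ZM. -/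
def SpecPin : Prop :=
  ∀ (r : ℕ) (G G' : Type) [Group G] [Group G'] (P : PinData r G G') (x : FreeGroup (Fin r))
    (U : Ultrafilter G) (y : G), Cj (U : Filter G) (P.nu x) y →
    ∀ (A' : Subgroup G') (k : ℕ), Ht k A' → ∀ h : G',
    (∀ M' : Subgroup G', FI M' → ∀ᶠ g in (U : Filter G), ∃ a ∈ A', (h * a)⁻¹ * P.p g ∈ M') →
    ∃ γ : G, γ * P.nu x * γ⁻¹ = y ∧ Cv (U : Filter G) (P.nu x) γ

/-! ## The induction step -/

/-- MODULE B0 (~120 lines): the kernel of `kappa` is free on the conjugates of the last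
generator. (Injective: `FreeGroup (Fin (e + 1)) → FreeGroup Φ ⋊ Φ`, `Φ = FreeGroup (Fin e)`, last
generator to `[1]`, others to themselves.) And killing generators. -/
def SpecB0 : Prop :=
  (∀ e, Function.Injective (be e)) ∧
  (∀ e n, kappa e n = 1 ↔ ∃ z, be e z = n) ∧
  (∀ e u, kappa e (io e u) = u) ∧
  (∀ (e : ℕ) (i : Fin e) (z : FreeGroup (FreeGroup (Fin e))),
    kill i.castSucc (be e z) = be e (FreeGroup.map (kill i) z)) ∧
  (∀ e n, kill (Fin.last e) n = 1 ↔ kappa e n = 1)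

/-- MODULE ACT (~100 lines): the action on the letters, (ACT) of the text. From B0. -/
def SpecAct : Prop :=
  ∀ (e : ℕ) (G G' : Type) [Group G] [Group G'] (S : StepData e G G'),
    (∀ g, S.p g = 1 → S.q g = 1 → ∃ z, S.nu (be e z) = g) ∧
    ∀ g : G, ∃ (b : FreeGroup (Fin e) → FreeGroup (Fin e))
      (φ : FreeGroup (FreeGroup (Fin e)) →* FreeGroup (FreeGroup (Fin e))),
      Function.Bijective b ∧ (∀ u, S.j (b u) = S.q g * S.j u * (S.p g)⁻¹) ∧
      (∀ z, S.nu (be e (φ z)) = g * S.nu (be e z) * g⁻¹) ∧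
      ∀ u, ∃ κ, φ (FreeGroup.of u) = κ * FreeGroup.of (b u) * κ⁻¹

/-- MODULE FQ (~100 lines): finite quotients of the free group on the letters modulo `L` are
dominated. The homomorphism `FreeGroup (Fin (e + 1)) → FreeGroup Λ ⋊ Λ`, `Λ = Φ ⧸ L`, then
`(Λ → Q) ⋊ Λ`, and `PinData.dom`. From B0. -/
def SpecFQ : Prop :=
  ∀ (e : ℕ) (G G' : Type) [Group G] [Group G'] (P : PinData (e + 1) G G')
    (L : Subgroup (FreeGroup (Fin e))) [L.Normal] [L.FiniteIndex] (Q : Type) [Group Q] [Finite Q]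
    (f : FreeGroup (FreeGroup (Fin e) ⧸ L) →* Q), ∃ M : Subgroup G, FI M ∧
    ∀ z, P.nu (be e z) ∈ M → f (FreeGroup.map (QuotientGroup.mk (s := L)) z) = 1

/-- MODULE CT (~300 lines): controlled letters, (CTRL) of the text (with the second element
`z₂ = [t₀]^n`, `n = 0` in the main case: `T ω (π (φ z₂)) = T ω (π [t₀']^n)` for almost all `g`).
From TR, T2, T3, ACT, FQ. -/
def SpecCT : Prop :=
  ∀ (e : ℕ) (G G' : Type) [Group G] [Group G'] (S : StepData e G G')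
    (z : FreeGroup (FreeGroup (Fin e))) (t₀ t₀' : FreeGroup (Fin e)) (n : ℤ) (d : ℕ)
    (U : Ultrafilter G) (y : G), Cj (U : Filter G) (S.nu (be e z)) y →
    Low z (FreeGroup.of t₀ ^ n) d →
    (n = 0 ∨ ∀ M' : Subgroup G', FI M' → ∀ᶠ g in (U : Filter G),
      S.q g * S.j t₀ * (S.p g)⁻¹ * (S.j t₀')⁻¹ ∈ M') →
    ∀ t ∈ Tset z (FreeGroup.of t₀ ^ n) d, ∃ t' : FreeGroup (Fin e),
      ∀ M' : Subgroup G', FI M' → ∀ᶠ g in (U : Filter G),
        S.q g * S.j t * (S.p g)⁻¹ * (S.j t')⁻¹ ∈ M'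

/-- MODULE WL (~120 lines): the Brunnian element of the group of the letters, (W) of the text. From
T2, B0, CY, TR. -/
def SpecWL : Prop :=
  ∀ (e : ℕ) (z : FreeGroup (FreeGroup (Fin e))) (d : ℕ), 2 ≤ e → Low z 1 d →
    Br (e + 1) (be e z) → ∃ w ∈ WG z d, Br e w

/-- MODULE TS (~80 lines): the centraliser permutes the letters. From T2, TR, ACT. -/
def SpecTS : Prop :=
  ∀ (e : ℕ) (G G' : Type) [Group G] [Group G'] (S : StepData e G G')
    (z : FreeGroup (FreeGroup (Fin e))) (t₀ : FreeGroup (Fin e)) (n : ℤ) (d : ℕ),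
    Low z (FreeGroup.of t₀ ^ n) d → ∀ a : G, a * S.nu (be e z) = S.nu (be e z) * a →
    (n = 0 ∨ S.j t₀ = S.q a * S.j t₀ * (S.p a)⁻¹) →
    ∀ t ∈ Tset z (FreeGroup.of t₀ ^ n) d, ∃ t' ∈ Tset z (FreeGroup.of t₀ ^ n) d,
      S.j t' = S.q a * S.j t * (S.p a)⁻¹

/-- MODULE ST (~200 lines): (STEP) of the text, for any finite set of controlled letters permuted by
the centraliser. From CY, HT, PIN. (The main case: `𝒯 = Tset z 1 d`.) -/
def SpecST : Prop :=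
  ∀ (e : ℕ) (G G' : Type) [Group G] [Group G'] (S : StepData e G G')
    (n : FreeGroup (Fin (e + 1))) (𝒯 : Set (FreeGroup (Fin e))) (w : FreeGroup (Fin e)) (k : ℕ),
    n ≠ 1 → 𝒯.Finite → (∀ t ∈ 𝒯, Ctl S (S.nu n) t) →
    (∀ a : G, a * S.nu n = S.nu n * a → ∀ t ∈ 𝒯, ∃ t' ∈ 𝒯, S.j t' = S.q a * S.j t * (S.p a)⁻¹) →
    w ∈ Subgroup.closure {w | ∃ t ∈ 𝒯, ∃ t' ∈ 𝒯, w = t⁻¹ * t'} →
    DD (S.j w) → Ht k (Subgroup.centralizer {S.j w}) →
    DD (S.nu n) ∧ Ht (k + 1) (Subgroup.centralizer {S.nu n})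

end Pool.Agent.Lib.MP347126.BR
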