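import Pool.Agent.Lib.MP_347126_al.Main
import Pool.Agent.Lib.MP_347126_al.BR.Spec

/-!
# MP_347126_al: Brunnian braids. Interfaces, part 2 (braids)
-/

set_option autoImplicit false

namespace Pool.Agent.Lib.MP347126.BR

open MPd28408

/-- the pure braid group -/
abbrev PB (n : ℕ) : Type := (pm n).ker

/-- the free group of the last strand -/
def nuB (d : ℕ) : FreeGroup (Fin d) →* PB (d + 1) :=
  (push d).codRestrict (pm (d + 1)).ker fun w => pm_push w

/-- the pure braids in which only the last strand moves -/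
def NN (n : ℕ) : Subgroup (Braid n) :=
  Subgroup.closure {g | ∃ b ∈ Subgroup.closure {c : Braid n | ∃ i : Fin (n - 1), i.val + 2 < n ∧
    c = sigma i}, ∃ i : Fin (n - 1), i.val + 2 = n ∧ g = b * sigma i ^ 2 * b⁻¹}

/-- the braids of the strands different from the first one -/
def HH (n : ℕ) : Subgroup (Braid n) :=
  Subgroup.closure {c : Braid n | ∃ i : Fin (n - 1), 0 < i.val ∧ c = sigma i}

/-- MODULE IN (~250 lines): the step data of the pure braid groups. `p g` = the right component of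
`comp g (Fin.last _)`; `q g = p (σ g σ⁻¹)`, `σ = sg (e + 2) e`; `cab` from `Psi_mem_ZZ` (elements
`κ ∈ KK e`, take `Psi (e + 1) κ`); `conj` from `artin_pm` and `conj_inl`; `dom` from `Theta`;
`q_nu`: `σ_e A (e+1) i σ_e⁻¹ = iota (A e i)` for `i < e`. -/
def SpecIN : Prop :=
  ∀ e : ℕ, ∃ S : StepData e (PB (e + 2)) (PB (e + 1)), S.nu = nuB (e + 1) ∧ S.j = nuB e

/-- MODULE DE (~200 lines): deletion of strands. `comp g i` for pure `g` and `i`: the right component
is the braid without the strand `i`; for `h⁻¹ = C (e + 1) i` (`comp_C`) the hypothesis gives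
`(comp x i).right = 1`, and on the generators `A (e + 1) m` the right component of `comp · i` is
`A e m` (`m < i`), `1` (`m = i`), `A e (m - 1)` (`m > i`). -/
def SpecDE : Prop :=
  ∀ (e : ℕ) (x : Braid (e + 2)), (∀ h ∈ HH (e + 2), h⁻¹ * x * h ∈ NN (e + 2)) →
    ∃ z : FreeGroup (Fin (e + 1)), push (e + 1) z = x ∧ ∀ i : Fin (e + 1), i.val ≠ 0 → kill i z = 1

/-- MODULE ID (~150 lines): the induction, section 4 of the text. From TR, MT, B0, CY, FR, HT, PIN,
CT, TS, WL, ST, IN. (The base `e = 1`: PIN with `A' = ⊤ ≤ PB 2`.) -/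
def SpecID : Prop :=
  ∀ (e : ℕ) (x : FreeGroup (Fin (e + 1))), 1 ≤ e → Br (e + 1) x →
    DD (nuB (e + 1) x) ∧ ∃ k, Ht k (Subgroup.centralizer {nuB (e + 1) x})

/-- MODULE FI (~100 lines): the theorem. From ID, GE, DE. -/
def SpecFin : Prop :=
  ∀ (n : ℕ) (x z : Braid n), 3 ≤ n → (∀ h ∈ HH n, h⁻¹ * x * h ∈ NN n) →
    z ∈ Subgroup.center (Braid n) →
    ∀ (K : Subgroup (Braid n)) (g y : K), K.FiniteIndex → (g : Braid n) = x * z → ¬ IsConj y g →
      ∃ (Q : Type) (_ : Group Q) (_ : Finite Q) (φ : K →* Q), ¬ IsConj (φ y) (φ g)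

end Pool.Agent.Lib.MP347126.BR
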