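import Pool.Agent.Lib.MP_347126_al.BR.Spec

/-!
# MP_347126_al, BR, module T3: finiteness of the Magnus traces modulo `m`
-/

set_option autoImplicit false

namespace Pool.Agent.Lib.MP347126.BR.T3M

open Finset Pool.Agent.Lib.MP347126.BR

variable {Λ : Type}

lemma dvd_mul_left (m : ℤ) (f g : PS Λ) (τ : List Λ)
    (h : ∀ k ≤ τ.length, m ∣ f.co (τ.take k)) : m ∣ (f * g).co τ := by
  induction τ generalizing f with
  | nil =>
    rw [PS.mul_nil]
    exact Dvd.dvd.mul_right (h 0 le_rfl) _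
  | cons a τ ih =>
    rw [PS.mul_cons]
    refine dvd_add (Dvd.dvd.mul_right (h 0 (Nat.zero_le _)) _) (ih _ fun k hk => ?_)
    rw [PS.dv_apply]
    exact h (k + 1) (by rw [List.length_cons]; omega)

lemma dvd_mul_right (m : ℤ) (f g : PS Λ) (τ : List Λ)
    (h : ∀ k ≤ τ.length, m ∣ g.co (τ.drop k)) : m ∣ (f * g).co τ := by
  induction τ generalizing f with
  | nil =>
    rw [PS.mul_nil]
    exact Dvd.dvd.mul_left (h 0 le_rfl) _
  | cons a τ ih =>
    rw [PS.mul_cons]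
    refine dvd_add (Dvd.dvd.mul_left (h 0 (Nat.zero_le _)) _) (ih _ fun k hk => ?_)
    exact h (k + 1) (by rw [List.length_cons]; omega)

/-- the coefficients at the infixes of the rotations of `ω` are divisible by `m` -/
def C (ω : List Λ) (m : ℕ) (f : PS Λ) : Prop :=
  ∀ i < ω.length, ∀ k ≤ ω.length, ∀ l ≤ ω.length,
    (m : ℤ) ∣ f.co (((ω.rotate i).drop k).take l)

variable {ω : List Λ} {m : ℕ}

lemma C.mul_right {f : PS Λ} (h : C ω m f) (g : PS Λ) : C ω m (f * g) := by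
  intro i hi k hk l hl
  refine dvd_mul_left _ _ _ _ fun j _ => ?_
  rw [List.take_take]
  exact h i hi k hk _ ((min_le_right _ _).trans hl)

lemma C.mul_left {g : PS Λ} (h : C ω m g) (f : PS Λ) : C ω m (f * g) := by
  intro i hi k hk l hl
  refine dvd_mul_right _ _ _ _ fun j hj => ?_
  rw [List.length_take, List.length_drop, List.length_rotate] at hj
  rw [List.drop_take, List.drop_drop]
  exact h i hi _ (by omega) _ (by omega)

lemma C.add {f g : PS Λ} (hf : C ω m f) (hg : C ω m g) : C ω m (f + g) := by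
  intro i hi k hk l hl
  rw [PS.add_apply]
  exact dvd_add (hf i hi k hk l hl) (hg i hi k hk l hl)

lemma C.neg {f : PS Λ} (hf : C ω m f) : C ω m (-f) := by
  intro i hi k hk l hl
  rw [PS.neg_apply]
  exact (hf i hi k hk l hl).neg_right

/-- the kernel -/
def N (ω : List Λ) (m : ℕ) : Subgroup (FreeGroup Λ) where
  carrier := {z | C ω m ((mu z : PS Λ) - 1)}
  one_mem' := by
    intro i hi k hk l hl
    rw [map_one, Units.val_one, sub_self, PS.zero_apply]
    exact dvd_zero _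
  mul_mem' := by
    intro z w hz hw
    have h1 : ((mu (z * w) : (PS Λ)ˣ) : PS Λ) - 1 =
        ((mu z : PS Λ) - 1) * (mu w : PS Λ) + ((mu w : PS Λ) - 1) := by
      rw [map_mul, Units.val_mul, sub_mul, one_mul]
      abel
    change C ω m _
    rw [h1]
    exact (C.mul_right hz _).add hw
  inv_mem' := by
    intro z hz
    have h1 : ((mu z⁻¹ : (PS Λ)ˣ) : PS Λ) - 1 =
        -(((mu z : PS Λ) - 1) * ((mu z⁻¹ : (PS Λ)ˣ) : PS Λ)) := by
      rw [map_inv, sub_mul, one_mul, Units.mul_inv]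
      abel
    change C ω m _
    rw [h1]
    exact (C.mul_right hz _).neg

lemma mem_N {z : FreeGroup Λ} : z ∈ N ω m ↔ C ω m ((mu z : PS Λ) - 1) := Iff.rfl

instance : (N ω m).Normal := by
  refine ⟨fun z hz g => ?_⟩
  rw [mem_N] at hz ⊢
  have h1 : ((mu (g * z * g⁻¹) : (PS Λ)ˣ) : PS Λ) - 1 =
      (mu g : PS Λ) * ((mu z : PS Λ) - 1) * ((mu g⁻¹ : (PS Λ)ˣ) : PS Λ) := by
    rw [map_mul, map_mul, map_inv, Units.val_mul, Units.val_mul, mul_sub, mul_one, sub_mul,
      Units.mul_inv]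
  rw [h1]
  exact (hz.mul_left _).mul_right _

/-- the values -/
noncomputable def val (ω : List Λ) (m : ℕ) (z : FreeGroup Λ) :
    Fin ω.length × Fin (ω.length + 1) × Fin (ω.length + 1) → ZMod m :=
  fun x => ((cf (((ω.rotate x.1).drop x.2.1).take x.2.2) z : ℤ) : ZMod m)

lemma C_sub_of_val {z₁ z₂ : FreeGroup Λ} (h : val ω m z₁ = val ω m z₂) :
    C ω m ((mu z₂ : PS Λ) - (mu z₁ : PS Λ)) := by
  intro i hi k hk l hl
  have h1 := congrFun h (⟨i, hi⟩, ⟨k, by omega⟩, ⟨l, by omega⟩)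
  simp only [val] at h1
  rw [PS.sub_apply]
  exact (ZMod.intCast_eq_intCast_iff_dvd_sub _ _ _).1 h1

lemma mem_of_val {z₁ z₂ : FreeGroup Λ} (h : val ω m z₁ = val ω m z₂) : z₁⁻¹ * z₂ ∈ N ω m := by
  have h1 : ((mu (z₁⁻¹ * z₂) : (PS Λ)ˣ) : PS Λ) - 1 =
      ((mu z₁⁻¹ : (PS Λ)ˣ) : PS Λ) * ((mu z₂ : PS Λ) - (mu z₁ : PS Λ)) := by
    rw [map_mul, map_inv, Units.val_mul, mul_sub, Units.inv_mul]
  rw [mem_N, h1]
  exact (C_sub_of_val h).mul_left _

/-- **T3**: the traces modulo `m` factor through a finite quotient. -/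
theorem specT3 : SpecT3 := by
  intro Λ ω m hm
  have : NeZero m := ⟨hm⟩
  have hfin : Finite (FreeGroup Λ ⧸ N ω m) := by
    refine Finite.of_injective (fun q : FreeGroup Λ ⧸ N ω m => val ω m q.out) fun a b h => ?_
    have h1 := mem_of_val (ω := ω) (m := m) h
    rw [← QuotientGroup.eq] at h1
    rwa [QuotientGroup.out_eq', QuotientGroup.out_eq'] at h1
  refine ⟨FreeGroup Λ ⧸ N ω m, inferInstance, hfin, QuotientGroup.mk' (N ω m), fun z₁ z₂ h => ?_⟩
  have h1 : z₁⁻¹ * z₂ ∈ N ω m := QuotientGroup.eq.1 h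
  rw [mem_N] at h1
  have h2 : (mu z₁ : PS Λ) - (mu z₂ : PS Λ) =
      -((mu z₁ : PS Λ) * (((mu (z₁⁻¹ * z₂) : (PS Λ)ˣ) : PS Λ) - 1)) := by
    rw [map_mul, map_inv, Units.val_mul, mul_sub, mul_one, Units.mul_inv_cancel_left]
    abel
  have h3 : C ω m ((mu z₁ : PS Λ) - (mu z₂ : PS Λ)) := by
    rw [h2]
    exact (h1.mul_left _).neg
  unfold T
  rw [← Finset.sum_sub_distrib]
  refine Finset.dvd_sum fun i hi => ?_
  have h4 := h3 i (Finset.mem_range.1 hi) 0 (Nat.zero_le _) ω.length le_rfl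
  rw [List.drop_zero, List.take_of_length_le (by rw [List.length_rotate]), PS.sub_apply] at h4
  exact h4

end Pool.Agent.Lib.MP347126.BR.T3M
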