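import Pool.Agent.Lib.MP_347126_al.BR.Spec

section
/-!
# MP_347126_al, BR: module RO. Rotations of words of runs
-/
set_option autoImplicit false

namespace Pool.Agent.Lib.MP347126.BR.ROM

open Finset

variable {Λ : Type}

lemma flat_cons (b : Λ) (m : ℕ) (r : List (Λ × ℕ)) :
    flat ((b, m) :: r) = List.replicate m b ++ flat r := rfl

lemma flat_append (r s : List (Λ × ℕ)) : flat (r ++ s) = flat r ++ flat s := by
  simp [flat]

lemma cych_comm {M : Type} {u v : List (Λ × M)} (h : CyCh (u ++ v)) : CyCh (v ++ u) := by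
  rcases List.eq_nil_or_concat u with hu | ⟨u', a, hu⟩
  · subst hu
    simpa using h
  rcases List.eq_nil_or_concat v with hv | ⟨v', b, hv⟩
  · subst hv
    simpa using h
  have hu0 : u ≠ [] := by rw [hu]; simp
  have hv0 : v ≠ [] := by rw [hv]; simp
  have hul : 1 ≤ u.length := List.length_pos_iff.mpr hu0
  have hvl : 1 ≤ v.length := List.length_pos_iff.mpr hv0
  obtain ⟨h1, h2⟩ := h
  have h2' := h2 (by rw [List.length_append]; omega)
  obtain ⟨c1, c2, c3⟩ := List.isChain_append.mp h1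
  rw [List.head?_append_of_ne_nil _ hu0, List.getLast?_append_of_ne_nil _ hv0] at h2'
  refine ⟨List.isChain_append.mpr ⟨c2, c1, fun x hx y hy => h2' y hy x hx⟩, fun _ => ?_⟩
  rw [List.head?_append_of_ne_nil _ hv0, List.getLast?_append_of_ne_nil _ hu0]
  exact fun x hx y hy => c3 y hy x hx

lemma sumlem (r : List (Λ × ℕ)) : ∀ (F H : ℕ → ℤ),
    (∀ r1 a m r2, r = r1 ++ (a, m) :: r2 →
      ∑ j ∈ range m, F ((flat r1).length + j) = H r1.length) →
    ∑ i ∈ range (flat r).length, F i = ∑ k ∈ range r.length, H k := by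
  induction r with
  | nil =>
    intro F H _
    simp [flat]
  | cons x r ih =>
    obtain ⟨a, m⟩ := x
    intro F H h
    have h0 := h [] a m r rfl
    have h1 := ih (fun i => F (m + i)) (fun k => H (k + 1)) (fun r1 b m' r2 hr => by
      have := h ((a, m) :: r1) b m' r2 (by rw [hr]; rfl)
      rw [flat_cons, List.length_append, List.length_replicate, List.length_cons] at this
      rw [← this]
      refine Finset.sum_congr rfl fun j _ => ?_
      rw [add_assoc])
    rw [flat_cons, List.length_append, List.length_replicate, List.length_cons,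
      Finset.sum_range_succ', Finset.sum_range_add, h1, add_comm]
    congr 1
    simpa [flat] using h0

lemma rot {r1 r2 : List (Λ × ℕ)} {a : Λ} {m j : ℕ} (hj : j ≤ m) :
    (flat (r1 ++ (a, m) :: r2)).rotate ((flat r1).length + j) =
      flat ((a, m - j) :: (r2 ++ r1) ++ [(a, j)]) := by
  rw [← List.rotate_rotate, flat_append, List.rotate_append_length_eq, flat_cons]
  have h1 : List.replicate m a = List.replicate j a ++ List.replicate (m - j) a := by
    rw [List.replicate_append_replicate]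
    congr 1
    omega
  rw [h1]
  have h2 : List.replicate j a ++ List.replicate (m - j) a ++ flat r2 ++ flat r1 =
      List.replicate j a ++ (List.replicate (m - j) a ++ flat r2 ++ flat r1) := by
    rw [List.append_assoc, List.append_assoc, List.append_assoc]
  rw [h2]
  have h3 := List.rotate_append_length_eq (List.replicate j a)
    (List.replicate (m - j) a ++ flat r2 ++ flat r1)
  rw [List.length_replicate] at h3
  rw [h3, flat_append, flat_cons, flat_append]
  simp [flat, List.append_assoc]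

theorem specRO (hC : SpecCK) : SpecRO := by
  intro Λ r l hcy h1 h2 hl
  rw [T]
  refine sumlem r _ (fun i => cf (flat (r.rotate i)) (ev l)) fun r1 a m r2 hr => ?_
  have hm : 1 ≤ m := h1 (a, m) (by rw [hr]; simp)
  obtain ⟨m', rfl⟩ : ∃ m', m = m' + 1 := ⟨m - 1, by omega⟩
  rw [hr]
  have hcy' : CyCh ((a, m' + 1) :: (r2 ++ r1)) := by
    rw [hr] at hcy
    exact cych_comm hcy
  have hlen : r.length = (r2 ++ r1).length + 1 := by
    rw [hr]
    simp only [List.length_append, List.length_cons]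
    omega
  rw [Finset.sum_range_succ', Finset.sum_eq_zero, zero_add]
  · rw [rot (Nat.zero_le _), List.rotate_append_length_eq]
    simp [flat]
  · intro j hj
    rw [Finset.mem_range] at hj
    rw [rot (by omega)]
    refine (hC Λ _ l ?_ ?_).1 ?_
    · obtain ⟨c1, c2⟩ := hcy'
      have c2' := c2 (by rw [List.length_cons]; omega)
      have hne : r2 ++ r1 ≠ [] := by
        intro h0
        rw [h0] at hlen
        simp at hlen
        omega
      refine List.isChain_append.mpr ⟨?_, List.isChain_singleton _, ?_⟩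
      · rcases h : r2 ++ r1 with _ | ⟨x', r'⟩
        · exact absurd h hne
        · rw [h] at c1
          have h4 := List.isChain_cons_cons.mp c1
          exact List.isChain_cons_cons.mpr ⟨h4.1, h4.2⟩
      · intro x hx y hy
        rw [List.head?_cons, Option.mem_def, Option.some.injEq] at hy
        subst hy
        rw [← List.singleton_append, List.getLast?_append_of_ne_nil _ hne] at hx
        rw [← List.singleton_append, List.getLast?_append_of_ne_nil _ hne] at c2'
        exact c2' (a, m' + 1) (by simp) x hx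
    · intro x hx
      rw [List.mem_append, List.mem_cons] at hx
      rcases hx with (rfl | hx) | hx
      · show 1 ≤ m' + 1 - (j + 1)
        omega
      · refine h1 x ?_
        rw [hr]
        simp only [List.mem_append, List.mem_cons] at hx ⊢
        tauto
      · rw [List.mem_singleton] at hx
        subst hx
        show 1 ≤ j + 1
        omega
    · rw [List.length_append, List.length_cons]
      simp only [List.length_cons, List.length_nil]
      omega

end Pool.Agent.Lib.MP347126.BR.ROM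
end

section
/-!
# MP_347126_al: Brunnian braids, module ST (the induction step)
-/
set_option autoImplicit false

namespace Pool.Agent.Lib.MP347126.BR.STM

open Pool.Agent.Lib.MP347126.BR

section quot

variable {H : Type} [Group H]

lemma mem_iff {M : Subgroup H} (hM : M.Normal) {a b : H} :
    a * b⁻¹ ∈ M ↔ (a : H ⧸ M) = (b : H ⧸ M) := by
  rw [QuotientGroup.eq_iff_div_mem, div_eq_mul_inv]

end quot

variable {e : ℕ} {G G' : Type} [Group G] [Group G']

/-- the images of the differences of the controlled letters are honest -/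
lemma honest (S : StepData e G G') (x : G) (𝒯 : Set (FreeGroup (Fin e)))
    (hc : ∀ t ∈ 𝒯, Ctl S x t) (U : Ultrafilter G) (y : G) (hU : Cj (U : Filter G) x y)
    (w : FreeGroup (Fin e)) (hw : w ∈ Subgroup.closure {w | ∃ t ∈ 𝒯, ∃ t' ∈ 𝒯, w = t⁻¹ * t'}) :
    ∃ w' : FreeGroup (Fin e), ∀ M' : Subgroup G', FI M' → ∀ᶠ g in (U : Filter G),
      S.p g * S.j w * (S.p g)⁻¹ * (S.j w')⁻¹ ∈ M' := by
  induction hw using Subgroup.closure_induction with
  | mem v hv =>
    obtain ⟨t, ht, t', ht', rfl⟩ := hv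
    obtain ⟨s, hs⟩ := hc t ht U y hU
    obtain ⟨s', hs'⟩ := hc t' ht' U y hU
    refine ⟨s⁻¹ * s', fun M' hM' => ?_⟩
    filter_upwards [hs M' hM', hs' M' hM'] with g h1 h2
    have hN := hM'.1
    rw [mem_iff hN] at h1 h2 ⊢
    rw [map_mul, map_inv, map_mul, map_inv]
    have h3 : S.p g * ((S.j t)⁻¹ * S.j t') * (S.p g)⁻¹ =
        (S.q g * S.j t * (S.p g)⁻¹)⁻¹ * (S.q g * S.j t' * (S.p g)⁻¹) := by group
    rw [h3, QuotientGroup.mk_mul, QuotientGroup.mk_inv, h1, h2, QuotientGroup.mk_mul,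
      QuotientGroup.mk_inv]
  | one =>
    refine ⟨1, fun M' _ => Filter.Eventually.of_forall fun g => ?_⟩
    rw [map_one, mul_one, mul_inv_cancel, inv_one, mul_one]
    exact M'.one_mem
  | mul a b _ _ ha hb =>
    obtain ⟨a', ha'⟩ := ha
    obtain ⟨b', hb'⟩ := hb
    refine ⟨a' * b', fun M' hM' => ?_⟩
    filter_upwards [ha' M' hM', hb' M' hM'] with g h1 h2
    have hN := hM'.1
    rw [mem_iff hN] at h1 h2 ⊢
    rw [map_mul, map_mul]
    have h3 : S.p g * (S.j a * S.j b) * (S.p g)⁻¹ =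
        (S.p g * S.j a * (S.p g)⁻¹) * (S.p g * S.j b * (S.p g)⁻¹) := by group
    rw [h3, QuotientGroup.mk_mul, h1, h2, QuotientGroup.mk_mul]
  | inv a _ ha =>
    obtain ⟨a', ha'⟩ := ha
    refine ⟨a'⁻¹, fun M' hM' => ?_⟩
    filter_upwards [ha' M' hM'] with g h1
    have hN := hM'.1
    rw [mem_iff hN] at h1 ⊢
    rw [map_inv, map_inv]
    have h3 : S.p g * (S.j a)⁻¹ * (S.p g)⁻¹ = (S.p g * S.j a * (S.p g)⁻¹)⁻¹ := by group
    rw [h3, QuotientGroup.mk_inv, h1, QuotientGroup.mk_inv]

lemma dd (hP : SpecPin) (S : StepData e G G') (n : FreeGroup (Fin (e + 1)))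
    (𝒯 : Set (FreeGroup (Fin e))) (w : FreeGroup (Fin e)) (k : ℕ)
    (hc : ∀ t ∈ 𝒯, Ctl S (S.nu n) t)
    (hw : w ∈ Subgroup.closure {w | ∃ t ∈ 𝒯, ∃ t' ∈ 𝒯, w = t⁻¹ * t'})
    (hD : DD (S.j w)) (hH : Ht k (Subgroup.centralizer {S.j w})) : DD (S.nu n) := by
  intro U y hU
  obtain ⟨w', hw'⟩ := honest S (S.nu n) 𝒯 hc U y hU w hw
  have h1 : Cj ((U.map S.p : Ultrafilter G') : Filter G') (S.j w) (S.j w') := by
    intro M' hM'
    rw [Ultrafilter.coe_map, Filter.eventually_map]
    exact hw' M' hM'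
  obtain ⟨h, _, hCv⟩ := hD (U.map S.p) (S.j w') h1
  refine hP (e + 1) G G' S.toPinData n U y hU (Subgroup.centralizer {S.j w}) k hH h ?_
  intro M' hM'
  have h2 := hCv M' hM'
  rw [Ultrafilter.coe_map, Filter.eventually_map] at h2
  filter_upwards [h2] with g hg
  obtain ⟨a, ha, ha'⟩ := hg
  refine ⟨a, ?_, ha'⟩
  rw [Subgroup.mem_centralizer_iff]
  intro z hz
  rw [Set.mem_singleton_iff.1 hz]
  exact ha.symm

/-- a power of an element of the centraliser fixes the letters -/
lemma power (S : StepData e G G') (𝒯 : Set (FreeGroup (Fin e))) (hfin : 𝒯.Finite) (a : G)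
    (ha : ∀ t ∈ 𝒯, ∃ t' ∈ 𝒯, S.j t' = S.q a * S.j t * (S.p a)⁻¹) :
    ∃ m : ℕ, 0 < m ∧ ∀ t ∈ 𝒯, S.j t = S.q (a ^ m) * S.j t * (S.p (a ^ m))⁻¹ := by
  have : Finite 𝒯 := hfin
  choose f hf1 hf2 using ha
  let F : 𝒯 → 𝒯 := fun t => ⟨f t t.2, hf1 t t.2⟩
  have hF : ∀ t : 𝒯, S.j (F t) = S.q a * S.j t * (S.p a)⁻¹ := fun t => hf2 t t.2
  have hinj : Function.Injective F := by
    intro t s h
    have h1 : S.q a * S.j t * (S.p a)⁻¹ = S.q a * S.j s * (S.p a)⁻¹ := by rw [← hF, ← hF, h]
    exact Subtype.ext (S.j_inj (mul_left_cancel (mul_right_cancel h1)))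
  let σ : Equiv.Perm 𝒯 := Equiv.ofBijective F (Finite.injective_iff_bijective.1 hinj)
  have hσ : ∀ t : 𝒯, S.j (σ t) = S.q a * S.j t * (S.p a)⁻¹ := hF
  have hpow : ∀ (m : ℕ) (t : 𝒯), S.j ((σ ^ m) t) = S.q (a ^ m) * S.j t * (S.p (a ^ m))⁻¹ := by
    intro m
    induction m with
    | zero =>
      intro t
      simp
    | succ m ih =>
      intro t
      have h1 : (σ ^ (m + 1)) t = σ ((σ ^ m) t) := by rw [pow_succ']; rfl
      rw [h1, hσ, ih, pow_succ', map_mul, map_mul]
      group
  refine ⟨orderOf σ, orderOf_pos σ, fun t ht => ?_⟩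
  have h2 := hpow (orderOf σ) ⟨t, ht⟩
  rw [pow_orderOf_eq_one] at h2
  exact h2

lemma ht (hC : SpecCY) (hH : SpecHT) (S : StepData e G G') (n : FreeGroup (Fin (e + 1)))
    (𝒯 : Set (FreeGroup (Fin e))) (w : FreeGroup (Fin e)) (k : ℕ) (hn : n ≠ 1) (hfin : 𝒯.Finite)
    (hperm : ∀ a : G, a * S.nu n = S.nu n * a → ∀ t ∈ 𝒯, ∃ t' ∈ 𝒯,
      S.j t' = S.q a * S.j t * (S.p a)⁻¹)
    (hw : w ∈ Subgroup.closure {w | ∃ t ∈ 𝒯, ∃ t' ∈ 𝒯, w = t⁻¹ * t'})
    (hk : Ht k (Subgroup.centralizer {S.j w})) :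
    Ht (k + 1) (Subgroup.centralizer {S.nu n}) := by
  obtain ⟨h1, _, h3, h4, _⟩ := hH
  have hmem : ∀ {H : Type} [Group H] (a x : H), a ∈ Subgroup.centralizer {x} ↔ a * x = x * a := by
    intro H _ a x
    rw [Subgroup.mem_centralizer_iff]
    constructor
    · intro h
      exact (h x rfl).symm
    · intro h z hz
      rw [Set.mem_singleton_iff.1 hz]
      exact h.symm
  refine h4 G (k + 1) _ (Subgroup.centralizer {S.nu n} ⊓
    (Subgroup.centralizer {S.j w}).comap S.p) inf_le_left ?_ ?_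
  · intro a ha
    obtain ⟨m, hm0, hm⟩ := power S 𝒯 hfin a (hperm a ((hmem _ _).1 ha))
    refine ⟨m, hm0, Subgroup.pow_mem _ ha m, ?_⟩
    change S.p (a ^ m) ∈ Subgroup.centralizer {S.j w}
    rw [hmem]
    have hle : Subgroup.closure {w | ∃ t ∈ 𝒯, ∃ t' ∈ 𝒯, w = t⁻¹ * t'} ≤
        (Subgroup.centralizer {S.p (a ^ m)}).comap S.j := by
      rw [Subgroup.closure_le]
      rintro _ ⟨t, ht, t', ht', rfl⟩
      change S.j (t⁻¹ * t') ∈ Subgroup.centralizer {S.p (a ^ m)}
      rw [hmem, map_mul, map_inv]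
      have e1 := hm t ht
      have e2 := hm t' ht'
      have e3 : S.p (a ^ m) * ((S.j t)⁻¹ * S.j t') * (S.p (a ^ m))⁻¹ =
          (S.q (a ^ m) * S.j t * (S.p (a ^ m))⁻¹)⁻¹ * (S.q (a ^ m) * S.j t' * (S.p (a ^ m))⁻¹) := by
        group
      rw [← e1, ← e2] at e3
      exact (mul_inv_eq_iff_eq_mul.1 e3).symm
    exact ((hmem _ _).1 (hle hw)).symm
  · refine h3 G G' S.p k _ ?_ ?_
    · refine h1 G' k _ _ ?_ hk
      rintro _ ⟨a, ha, rfl⟩
      exact ha.2
    · intro a ha b hb hpa hpb ha1 hb1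
      obtain ⟨u, rfl⟩ := (S.nu_range a).1 hpa
      obtain ⟨v, rfl⟩ := (S.nu_range b).1 hpb
      have hu : u * n = n * u := S.nu_inj (by
        rw [map_mul, map_mul]
        exact (hmem _ _).1 ha.1)
      have hv : v * n = n * v := S.nu_inj (by
        rw [map_mul, map_mul]
        exact (hmem _ _).1 hb.1)
      obtain ⟨i, l, hi, hl, h5⟩ := (hC _ n hn).2 u (fun h => ha1 (by rw [h, map_one])) hu
      obtain ⟨i', l', hi', hl', h6⟩ := (hC _ n hn).2 v (fun h => hb1 (by rw [h, map_one])) hv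
      refine ⟨i * l', i' * l, mul_ne_zero hi hl', mul_ne_zero hi' hl, ?_⟩
      rw [← map_zpow, ← map_zpow, zpow_mul, zpow_mul, h5, h6, ← zpow_mul, ← zpow_mul, mul_comm]

theorem specST (hC : SpecCY) (hH : SpecHT) (hP : SpecPin) : SpecST := by
  intro e G G' _ _ S n 𝒯 w k hn hfin hc hperm hw hD hk
  exact ⟨dd hP S n 𝒯 w k hc hw hD hk, ht hC hH S n 𝒯 w k hn hfin hperm hw hk⟩

end Pool.Agent.Lib.MP347126.BR.STM
end

section
/-!
# MP_347126_al: Brunnian braids, module T2: transport of the lowest traces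
-/
set_option autoImplicit false

namespace Pool.Agent.Lib.MP347126.BR.T2M

open Finset PS

variable {Λ Λ' : Type}

/-- traces of series -/
def Ts (ω : List Λ) (f : PS Λ) : ℤ := ∑ i ∈ range ω.length, f.co (ω.rotate i)

lemma mul_co (f g : PS Λ) (ω : List Λ) :
    (f * g).co ω = ∑ i ∈ range (ω.length + 1), f.co (ω.take i) * g.co (ω.drop i) := by
  induction ω generalizing f with
  | nil => simp [mul_nil]
  | cons a ω ih =>
    rw [mul_cons, ih, List.length_cons, Finset.sum_range_succ' _ (ω.length + 1)]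
    simp [dv_apply, add_comm]

lemma sum_per (F : ℕ → ℤ) (n : ℕ) (hF : ∀ j, F (j + n) = F j) (i : ℕ) :
    ∑ j ∈ range n, F (j + i) = ∑ j ∈ range n, F j := by
  induction i with
  | zero => rfl
  | succ i ih =>
    rw [← ih]
    have h1 := Finset.sum_range_succ (fun j => F (j + i)) n
    have h2 := Finset.sum_range_succ' (fun j => F (j + i)) n
    have h3 := hF i
    have h4 : ∀ j, F (j + (i + 1)) = F (j + 1 + i) := by intro j; congr 1; ring
    simp only [h4]
    rw [h1] at h2
    simp only [zero_add] at h2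
    rw [add_comm n i, h3] at h2
    linarith

lemma rotate_add_length (ω : List Λ) (j : ℕ) : ω.rotate (j + ω.length) = ω.rotate j := by
  rw [← List.rotate_rotate]
  conv_lhs => rw [← List.length_rotate ω j]
  rw [List.rotate_length]

lemma Ts_mul_comm (ω : List Λ) (f g : PS Λ) : Ts ω (f * g) = Ts ω (g * f) := by
  unfold Ts
  simp only [mul_co, List.length_rotate]
  rw [Finset.sum_comm]
  have key : ∀ i ∈ range (ω.length + 1),
      ∑ j ∈ range ω.length, f.co ((ω.rotate j).take i) * g.co ((ω.rotate j).drop i) =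
      ∑ j ∈ range ω.length, g.co ((ω.rotate j).take (ω.length - i)) *
        f.co ((ω.rotate j).drop (ω.length - i)) := by
    intro i hi
    have hi' : i ≤ ω.length := Nat.lt_succ_iff.mp (Finset.mem_range.mp hi)
    rw [← sum_per (fun J => g.co ((ω.rotate J).take (ω.length - i)) *
      f.co ((ω.rotate J).drop (ω.length - i))) ω.length
      (fun j => by simp only [rotate_add_length]) i]
    apply Finset.sum_congr rfl
    intro j _
    have hl : i ≤ (ω.rotate j).length := by rw [List.length_rotate]; exact hi'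
    rw [← List.rotate_rotate, List.rotate_eq_drop_append_take hl,
      List.take_left' (by rw [List.length_drop, List.length_rotate]),
      List.drop_left' (by rw [List.length_drop, List.length_rotate]), mul_comm]
  rw [Finset.sum_congr rfl key]
  rw [Finset.sum_flip (fun i => ∑ j ∈ range ω.length, g.co ((ω.rotate j).take i) *
        f.co ((ω.rotate j).drop i)), Finset.sum_comm]

lemma T_eq (ω : List Λ) (z : FreeGroup Λ) : T ω z = Ts ω (mu z : PS Λ) := rfl

lemma T_rot (ω : List Λ) (k : ℕ) (z : FreeGroup Λ) : T (ω.rotate k) z = T ω z := by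
  unfold T
  rw [List.length_rotate]
  have h := sum_per (fun j => cf (ω.rotate j) z) ω.length
    (fun j => by simp only [rotate_add_length]) k
  rw [← h]
  apply Finset.sum_congr rfl
  intro i _
  rw [List.rotate_rotate, add_comm]

/-! ### Low degrees -/

/-- equality up to degree `N` -/
def Eqv (N : ℕ) (f g : PS Λ) : Prop := ∀ ω : List Λ, ω.length ≤ N → f.co ω = g.co ω

lemma Eqv.mul {N : ℕ} {f g f' g' : PS Λ} (h : Eqv N f f') (h' : Eqv N g g') :
    Eqv N (f * g) (f' * g') := by
  intro ω hω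
  rw [mul_co, mul_co]
  apply Finset.sum_congr rfl
  intro i _
  rw [h _ ((List.length_take_le' _ _).trans hω), h' _ (by rw [List.length_drop]; omega)]

lemma van0 {k : ℕ} {g : PS Λ} (hg : ∀ ω : List Λ, ω.length < k → g.co ω = 0) (h : PS Λ)
    (ω : List Λ) (hω : ω.length < k) : (h * g).co ω = 0 := by
  rw [mul_co]
  apply Finset.sum_eq_zero
  intro i _
  rw [hg _ (by rw [List.length_drop]; omega), mul_zero]

lemma van1 {k : ℕ} {f g : PS Λ} (hf : f.co [] = 0)
    (hg : ∀ ω : List Λ, ω.length < k → g.co ω = 0) (ω : List Λ) (hω : ω.length < k + 1) :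
    (f * g).co ω = 0 := by
  cases ω with
  | nil => rw [mul_nil, hf, zero_mul]
  | cons c ω =>
    rw [mul_cons, hf, zero_mul, zero_add]
    exact van0 hg _ _ (by simpa using hω)

lemma van_pow {f : PS Λ} (hf : f.co [] = 0) (k : ℕ) (ω : List Λ) (hω : ω.length < k) :
    (f ^ k).co ω = 0 := by
  induction k generalizing ω with
  | zero => omega
  | succ k ih =>
    rw [pow_succ']
    exact van1 hf ih ω hω

lemma mul_low {k : ℕ} {g : PS Λ} (hg : ∀ ω : List Λ, ω.length < k → g.co ω = 0) (h : PS Λ)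
    (ω : List Λ) (hω : ω.length ≤ k) : (h * g).co ω = h.co [] * g.co ω := by
  cases ω with
  | nil => rw [mul_nil]
  | cons c ω =>
    rw [mul_cons, van0 hg _ _ (by simpa using hω), add_zero]

/-- the augmentation -/
def aug (Λ : Type) : PS Λ →+* ℤ where
  toFun f := f.co []
  map_one' := one_nil
  map_mul' f g := mul_nil f g
  map_zero' := rfl
  map_add' f g := rfl

lemma aug_mu (z : FreeGroup Λ) : (mu z : PS Λ).co [] = 1 := by
  have h : (Units.map (aug Λ : PS Λ →* ℤ)).comp mu = 1 := by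
    apply FreeGroup.ext_hom
    intro a
    apply Units.ext
    change (mu (FreeGroup.of a) : PS Λ).co [] = 1
    unfold mu
    rw [FreeGroup.lift_apply_of]
    change (1 + X a : PS Λ).co [] = 1
    rw [add_apply, one_nil, X_nil, add_zero]
  have h1 : ((Units.map (aug Λ : PS Λ →* ℤ)) (mu z) : ℤ) = 1 := by
    have := DFunLike.congr_fun h z
    rw [MonoidHom.comp_apply] at this
    rw [this]
    rfl
  exact h1

/-! ### Expansions -/

/-- evaluation of noncommutative polynomials -/
noncomputable def evA (Y : Λ → PS Λ') : MonoidAlgebra ℤ (FreeMonoid Λ) →ₐ[ℤ] PS Λ' :=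
  MonoidAlgebra.lift ℤ (PS Λ') (FreeMonoid Λ) (FreeMonoid.lift Y)

lemma evA_of (Y : Λ → PS Λ') (u : Λ) :
    evA Y (MonoidAlgebra.of ℤ (FreeMonoid Λ) (FreeMonoid.of u)) = Y u := by
  unfold evA
  rw [MonoidAlgebra.lift_of, FreeMonoid.lift_eval_of]

lemma exists_exp (z : FreeGroup Λ) (N : ℕ) : ∃ P : MonoidAlgebra ℤ (FreeMonoid Λ),
    ∀ (Λ' : Type) (Y : Λ → PS Λ') (ρ : FreeGroup Λ →* (PS Λ')ˣ), (∀ u, (Y u).co [] = 0) →
    (∀ u, (ρ (FreeGroup.of u) : PS Λ') = 1 + Y u) → Eqv N (ρ z : PS Λ') (evA Y P) := by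
  induction z using FreeGroup.induction_on with
  | C1 => exact ⟨1, fun Λ' Y ρ _ _ => by rw [map_one, map_one]; exact fun _ _ => rfl⟩
  | of u =>
    refine ⟨1 + MonoidAlgebra.of ℤ (FreeMonoid Λ) (FreeMonoid.of u), fun Λ' Y ρ _ h => ?_⟩
    rw [map_add, map_one, evA_of]
    change Eqv N (ρ (FreeGroup.of u) : PS Λ') _
    rw [h]
    exact fun _ _ => rfl
  | inv_of u _ =>
    refine ⟨∑ k ∈ range (N + 1), (-MonoidAlgebra.of ℤ (FreeMonoid Λ) (FreeMonoid.of u)) ^ k,
      fun Λ' Y ρ hY h => ?_⟩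
    rw [map_sum]
    simp only [map_pow, map_neg, evA_of]
    change Eqv N ((ρ (FreeGroup.of u)⁻¹ : (PS Λ')ˣ) : PS Λ') _
    rw [map_inv]
    obtain ⟨J, hJ⟩ : ∃ J : PS Λ', J = (((ρ (FreeGroup.of u))⁻¹ : (PS Λ')ˣ) : PS Λ') := ⟨_, rfl⟩
    rw [← hJ]
    have h1 : J * (1 + Y u) = 1 := by
      rw [hJ, ← h, Units.inv_mul]
    have h2 : (1 + Y u) * ∑ k ∈ range (N + 1), (-Y u) ^ k = 1 - (-Y u) ^ (N + 1) := by
      have := mul_neg_geom_sum (-Y u) (N + 1)
      rw [sub_neg_eq_add] at this
      exact this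
    have h3 : ∑ k ∈ range (N + 1), (-Y u) ^ k = J - J * (-Y u) ^ (N + 1) := by
      calc ∑ k ∈ range (N + 1), (-Y u) ^ k
          = J * (1 + Y u) * ∑ k ∈ range (N + 1), (-Y u) ^ k := by rw [h1, one_mul]
        _ = J - J * (-Y u) ^ (N + 1) := by rw [mul_assoc, h2, mul_sub, mul_one]
    intro ω hω
    rw [h3, sub_apply, van0 (fun ω' h' => van_pow (by rw [neg_apply, hY, neg_zero]) (N + 1) ω' h')
      J ω (by omega), sub_zero]
  | mul x y hx hy =>
    obtain ⟨P, hP⟩ := hx
    obtain ⟨Q, hQ⟩ := hy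
    refine ⟨P * Q, fun Λ' Y ρ hY h => ?_⟩
    rw [map_mul, map_mul, Units.val_mul]
    exact (hP Λ' Y ρ hY h).mul (hQ Λ' Y ρ hY h)

/-- coefficients as an additive homomorphism -/
def coH (ω : List Λ) : PS Λ →+ ℤ where
  toFun f := f.co ω
  map_zero' := rfl
  map_add' _ _ := rfl

lemma exists_exp' (z : FreeGroup Λ) (N : ℕ) : ∃ c : List Λ →₀ ℤ,
    ∀ (Λ' : Type) (Y : Λ → PS Λ') (ρ : FreeGroup Λ →* (PS Λ')ˣ), (∀ u, (Y u).co [] = 0) →
    (∀ u, (ρ (FreeGroup.of u) : PS Λ') = 1 + Y u) → ∀ ω : List Λ', ω.length ≤ N →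
    (ρ z : PS Λ').co ω = c.sum fun η a => a * ((η.map Y).prod).co ω := by
  obtain ⟨P, hP⟩ := exists_exp z N
  refine ⟨P.coeff.mapDomain FreeMonoid.toList, fun Λ' Y ρ hY h ω hω => ?_⟩
  rw [hP Λ' Y ρ hY h ω hω]
  rw [Finsupp.sum_mapDomain_index (fun η => zero_mul _) (fun η a b => add_mul _ _ _)]
  unfold evA
  rw [MonoidAlgebra.lift_apply]
  change coH ω (P.coeff.sum _) = _
  rw [Finsupp.sum, map_sum, Finsupp.sum]
  apply Finset.sum_congr rfl
  intro η _
  rw [FreeMonoid.lift_apply]
  change (P.coeff η • (List.map Y (FreeMonoid.toList η)).prod).co ω = _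
  rw [smul_apply]

lemma exists_exp2 (z₁ z₂ : FreeGroup Λ) (N : ℕ) : ∃ c : List Λ →₀ ℤ,
    ∀ (Λ' : Type) (Y : Λ → PS Λ') (ρ : FreeGroup Λ →* (PS Λ')ˣ), (∀ u, (Y u).co [] = 0) →
    (∀ u, (ρ (FreeGroup.of u) : PS Λ') = 1 + Y u) → ∀ ω : List Λ', ω.length ≤ N →
    (ρ z₁ : PS Λ').co ω - (ρ z₂ : PS Λ').co ω = c.sum fun η a => a * ((η.map Y).prod).co ω := by
  obtain ⟨c₁, h₁⟩ := exists_exp' z₁ N
  obtain ⟨c₂, h₂⟩ := exists_exp' z₂ N
  refine ⟨c₁ - c₂, fun Λ' Y ρ hY h ω hω => ?_⟩
  rw [h₁ Λ' Y ρ hY h ω hω, h₂ Λ' Y ρ hY h ω hω, Finsupp.sum_sub_index]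
  intro η a b
  ring

/-! ### Products of letters -/

open Classical in
lemma prodX (η ω : List Λ) : ((η.map X).prod).co ω = if ω = η then 1 else 0 := by
  induction η generalizing ω with
  | nil =>
    cases ω with
    | nil => simp [one_nil]
    | cons a ω => simp [one_cons]
  | cons u η ih =>
    rw [List.map_cons, List.prod_cons]
    cases ω with
    | nil => rw [mul_nil, X_nil, zero_mul, if_neg (by simp)]
    | cons c ω =>
      rw [mul_cons, X_nil, zero_mul, zero_add]
      by_cases h : c = u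
      · subst h
        rw [dv_X_self, one_mul, ih]
        simp
      · rw [dv_X_ne h, zero_mul, zero_apply, if_neg]
        intro h1
        exact h (List.cons.inj h1).1

lemma prod_low (Y : Λ → PS Λ') (hY : ∀ u, (Y u).co [] = 0) (η : List Λ) (ω : List Λ')
    (h : ω.length < η.length) : ((η.map Y).prod).co ω = 0 := by
  induction η generalizing ω with
  | nil => simp at h
  | cons u η ih =>
    rw [List.map_cons, List.prod_cons]
    exact van1 (hY u) ih ω (by simpa using h)

open Classical in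
lemma prod_eq (Y : Λ → PS Λ') (b : Λ → Λ') (hY : ∀ u, (Y u).co [] = 0)
    (hY1 : ∀ u c, (Y u).co [c] = if c = b u then 1 else 0) (η : List Λ) (ω : List Λ')
    (h : ω.length = η.length) : ((η.map Y).prod).co ω = if ω = η.map b then 1 else 0 := by
  induction η generalizing ω with
  | nil =>
    have : ω = [] := by simpa using h
    subst this
    simp [one_nil]
  | cons u η ih =>
    cases ω with
    | nil => simp at h
    | cons c ω =>
      have h' : ω.length = η.length := by simpa using h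
      rw [List.map_cons, List.prod_cons, mul_cons, hY, zero_mul, zero_add,
        mul_low (prod_low Y hY η) _ _ h'.le, dv_apply, hY1, ih ω h', List.map_cons]
      by_cases h1 : c = b u <;> by_cases h2 : ω = η.map b <;> simp [h1, h2]

lemma Ts_prod_rotate (Y : Λ → PS Λ') (ω : List Λ') (η : List Λ) (i : ℕ) :
    Ts ω (((η.rotate i).map Y).prod) = Ts ω ((η.map Y).prod) := by
  rw [List.rotate_eq_drop_append_take_mod, List.map_append, List.prod_append, Ts_mul_comm,
    ← List.prod_append, ← List.map_append, List.take_append_drop]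

/-! ### Sums over rotation-closed sets -/

lemma sum_rot (S : Finset (List Λ)) (k : ℕ) (hk : ∀ η ∈ S, η.length = k)
    (hS : ∀ η ∈ S, ∀ i, η.rotate i ∈ S) (G : List Λ → ℤ) (i : ℕ) (hi : i ≤ k) :
    ∑ η ∈ S, G (η.rotate i) = ∑ η ∈ S, G η := by
  refine Finset.sum_nbij' (fun η => η.rotate i) (fun η => η.rotate (k - i)) ?_ ?_ ?_ ?_ ?_
  · intro η h; exact hS η h i
  · intro η h; exact hS η h _
  · intro η h
    rw [List.rotate_rotate, Nat.add_sub_cancel' hi, ← hk η h, List.rotate_length]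
  · intro η h
    rw [List.rotate_rotate, Nat.sub_add_cancel hi, ← hk η h, List.rotate_length]
  · intro η h; rfl

lemma sum_avg (S : Finset (List Λ)) (k : ℕ) (hk : ∀ η ∈ S, η.length = k)
    (hS : ∀ η ∈ S, ∀ i, η.rotate i ∈ S) (D L : List Λ → ℤ)
    (hL : ∀ η i, L (η.rotate i) = L η) :
    (k : ℤ) * ∑ η ∈ S, D η * L η = ∑ η ∈ S, (∑ i ∈ range k, D (η.rotate i)) * L η := by
  have h1 : ∀ i ∈ range k, ∑ η ∈ S, D (η.rotate i) * L η = ∑ η ∈ S, D η * L η := by
    intro i hi
    rw [← sum_rot S k hk hS (fun η => D η * L η) i (Finset.mem_range.mp hi).le]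
    apply Finset.sum_congr rfl
    intro η _
    rw [hL]
  simp only [Finset.sum_mul]
  rw [Finset.sum_comm, Finset.sum_congr rfl h1, Finset.sum_const, Finset.card_range, nsmul_eq_mul]

/-- the closure under rotation of the words of length `k` of a finite set -/
lemma exists_closure (E : Finset (List Λ)) (k : ℕ) : ∃ S : Finset (List Λ),
    (∀ η ∈ S, η.length = k) ∧ (∀ η ∈ S, ∀ i, η.rotate i ∈ S) ∧
    (∀ η ∈ E, η.length = k → η ∈ S) ∧ ∀ η ∈ S, ∃ i, η.rotate i ∈ E := by
  classical
  refine ⟨(E.filter fun η => η.length = k).biUnion fun η => (range (k + 1)).image η.rotate,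
    ?_, ?_, ?_, ?_⟩
  · intro η h
    simp only [Finset.mem_biUnion, Finset.mem_filter, Finset.mem_image, Finset.mem_range] at h
    obtain ⟨η', ⟨_, h1⟩, n, _, rfl⟩ := h
    rw [List.length_rotate, h1]
  · intro η h i
    simp only [Finset.mem_biUnion, Finset.mem_filter, Finset.mem_image, Finset.mem_range] at h ⊢
    obtain ⟨η', ⟨h0, h1⟩, n, _, rfl⟩ := h
    have h2 : η' ~r (η'.rotate n).rotate i := ⟨n + i, (List.rotate_rotate _ _ _).symm⟩
    obtain ⟨m, hm, h3⟩ := List.isRotated_iff_mod.mp h2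
    exact ⟨η', ⟨h0, h1⟩, m, by omega, h3⟩
  · intro η h hk
    simp only [Finset.mem_biUnion, Finset.mem_filter, Finset.mem_image, Finset.mem_range]
    exact ⟨η, ⟨h, hk⟩, 0, by omega, List.rotate_zero _⟩
  · intro η h
    simp only [Finset.mem_biUnion, Finset.mem_filter, Finset.mem_image, Finset.mem_range] at h
    obtain ⟨η', ⟨h0, h1⟩, n, hn, rfl⟩ := h
    refine ⟨k - n, ?_⟩
    rw [List.rotate_rotate, Nat.add_sub_cancel' (by omega), ← h1, List.rotate_length]
    exact h0

/-! ### The theorem -/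

lemma Y_facts (κ : FreeGroup Λ') (a : Λ') :
    ((mu κ : PS Λ') * X a * ((mu κ)⁻¹ : (PS Λ')ˣ)).co [] = 0 ∧
    ∀ c, ((mu κ : PS Λ') * X a * ((mu κ)⁻¹ : (PS Λ')ˣ)).co [c] = (X a : PS Λ').co [c] := by
  have h0 : ((mu κ : PS Λ') * X a).co [] = 0 := by rw [mul_nil, X_nil, mul_zero]
  have hi : (((mu κ)⁻¹ : (PS Λ')ˣ) : PS Λ').co [] = 1 := by
    rw [← map_inv]; exact aug_mu _
  refine ⟨by rw [mul_nil, h0, zero_mul], fun c => ?_⟩
  rw [mul_cons, h0, zero_mul, zero_add, mul_nil, dv_apply, hi, mul_one,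
    mul_low (k := 1) (fun ω h => by
      have : ω = [] := by
        rw [← List.length_eq_zero_iff]; omega
      rw [this, X_nil]) _ _ (by simp), aug_mu, one_mul]

theorem specT2 : SpecT2 := by
  classical
  intro Λ Λ' φ b hφ z₁ z₂ d hT
  choose κ hκ using hφ
  obtain ⟨c, hc⟩ := exists_exp2 z₁ z₂ d
  -- coefficients
  have hD : ∀ ω : List Λ, ω.length ≤ d → cf ω z₁ - cf ω z₂ = c ω := by
    intro ω hω
    have h1 := hc Λ X mu X_nil (fun u => by
      unfold mu
      rw [FreeGroup.lift_apply_of]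
      rfl) ω hω
    unfold cf
    rw [h1]
    simp only [prodX, mul_ite, mul_one, mul_zero]
    rw [Finsupp.sum, Finset.sum_ite_eq]
    by_cases h : ω ∈ c.support
    · rw [if_pos h]
    · rw [if_neg h, Finsupp.notMem_support_iff.mp h]
  set Y : Λ → PS Λ' := fun u => (mu (κ u) : PS Λ') * X (b u) * ((mu (κ u))⁻¹ : (PS Λ')ˣ) with hYdef
  have hY : ∀ u, (Y u).co [] = 0 := fun u => (Y_facts (κ u) (b u)).1
  have hY1 : ∀ u c, (Y u).co [c] = if c = b u then 1 else 0 := by
    intro u c
    rw [hYdef]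
    simp only
    rw [(Y_facts (κ u) (b u)).2, X_cons]
    simp
  have hρ : ∀ u, (((mu (Λ := Λ')).comp φ) (FreeGroup.of u) : PS Λ') = 1 + Y u := by
    intro u
    rw [MonoidHom.comp_apply, hκ, map_mul, map_mul, map_inv, Units.val_mul, Units.val_mul]
    have h1 : (mu (FreeGroup.of (b u)) : PS Λ') = 1 + X (b u) := by
      unfold mu
      rw [FreeGroup.lift_apply_of]
      rfl
    rw [h1, mul_add, mul_one, add_mul, Units.mul_inv]
  have hφ' : ∀ ω : List Λ', ω.length ≤ d → cf ω (φ z₁) - cf ω (φ z₂) =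
      c.sum fun η a => a * ((η.map Y).prod).co ω := fun ω hω => hc Λ' Y (mu.comp φ) hY hρ ω hω
  set L : List Λ' → List Λ → ℤ := fun ω' η => Ts ω' ((η.map Y).prod) with hL
  have hTs : ∀ ω : List Λ', ω.length ≤ d → T ω (φ z₁) - T ω (φ z₂) =
      ∑ η ∈ c.support, c η * L ω η := by
    intro ω hω
    unfold T
    rw [← Finset.sum_sub_distrib, Finset.sum_congr rfl (fun i _ => hφ' (ω.rotate i)
      (by rw [List.length_rotate]; exact hω))]
    unfold Finsupp.sum
    rw [Finset.sum_comm]
    apply Finset.sum_congr rfl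
    intro η _
    rw [← Finset.mul_sum]
    rfl
  -- the average over the words of length k
  have hT2 : ∀ η : List Λ, η.length ≤ d → (∑ i ∈ range η.length, c (η.rotate i)) =
      T η z₁ - T η z₂ := by
    intro η hη
    unfold T
    rw [← Finset.sum_sub_distrib]
    apply Finset.sum_congr rfl
    intro i _
    rw [hD _ (by rw [List.length_rotate]; exact hη)]
  have havg : ∀ (k : ℕ) (ω : List Λ'), k ≤ d → ∃ S : Finset (List Λ),
      (∀ η ∈ S, η.length = k) ∧ (∀ η : List Λ, η.length = k → η ∉ S → T η z₁ - T η z₂ = 0) ∧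
      (k : ℤ) * ∑ η ∈ c.support.filter (fun η => η.length = k), c η * L ω η =
        ∑ η ∈ S, (T η z₁ - T η z₂) * L ω η := by
    intro k ω hk
    obtain ⟨S, hS1, hS2, hS3, hS4⟩ := exists_closure c.support k
    refine ⟨S, hS1, ?_, ?_⟩
    · intro η hη hηS
      rw [← hT2 η (by omega)]
      apply Finset.sum_eq_zero
      intro i _
      by_contra h
      apply hηS
      have h1 : η.rotate i ∈ S := hS3 _ (Finsupp.mem_support_iff.mpr h)
        (by rw [List.length_rotate]; exact hη)
      have h2 : (η.rotate i) ~r η := (List.IsRotated.forall η i)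
      obtain ⟨n, hn⟩ := h2
      rw [← hn]
      exact hS2 _ h1 n
    · have h1 := sum_avg S k hS1 hS2 c (L ω) (fun η i => Ts_prod_rotate Y ω η i)
      have h2 : ∑ η ∈ c.support.filter (fun η => η.length = k), c η * L ω η =
          ∑ η ∈ S, c η * L ω η := by
        apply Finset.sum_subset
        · intro η hη
          rw [Finset.mem_filter] at hη
          exact hS3 η hη.1 hη.2
        · intro η hη hη'
          have : c η = 0 := by
            by_contra h
            exact hη' (Finset.mem_filter.mpr ⟨Finsupp.mem_support_iff.mpr h, hS1 η hη⟩)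
          rw [this, zero_mul]
      rw [h2, h1]
      apply Finset.sum_congr rfl
      intro η hη
      rw [← hT2 η (by rw [hS1 η hη]; exact hk), hS1 η hη]
  have hzero : ∀ (k : ℕ) (ω : List Λ'), k < d →
      ∑ η ∈ c.support.filter (fun η => η.length = k), c η * L ω η = 0 := by
    intro k ω hk
    rcases Nat.eq_zero_or_pos k with rfl | hpos
    · apply Finset.sum_eq_zero
      intro η hη
      rw [Finset.mem_filter, List.length_eq_zero_iff] at hη
      have h1 := hD [] (by simp)
      unfold cf at h1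
      rw [aug_mu, aug_mu, sub_self] at h1
      rw [hη.2, ← h1, zero_mul]
    · obtain ⟨S, hS1, _, hS⟩ := havg k ω hk.le
      have h1 : ∑ η ∈ S, (T η z₁ - T η z₂) * L ω η = 0 := by
        apply Finset.sum_eq_zero
        intro η hη
        rw [hT η (by rw [hS1 η hη]; exact hk), sub_self, zero_mul]
      rw [h1] at hS
      rcases mul_eq_zero.mp hS with h | h
      · exfalso
        have : k = 0 := by exact_mod_cast h
        omega
      · exact h
  have hbig : ∀ (ω : List Λ') (η : List Λ), ω.length < η.length → L ω η = 0 := by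
    intro ω η h
    apply Finset.sum_eq_zero
    intro i _
    exact prod_low Y hY η _ (by rw [List.length_rotate]; exact h)
  -- decomposition by length
  have hsplit : ∀ ω : List Λ', ω.length ≤ d → T ω (φ z₁) - T ω (φ z₂) =
      ∑ k ∈ range (ω.length + 1),
        ∑ η ∈ c.support.filter (fun η => η.length = k), c η * L ω η := by
    intro ω hω
    rw [hTs ω hω]
    have h1 : ∑ η ∈ c.support, c η * L ω η =
        ∑ η ∈ c.support.filter (fun η => η.length < ω.length + 1), c η * L ω η := by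
      symm
      apply Finset.sum_subset (Finset.filter_subset _ _)
      intro η hη hη'
      have : ω.length < η.length := by
        by_contra h
        exact hη' (Finset.mem_filter.mpr ⟨hη, by omega⟩)
      rw [hbig ω η this, mul_zero]
    rw [h1, ← Finset.sum_fiberwise_of_maps_to (g := List.length) (t := range (ω.length + 1))
      (fun η hη => Finset.mem_range.mpr (Finset.mem_filter.mp hη).2)]
    apply Finset.sum_congr rfl
    intro k hk
    apply Finset.sum_congr _ (fun _ _ => rfl)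
    ext η
    simp only [Finset.mem_filter]
    have := Finset.mem_range.mp hk
    constructor
    · rintro ⟨⟨h1, h2⟩, h3⟩; exact ⟨h1, h3⟩
    · rintro ⟨h1, h3⟩; exact ⟨⟨h1, by omega⟩, h3⟩
  constructor
  · intro ω' hω'
    have h := hsplit ω' hω'.le
    rw [Finset.sum_eq_zero (fun k hk => hzero k ω' (by
      have := Finset.mem_range.mp hk
      omega))] at h
    linarith
  · intro ω hω hsep
    rcases Nat.eq_zero_or_pos d with hd | hd
    · have : ω = [] := by
        rw [← List.length_eq_zero_iff]; omega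
      subst this
      simp [T]
    have hl : (ω.map b).length = d := by rw [List.length_map, hω]
    have h := hsplit (ω.map b) hl.le
    rw [hl, Finset.sum_range_succ, Finset.sum_eq_zero (fun k hk => hzero k (ω.map b)
      (Finset.mem_range.mp hk)), zero_add] at h
    obtain ⟨S, hS1, hS2, hS⟩ := havg d (ω.map b) le_rfl
    rw [← h] at hS
    -- the values of L
    have hLv : ∀ η ∈ S, (T η z₁ - T η z₂) * L (ω.map b) η =
        ∑ i ∈ range d, if ω.rotate i = η then (T η z₁ - T η z₂) else 0 := by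
      intro η hη
      by_cases h0 : T η z₁ - T η z₂ = 0
      · rw [h0, zero_mul]
        symm
        apply Finset.sum_eq_zero
        intro i _
        simp
      · rw [hL]
        simp only [Ts]
        rw [hl, Finset.mul_sum]
        apply Finset.sum_congr rfl
        intro i _
        have hlen : (ω.rotate i).length = η.length := by
          rw [List.length_rotate, hω, hS1 η hη]
        rw [← List.map_rotate, prod_eq Y b hY hY1 η _ (by rw [List.length_map, hlen])]
        have hiff : List.map b (ω.rotate i) = List.map b η ↔ ω.rotate i = η := by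
          constructor
          · intro h1
            apply List.ext_getElem hlen
            intro n hn hn'
            have h2 : b ((ω.rotate i)[n]) = b (η[n]) := by
              have h3 := List.getElem_of_eq h1 (i := n) (by rw [List.length_map]; exact hn)
              rw [List.getElem_map, List.getElem_map] at h3
              exact h3
            refine hsep _ (List.mem_rotate.mp (List.getElem_mem hn)) _ ?_ h2
            exact ⟨η, hS1 η hη, fun h3 => h0 (by rw [h3, sub_self]), List.getElem_mem hn'⟩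
          · intro h1; rw [h1]
        by_cases h1 : ω.rotate i = η
        · rw [if_pos (hiff.mpr h1), if_pos h1, mul_one]
        · rw [if_neg (fun h2 => h1 (hiff.mp h2)), if_neg h1, mul_zero]
    rw [Finset.sum_congr rfl hLv, Finset.sum_comm] at hS
    have hrow : ∀ i ∈ range d, (∑ η ∈ S, if ω.rotate i = η then (T η z₁ - T η z₂) else 0) =
        T ω z₁ - T ω z₂ := by
      intro i _
      rw [Finset.sum_ite_eq]
      by_cases h1 : ω.rotate i ∈ S
      · rw [if_pos h1, T_rot, T_rot]
      · rw [if_neg h1, ← hS2 _ (by rw [List.length_rotate, hω]) h1, T_rot, T_rot]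
    rw [Finset.sum_congr rfl hrow, Finset.sum_const, Finset.card_range, nsmul_eq_mul] at hS
    have hd' : (d : ℤ) ≠ 0 := by exact_mod_cast hd.ne'
    exact mul_left_cancel₀ hd' hS

end Pool.Agent.Lib.MP347126.BR.T2M
end

section
/-!
# MP_347126_al: Magnus traces, generalities
-/
set_option autoImplicit false

namespace Pool.Agent.Lib.MP347126.BR.TRM

open Finset

variable {Λ : Type}

/-- the convolution as a sum over the cuts -/
lemma mul_co (f g : PS Λ) (ω : List Λ) :
    (f * g).co ω = ∑ i ∈ range (ω.length + 1), f.co (ω.take i) * g.co (ω.drop i) := by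
  induction ω generalizing f with
  | nil => simp [PS.mul_nil]
  | cons a ω ih =>
    rw [PS.mul_cons, ih, List.length_cons, sum_range_succ' _ (ω.length + 1)]
    simp only [List.take_succ_cons, List.drop_succ_cons, List.take_zero, List.drop_zero,
      PS.dv_apply]
    rw [add_comm]

/-- sums over a period -/
lemma sum_shift (n : ℕ) (u : ℕ → ℤ) (hu : ∀ j, u (j + n) = u j) (i : ℕ) :
    ∑ j ∈ range n, u (j + i) = ∑ j ∈ range n, u j := by
  induction i with
  | zero => rfl
  | succ i ih =>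
    rw [← ih]
    have h1 := sum_range_succ' (fun j => u (j + i)) n
    have h2 := sum_range_succ (fun j => u (j + i)) n
    rw [h2] at h1
    have h3 : u (n + i) = u (0 + i) := by
      rw [add_comm n i, zero_add, hu]
    have h4 : ∑ j ∈ range n, u (j + (i + 1)) = ∑ j ∈ range n, u (j + 1 + i) :=
      sum_congr rfl fun j _ => by congr 1; ring
    rw [h4]
    linarith

/-- the trace of a series -/
def Ts (ω : List Λ) (f : PS Λ) : ℤ := ∑ i ∈ range ω.length, f.co (ω.rotate i)

lemma T_eq (ω : List Λ) (z : FreeGroup Λ) : T ω z = Ts ω (mu z : PS Λ) := rfl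

lemma rotate_period (ω : List Λ) (j : ℕ) : ω.rotate (j + ω.length) = ω.rotate j := by
  rw [← List.rotate_rotate, ← List.length_rotate ω j, List.rotate_length]

lemma sum_rot (ω : List Λ) (H : List Λ → ℤ) (i : ℕ) :
    ∑ j ∈ range ω.length, H (ω.rotate (j + i)) = ∑ j ∈ range ω.length, H (ω.rotate j) :=
  sum_shift ω.length (fun j => H (ω.rotate j)) (fun j => by rw [rotate_period]) i

lemma Ts_mul_comm (ω : List Λ) (f g : PS Λ) : Ts ω (f * g) = Ts ω (g * f) := by
  unfold Ts
  simp_rw [mul_co, List.length_rotate]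
  rw [sum_comm, sum_comm (s := range ω.length)]
  rw [← sum_range_reflect (fun i => ∑ j ∈ range ω.length,
    g.co ((ω.rotate j).take i) * f.co ((ω.rotate j).drop i)) (ω.length + 1)]
  refine sum_congr rfl fun i hi => ?_
  rw [mem_range] at hi
  rw [← sum_rot ω (fun τ => g.co (τ.take (ω.length + 1 - 1 - i)) *
    f.co (τ.drop (ω.length + 1 - 1 - i))) i]
  refine sum_congr rfl fun j _ => ?_
  have h1 : ω.rotate (j + i) = (ω.rotate j).drop i ++ (ω.rotate j).take i := by
    rw [← List.rotate_rotate, List.rotate_eq_drop_append_take]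
    rw [List.length_rotate]
    omega
  have h2 : ((ω.rotate j).drop i).length = ω.length + 1 - 1 - i := by
    rw [List.length_drop, List.length_rotate]
    omega
  rw [h1, ← h2, List.take_left, List.drop_left, mul_comm]

/-- the words with nonzero coefficients have letters in `S` -/
def SP (f : PS Λ) (S : Set Λ) : Prop := ∀ ω, f.co ω ≠ 0 → ∀ u ∈ ω, u ∈ S

lemma SP_mul {f g : PS Λ} {S : Set Λ} (hf : SP f S) (hg : SP g S) : SP (f * g) S := by
  intro ω hω u hu
  rw [mul_co] at hω
  obtain ⟨i, -, hi⟩ := exists_ne_zero_of_sum_ne_zero hω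
  have h1 : ω = ω.take i ++ ω.drop i := (List.take_append_drop i ω).symm
  rw [h1, List.mem_append] at hu
  rcases hu with hu | hu
  · exact hf _ (left_ne_zero_of_mul hi) u hu
  · exact hg _ (right_ne_zero_of_mul hi) u hu

lemma SP_one (S : Set Λ) : SP (1 : PS Λ) S := by
  intro ω hω u hu
  cases ω with
  | nil => exact absurd hu (by simp)
  | cons a ω => exact absurd (PS.one_cons a ω) hω

lemma SP_gu {a : Λ} {S : Set Λ} (ha : a ∈ S) : SP (PS.gu a : PS Λ) S := by
  intro ω hω u hu
  change (1 + PS.X a : PS Λ).co ω ≠ 0 at hω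
  rw [PS.add_apply] at hω
  by_cases h : ω = [a]
  · rw [h, List.mem_singleton] at hu
    rw [hu]
    exact ha
  · have h2 : (PS.X a).co ω = 0 := if_neg h
    rw [h2, add_zero] at hω
    exact SP_one S ω hω u hu

lemma SP_gui {a : Λ} {S : Set Λ} (ha : a ∈ S) : SP ((PS.gu a)⁻¹ : (PS Λ)ˣ) S := by
  intro ω hω u hu
  change (PS.Xi a).co ω ≠ 0 at hω
  by_cases h : ∀ b ∈ ω, b = a
  · rw [h u hu]
    exact ha
  · exact absurd (if_neg h) hω

lemma SP_mono {f : PS Λ} {S S' : Set Λ} (h : S ⊆ S') (hf : SP f S) : SP f S' :=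
  fun ω hω u hu => h (hf ω hω u hu)

lemma exists_letters (z : FreeGroup Λ) : ∃ E : Finset Λ, ∀ (Λ' : Type) (b : Λ → Λ'),
    SP (mu (FreeGroup.map b z) : PS Λ') (b '' (E : Set Λ)) := by
  classical
  induction z using FreeGroup.induction_on with
  | C1 => exact ⟨∅, fun Λ' b => by rw [map_one, map_one]; exact SP_one _⟩
  | of x =>
    refine ⟨{x}, fun Λ' b => ?_⟩
    rw [FreeGroup.map.of, mu, FreeGroup.lift_apply_of]
    exact SP_gu ⟨x, by simp, rfl⟩
  | inv_of x _ =>
    refine ⟨{x}, fun Λ' b => ?_⟩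
    rw [map_inv, map_inv, FreeGroup.map.of, mu, FreeGroup.lift_apply_of]
    exact SP_gui ⟨x, by simp, rfl⟩
  | mul x y hx hy =>
    obtain ⟨E, hE⟩ := hx
    obtain ⟨F, hF⟩ := hy
    refine ⟨E ∪ F, fun Λ' b => ?_⟩
    rw [map_mul, map_mul, Units.val_mul]
    refine SP_mul (SP_mono ?_ (hE Λ' b)) (SP_mono ?_ (hF Λ' b))
    · rw [coe_union]
      exact Set.image_mono Set.subset_union_left
    · rw [coe_union]
      exact Set.image_mono Set.subset_union_right

lemma letters_T (z : FreeGroup Λ) : ∃ E : Finset Λ, ∀ (Λ' : Type) (b : Λ → Λ') (ω' : List Λ'),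
    T ω' (FreeGroup.map b z) ≠ 0 → ∀ u' ∈ ω', ∃ u ∈ E, b u = u' := by
  obtain ⟨E, hE⟩ := exists_letters z
  refine ⟨E, fun Λ' b ω' h u' hu' => ?_⟩
  obtain ⟨i, -, hi⟩ := exists_ne_zero_of_sum_ne_zero h
  exact hE Λ' b _ hi u' (List.mem_rotate.2 hu')

theorem specTR : SpecTr := by
  refine ⟨fun Λ ω g z => ?_, fun Λ ω => ?_, fun Λ ω k z => ?_, fun Λ z => letters_T z,
    fun Λ z₁ z₂ d => ?_⟩
  · rw [T_eq, T_eq, map_mul, Units.val_mul, Ts_mul_comm, ← Units.val_mul, map_mul, ← mul_assoc,
      ← map_mul, inv_mul_cancel, map_one, one_mul]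
  · unfold T
    refine sum_eq_zero fun i hi => ?_
    rw [mem_range] at hi
    unfold cf
    rw [map_one]
    have h1 : (ω.rotate i).length ≠ 0 := by
      rw [List.length_rotate]
      omega
    cases h : ω.rotate i with
    | nil => rw [h] at h1; exact absurd rfl h1
    | cons a τ => rfl
  · unfold T
    rw [List.length_rotate]
    simp_rw [List.rotate_rotate, add_comm k]
    exact sum_rot ω (fun τ => cf τ z) k
  · classical
    obtain ⟨E, hE⟩ := letters_T z₁
    obtain ⟨F, hF⟩ := letters_T z₂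
    refine (E ∪ F).finite_toSet.subset ?_
    rintro u ⟨ω, -, hω, hu⟩
    rw [coe_union]
    by_cases h : T ω z₁ = 0
    · have h2 : T ω z₂ ≠ 0 := fun h3 => hω (by rw [h, h3])
      right
      obtain ⟨v, hv, rfl⟩ := hF Λ id ω (by rwa [FreeGroup.map.id]) u hu
      exact hv
    · left
      obtain ⟨v, hv, rfl⟩ := hE Λ id ω (by rwa [FreeGroup.map.id]) u hu
      exact hv

end Pool.Agent.Lib.MP347126.BR.TRM
end

section
/-!
# MP_347126_al: the centraliser permutes the letters
-/
set_option autoImplicit false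

namespace Pool.Agent.Lib.MP347126.BR.TSM

theorem specTS (hTr : SpecTr) (hT2 : SpecT2) (hB0 : SpecB0) (hAct : SpecAct) : SpecTS := by
  intro e G G' _ _ S z t₀ n d hlow a ha hn t ht
  obtain ⟨-, hact⟩ := hAct e G G' S
  obtain ⟨b, φ, hb, hbj, hφ, hφ2⟩ := hact a
  have hz : φ z = z := by
    apply hB0.1 e
    apply S.nu_inj
    rw [hφ, ha, mul_inv_cancel_right]
  obtain ⟨t1, -⟩ := hTr
  have hz₂ : ∀ ω, T ω (φ (FreeGroup.of t₀ ^ n)) = T ω (FreeGroup.of t₀ ^ n) := by
    intro ω
    rcases hn with hn | hn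
    · rw [hn, zpow_zero, map_one]
    · obtain ⟨κ, hκ⟩ := hφ2 t₀
      have h1 : b t₀ = t₀ := S.j_inj (by rw [hbj, ← hn])
      rw [map_zpow, hκ, h1, conj_zpow, t1]
  obtain ⟨ω, hω1, hω2, hω3⟩ := ht
  have h2 := (hT2 _ _ φ b hφ2 z (FreeGroup.of t₀ ^ n) d hlow.1).2 ω hω1
    (fun u _ u' _ h => hb.1 h)
  rw [hz, hz₂] at h2
  refine ⟨b t, ⟨ω.map b, by rw [List.length_map, hω1], ?_, List.mem_map_of_mem hω3⟩, hbj t⟩
  intro h3
  rw [h3, sub_self] at h2
  exact hω2 (sub_eq_zero.1 h2.symm)

end Pool.Agent.Lib.MP347126.BR.TSM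
end

section
/-!
# MP_347126_al: Brunnian braids. Module WL: the Brunnian element of the group of the letters
-/
set_option autoImplicit false

namespace Pool.Agent.Lib.MP347126.BR.WL

open Finset

theorem single (h2 : SpecT2) (hB0 : SpecB0) (e : ℕ) (z : FreeGroup (FreeGroup (Fin e))) (d : ℕ)
    (hLow : Low z 1 d) (hBr : Br (e + 1) (be e z)) (i : Fin e) (hi : i.val ≠ 0) :
    ∃ w ∈ WG z d, w ≠ 1 ∧ kill i w = 1 := by
  obtain ⟨hinj, -, -, hkill, -⟩ := hB0
  have h1 : FreeGroup.map (kill i) z = 1 := by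
    apply hinj e
    rw [← hkill, map_one]
    exact hBr.2 i.castSucc (by simpa using hi)
  obtain ⟨hlow, ω, hω, hne⟩ := hLow
  have h3 := (h2 _ _ (FreeGroup.map (kill i)) (kill i) (fun u => ⟨1, by simp⟩) z 1 d hlow).2 ω hω
  by_contra hcon
  push Not at hcon
  have h4 : ∀ u ∈ ω, ∀ u' ∈ Tset z 1 d, kill i u = kill i u' → u = u' := by
    intro u hu u' hu' huu
    by_contra hne'
    have hmem : u ∈ Tset z 1 d := ⟨ω, hω, hne, hu⟩
    refine hcon (u⁻¹ * u') (Subgroup.subset_closure ⟨u, hmem, u', hu', rfl⟩) ?_ ?_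
    · intro h
      exact hne' (inv_mul_eq_one.mp h)
    · rw [map_mul, map_inv, huu, inv_mul_cancel]
  have h5 := h3 h4
  rw [h1, map_one, sub_self] at h5
  exact hne (sub_eq_zero.mp h5.symm)

theorem combine (hCY : SpecCY) (e : ℕ) (W : Subgroup (FreeGroup (Fin e))) (I : Finset (Fin e))
    (hI : I.Nonempty) (h : ∀ i ∈ I, ∃ w ∈ W, w ≠ 1 ∧ kill i w = 1) :
    ∃ w ∈ W, w ≠ 1 ∧ ∀ i ∈ I, kill i w = 1 := by
  induction hI using Finset.Nonempty.cons_induction with
  | singleton a =>
    obtain ⟨w, h1, h2, h3⟩ := h a (by simp)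
    exact ⟨w, h1, h2, by simpa using h3⟩
  | cons a s ha hs ih =>
    obtain ⟨w₁, h1, h2, h3⟩ := ih (fun i hi => h i (by simp [hi]))
    obtain ⟨w₂, k1, k2, k3⟩ := h a (by simp)
    by_cases hc : w₁ * w₂ * w₁⁻¹ * w₂⁻¹ = 1
    · have hcomm : w₁ * w₂ = w₂ * w₁ := by
        have h4 : w₁ * w₂ * w₁⁻¹ = w₂ := mul_inv_eq_one.mp hc
        exact mul_inv_eq_iff_eq_mul.mp h4
      obtain ⟨i, k, hi, -, hik⟩ := (hCY (Fin e) w₂ k2).2 w₁ h2 hcomm
      refine ⟨w₁ ^ i, W.zpow_mem h1 i, ?_, ?_⟩
      · intro h4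
        apply h2
        have h5 : w₁ ^ i = 1 ^ i := by rw [h4, one_zpow]
        exact zpow_left_injective hi h5
      · intro l hl
        rw [Finset.mem_cons] at hl
        rcases hl with rfl | hl
        · rw [hik, map_zpow, k3, one_zpow]
        · rw [map_zpow, h3 l hl, one_zpow]
    · refine ⟨_, W.mul_mem (W.mul_mem (W.mul_mem h1 k1) (W.inv_mem h1)) (W.inv_mem k1), hc, ?_⟩
      intro l hl
      rw [Finset.mem_cons] at hl
      rcases hl with rfl | hl
      · rw [map_mul, map_mul, map_mul, map_inv, map_inv, k3, mul_one, inv_one, mul_one,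
          mul_inv_cancel]
      · rw [map_mul, map_mul, map_mul, map_inv, map_inv, h3 l hl, one_mul, inv_one, mul_one,
          mul_inv_cancel]

theorem specWL (h2 : SpecT2) (hB0 : SpecB0) (hCY : SpecCY) : SpecWL := by
  intro e z d he hLow hBr
  obtain ⟨w, h1, h3, h4⟩ := combine hCY e (WG z d) (univ.filter fun i : Fin e => i.val ≠ 0)
    ⟨⟨1, by omega⟩, by simp⟩ (by
      intro i hi
      exact single h2 hB0 e z d hLow hBr i (by simpa using hi))
  exact ⟨w, h1, h3, fun i hi => h4 i (by simpa using hi)⟩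

end Pool.Agent.Lib.MP347126.BR.WL
end

section
/-!
# MP_347126_al: Brunnian braids, module ZM (subgroups of `ℤ^W`)

The quotient of `ℤ^W` by a subgroup is a finitely generated abelian group, hence the sum of a free
group and of finitely many finite cyclic groups.
-/
set_option autoImplicit false

namespace Pool.Agent.Lib.MP347126.BR.ZMM

open Pool.Agent.Lib.MP347126.BR

/-- the structure of finitely generated abelian groups, in the form used below -/
lemma struct (Q : Type) [AddCommGroup Q] [AddGroup.FG Q] :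
    ∃ P : ℕ, 0 < P ∧ (∀ (q : Q) (m : ℕ), 0 < m → m • q = 0 → P • q = 0) ∧
      ∀ q : Q, (∀ m : ℕ, 0 < m → ∃ q' : Q, q = m • q') → q = 0 := by
  obtain ⟨n, ι, _, p, hp, e, ⟨φ⟩⟩ := AddCommGroup.equiv_free_prod_directSum_zmod Q
  have hdvd : ∀ i, p i ^ e i ∣ ∏ i, p i ^ e i := fun i => Finset.dvd_prod_of_mem _ (Finset.mem_univ i)
  have htor : ∀ b : DirectSum ι (fun i => ZMod (p i ^ e i)), (∏ i, p i ^ e i) • b = 0 := by
    intro b
    refine DFinsupp.ext fun i => ?_
    rw [DFinsupp.smul_apply, nsmul_eq_mul, (ZMod.natCast_eq_zero_iff _ _).2 (hdvd i), zero_mul]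
    rfl
  refine ⟨∏ i, p i ^ e i, Finset.prod_pos fun i _ => pow_pos (hp i).pos _, ?_, ?_⟩
  · intro q m hm hq
    apply φ.injective
    rw [map_nsmul, map_zero]
    have h1 : m • φ q = 0 := by rw [← map_nsmul, hq, map_zero]
    have h2 : m • (φ q).1 = 0 := congrArg Prod.fst h1
    have h3 : (φ q).1 = 0 := by
      ext j
      have h4 := DFunLike.congr_fun h2 j
      rw [Finsupp.smul_apply, Finsupp.zero_apply, nsmul_eq_mul] at h4
      rcases mul_eq_zero.1 h4 with h5 | h5
      · have : m = 0 := by exact_mod_cast h5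
        omega
      · exact h5
    refine Prod.ext ?_ ?_
    · rw [Prod.smul_fst, h3, smul_zero]
      rfl
    · rw [Prod.smul_snd, htor]
      rfl
  · intro q hq
    apply φ.injective
    rw [map_zero]
    refine Prod.ext ?_ ?_
    · ext j
      obtain ⟨q', hq'⟩ := hq ((φ q).1 j).natAbs.succ (Nat.succ_pos _)
      have h1 : φ q = ((φ q).1 j).natAbs.succ • φ q' := by rw [← map_nsmul, ← hq']
      have h2 : (φ q).1 j = (((φ q).1 j).natAbs.succ : ℤ) * (φ q').1 j := by
        have h3 := DFunLike.congr_fun (congrArg Prod.fst h1) j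
        rw [Prod.smul_fst, Finsupp.smul_apply, nsmul_eq_mul] at h3
        exact h3
      have h4 : (((φ q).1 j).natAbs.succ : ℤ) ∣ (φ q).1 j := ⟨_, h2⟩
      have h5 := Int.natAbs_dvd_natAbs.2 h4
      rw [Int.natAbs_natCast] at h5
      by_contra h6
      have h7 : 0 < ((φ q).1 j).natAbs := Int.natAbs_pos.2 h6
      exact absurd (Nat.le_of_dvd h7 h5) (by omega)
    · obtain ⟨q', hq'⟩ := hq (∏ i, p i ^ e i) (Finset.prod_pos fun i _ => pow_pos (hp i).pos _)
      have h1 : φ q = (∏ i, p i ^ e i) • φ q' := by rw [← map_nsmul, ← hq']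
      rw [h1, Prod.smul_snd, htor]
      rfl

theorem specZM : SpecZM := by
  intro W _ V
  have : AddGroup.FG ((W → ℤ) ⧸ V) := by
    have : AddGroup.FG (W → ℤ) := Module.Finite.iff_addGroup_fg.1 inferInstance
    infer_instance
  obtain ⟨P, hP, h1, h2⟩ := struct ((W → ℤ) ⧸ V)
  refine ⟨fun v₀ hv₀ => ?_, fun m₁ hm₁ => ⟨m₁ * P, Nat.mul_pos hm₁ hP, fun v hv hm => ?_⟩⟩
  · rw [← QuotientAddGroup.eq_zero_iff]
    apply h2
    intro m hm
    obtain ⟨v, hv, hd⟩ := hv₀ m hm
    choose u hu using hd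
    refine ⟨((-u : W → ℤ) : (W → ℤ) ⧸ V), ?_⟩
    rw [← QuotientAddGroup.mk_nsmul, eq_comm, QuotientAddGroup.eq]
    convert V.neg_mem (V.neg_mem hv) using 1
    funext w
    have h3 := hu w
    have h4 : (m • -u) w = (m : ℤ) * -(u w) := by
      rw [Pi.smul_apply, nsmul_eq_mul, Pi.neg_apply]
    change -((m • -u) w) + v₀ w = - -(v w)
    rw [h4]
    linarith
  · choose u hu using hm
    have h4 : P • ((u : W → ℤ) : (W → ℤ) ⧸ V) = 0 := by
      apply h1 _ (m₁ * P) (Nat.mul_pos hm₁ hP)
      rw [← QuotientAddGroup.mk_nsmul, QuotientAddGroup.eq_zero_iff]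
      convert hv using 1
      funext w
      rw [Pi.smul_apply, nsmul_eq_mul, hu w]
    rw [← QuotientAddGroup.mk_nsmul, QuotientAddGroup.eq_zero_iff] at h4
    refine ⟨P • u, h4, ?_⟩
    funext w
    rw [hu w, Pi.smul_apply, Pi.smul_apply, smul_eq_mul, nsmul_eq_mul]
    push_cast
    ring

end Pool.Agent.Lib.MP347126.BR.ZMM
end
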