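import Pool.Agent.Lib.MP_347126_al.Main
import Pool.Agent.Lib.MP_347126_al.BR.Spec
import Pool.Agent.Lib.MP_347126_al.BR.SpecB
import Pool.Agent.Lib.MP_347126_al.BR.PIN
import Pool.Agent.Lib.MP_347126_al.BR.ZM
import Pool.Agent.Lib.MP_347126_al.BR.T3

section
/-!
# MP_347126_al: Brunnian braids, module CY (centralisers in free groups are cyclic)

The centraliser of `x` is free by the theorem of Nielsen and Schreier; it has the nontrivial central
element `x`, hence it has exactly one free generator.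
-/
set_option autoImplicit false

namespace Pool.Agent.Lib.MP347126.BR.CYM

open Pool.Agent.Lib.MP347126.BR

/-- a power of one letter which is a power of another letter is trivial -/
lemma pow_eq {ι : Type} [DecidableEq ι] {a b : ι} (hab : a ≠ b) {m n : ℤ}
    (h : FreeGroup.of a ^ m = FreeGroup.of b ^ n) : m = 0 := by
  have h1 := congrArg (FreeGroup.lift (fun i => if i = a then Multiplicative.ofAdd (1 : ℤ) else 1)) h
  rw [map_zpow, map_zpow, FreeGroup.lift_apply_of, FreeGroup.lift_apply_of, if_pos rfl,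
    if_neg hab.symm, one_zpow] at h1
  have h2 := congrArg Multiplicative.toAdd h1
  simpa using h2

/-- a free group with one letter is cyclic -/
lemma cyc {ι : Type} {a : ι} (h : ∀ b : ι, b = a) (z : FreeGroup ι) :
    ∃ n : ℤ, z = FreeGroup.of a ^ n := by
  induction z using FreeGroup.induction_on with
  | C1 => exact ⟨0, by rw [zpow_zero]⟩
  | of b => exact ⟨1, by rw [h b, zpow_one]⟩
  | inv_of b _ => exact ⟨-1, by rw [h b, zpow_neg_one]⟩
  | mul x y hx hy =>
    obtain ⟨m, hm⟩ := hx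
    obtain ⟨n, hn⟩ := hy
    exact ⟨m + n, by rw [hm, hn, zpow_add]⟩

lemma root (Λ : Type) (x : FreeGroup Λ) (hx : x ≠ 1) :
    ∃ r : FreeGroup Λ, ∀ a, a * x = x * a → ∃ n : ℤ, a = r ^ n := by
  classical
  have hmem : ∀ a, a ∈ Subgroup.centralizer {x} ↔ a * x = x * a := by
    intro a
    rw [Subgroup.mem_centralizer_iff]
    constructor
    · intro h
      exact (h x rfl).symm
    · intro h y hy
      rw [Set.mem_singleton_iff.1 hy]
      exact h.symm
  have : IsFreeGroup (Subgroup.centralizer {x}) := subgroupIsFreeOfIsFree _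
  let C := Subgroup.centralizer {x}
  let ι := IsFreeGroup.Generators C
  let e : C ≃* FreeGroup ι := IsFreeGroup.toFreeGroup C
  have hxC : x ∈ C := (hmem x).2 rfl
  have hX1 : e ⟨x, hxC⟩ ≠ 1 := by
    intro h
    apply hx
    have h1 : (⟨x, hxC⟩ : C) = 1 := e.injective (by rw [h, map_one])
    exact congrArg Subtype.val h1
  have hcomm : ∀ g : ι, ∃ m : ℤ, e ⟨x, hxC⟩ = FreeGroup.of g ^ m := by
    intro g
    refine free_cent g _ _ rfl ?_
    have h1 : (⟨x, hxC⟩ : C) * e.symm (FreeGroup.of g) = e.symm (FreeGroup.of g) * ⟨x, hxC⟩ := by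
      apply Subtype.ext
      exact ((hmem _).1 (e.symm (FreeGroup.of g)).2).symm
    have h2 := congrArg e h1
    rwa [map_mul, map_mul, MulEquiv.apply_symm_apply] at h2
  have hne : ∃ a : ι, True := by
    by_contra hc
    push Not at hc
    have : IsEmpty ι := ⟨fun i => (hc i).elim⟩
    exact hX1 (Subsingleton.elim _ _)
  obtain ⟨a, _⟩ := hne
  have hall : ∀ b : ι, b = a := by
    intro b
    by_contra hb
    obtain ⟨m, hm⟩ := hcomm b
    obtain ⟨n, hn⟩ := hcomm a
    have h0 := pow_eq hb (hm.symm.trans hn)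
    rw [h0, zpow_zero] at hm
    exact hX1 hm
  refine ⟨(e.symm (FreeGroup.of a) : C), fun y hy => ?_⟩
  obtain ⟨n, hn⟩ := cyc hall (e ⟨y, (hmem y).2 hy⟩)
  refine ⟨n, ?_⟩
  have h1 : (⟨y, (hmem y).2 hy⟩ : C) = e.symm (FreeGroup.of a) ^ n := by
    rw [← map_zpow, ← hn, MulEquiv.symm_apply_apply]
  have h2 := congrArg Subtype.val h1
  rw [Subgroup.coe_zpow] at h2
  exact h2

theorem specCY : SpecCY := by
  intro Λ x hx
  obtain ⟨r, hr⟩ := root Λ x hx
  refine ⟨⟨r, hr⟩, fun a ha hax => ?_⟩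
  obtain ⟨n, hn⟩ := hr a hax
  obtain ⟨m, hm⟩ := hr x rfl
  refine ⟨m, n, ?_, ?_, ?_⟩
  · rintro rfl
    exact hx (by rw [hm, zpow_zero])
  · rintro rfl
    exact ha (by rw [hn, zpow_zero])
  · rw [hn, hm, ← zpow_mul, ← zpow_mul, mul_comm]

end Pool.Agent.Lib.MP347126.BR.CYM
end

section
/-!
# MP_347126_al: Brunnian braids. Module DE: deletion of strands
-/
set_option autoImplicit false

namespace Pool.Agent.Lib.MP347126.BR.DEM

open MPd28408

/-- the component of `g` at `k` after deletion of a strand -/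
def dl {d : ℕ} (g : Braid (d + 1)) (k : Fin (d + 1)) : Braid d := (comp g k).right

lemma dl_mul {d : ℕ} (a b : Braid (d + 1)) (k : Fin (d + 1)) :
    dl (a * b) k = dl a k * dl b ((pm (d + 1) a)⁻¹ k) := by
  unfold dl
  rw [comp_mul, SemidirectProduct.mul_right]

lemma dl_one {d : ℕ} (k : Fin (d + 1)) : dl (1 : Braid (d + 1)) k = 1 := by
  unfold dl
  rw [comp_one, SemidirectProduct.one_right]

lemma dl_inv {d : ℕ} (a : Braid (d + 1)) (k : Fin (d + 1)) :
    dl a⁻¹ k = (dl a (pm (d + 1) a k))⁻¹ := by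
  unfold dl
  rw [comp_inv, SemidirectProduct.inv_right]

lemma dl_conj {d : ℕ} (g a : Braid (d + 1)) (ha : pm (d + 1) a = 1) (k : Fin (d + 1)) :
    dl (g * a * g⁻¹) k = dl g k * dl a ((pm (d + 1) g)⁻¹ k) * (dl g k)⁻¹ := by
  rw [dl_mul, dl_mul, dl_inv, map_mul, ha, mul_one, ← Equiv.Perm.mul_apply, mul_inv_cancel,
    Equiv.Perm.one_apply]

lemma dl_sg_gt {d i : ℕ} (hi : i < d) {k : Fin (d + 1)} (h : i + 1 < k.val) :
    dl (sg (d + 1) i) k = sg d i := by
  unfold dl
  rw [comp_sigma hi, cD_gt h, sD_eq, SemidirectProduct.right_inr]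

lemma dl_sg_eq {d i : ℕ} (hi : i < d) {k : Fin (d + 1)} (h : k.val = i ∨ k.val = i + 1) :
    dl (sg (d + 1) i) k = 1 := by
  unfold dl
  rw [comp_sigma hi]
  rcases h with h | h
  · rw [h, cD_self, SemidirectProduct.one_right]
  · rw [h, cD_succ, SemidirectProduct.inv_right, right_xD, inv_one]

lemma dl_sg_lt {d i : ℕ} (hi : i < d) {k : Fin (d + 1)} (h : k.val < i) :
    dl (sg (d + 1) i) k = sg d (i - 1) := by
  unfold dl
  rw [comp_sigma hi, cD_lt h, sD_eq, SemidirectProduct.right_inr]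

/-- the transversal -/
lemma dl_C {e : ℕ} : ∀ j, j ≤ e + 1 → ∀ k : Fin (e + 1 + 1), k.val < e + 1 →
    dl (C (e + 1) j) k = (if j ≤ k.val then C e j else C e (j - 1)) ∧
    (((pm (e + 1 + 1) (C (e + 1) j))⁻¹ k : Fin (e + 1 + 1)) : ℕ) =
      if j ≤ k.val then k.val + 1 else k.val := by
  refine C_ind ?_ ?_
  · intro k hk
    rw [C_top, dl_one, map_one, if_neg (by omega), if_neg (by omega)]
    exact ⟨(C_top e).symm, rfl⟩
  · intro j hj ih k hk
    obtain ⟨h1, h2⟩ := ih k hk
    rw [C_succ hj]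
    have h3 : (((pm (e + 1 + 1) (C (e + 1) (j + 1) * (sg (e + 1 + 1) j)⁻¹))⁻¹ k :
        Fin (e + 1 + 1)) : ℕ) = tn j (((pm (e + 1 + 1) (C (e + 1) (j + 1)))⁻¹ k :
        Fin (e + 1 + 1)) : ℕ) := by
      rw [map_mul, mul_inv_rev, map_inv, inv_inv, Equiv.Perm.mul_apply, pm_sg hj]
    have h4 := pm_sg (d := e + 1) hj ((pm (e + 1 + 1) (C (e + 1) (j + 1)))⁻¹ k)
    rw [dl_mul, dl_inv, h3, h1]
    rw [h2] at h4
    rw [h2]
    rcases Nat.lt_trichotomy k.val j with h | h | h
    · rw [if_neg (by omega), tn_ne (by omega) (by omega)] at h4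
      rw [if_neg (by omega), if_neg (by omega), if_neg (by omega), if_neg (by omega),
        dl_sg_lt hj (by omega), tn_ne (by omega) (by omega)]
      refine ⟨?_, rfl⟩
      have h5 := C_succ (d := e) (j := j - 1) (by omega)
      have h6 : C e (j - 1 + 1) = C e (j + 1 - 1) := congrArg (C e) (by omega)
      rw [h5, h6]
    · rw [if_neg (by omega), h, tn_self] at h4
      have c1 : ¬ (j + 1 ≤ k.val) := by omega
      have c2 : j ≤ k.val := by omega
      simp only [if_neg c1, if_pos c2]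
      rw [dl_sg_eq hj (Or.inr (by omega)), inv_one, mul_one, h, tn_self]
      exact ⟨rfl, rfl⟩
    · rw [if_pos (by omega), tn_ne (by omega) (by omega)] at h4
      rw [if_pos (by omega), if_pos (by omega), if_pos (by omega), if_pos (by omega),
        dl_sg_gt hj (by omega), tn_ne (by omega) (by omega)]
      refine ⟨?_, rfl⟩
      rw [C_succ (d := e) (j := j) (by omega)]

/-- the generators -/
lemma dl_A {e m : ℕ} (hm : m < e + 1) {k : Fin (e + 1 + 1)} (hk : k.val < e + 1) :
    dl (A (e + 1) m) k = if m < k.val then A e m else if m = k.val then 1 else A e (m - 1) := by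
  obtain ⟨h1, h2⟩ := dl_C (e := e) (m + 1) (by omega) k hk
  have hp : pm (e + 1 + 1) ((sg (e + 1 + 1) m)⁻¹ * (sg (e + 1 + 1) m)⁻¹) = 1 := by
    rw [map_mul, map_inv, pm_sg_inv (by omega)]
    nth_rewrite 1 [← pm_sg_inv (by omega)]
    exact inv_mul_cancel _
  unfold A
  rw [mul_assoc (C (e + 1) (m + 1)), dl_conj _ _ hp, h1, dl_mul, dl_inv, dl_inv]
  set k' := (pm (e + 1 + 1) (C (e + 1) (m + 1)))⁻¹ k with hk'
  have h3 : ((pm (e + 1 + 1) (sg (e + 1 + 1) m) k' : Fin (e + 1 + 1)) : ℕ) = tn m k' :=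
    pm_sg (by omega) k'
  have h4 : pm (e + 1 + 1) (sg (e + 1 + 1) m) ((pm (e + 1 + 1) (sg (e + 1 + 1) m)⁻¹)⁻¹ k') = k' := by
    rw [map_inv, inv_inv, ← Equiv.Perm.mul_apply]
    nth_rewrite 1 [← pm_sg_inv (by omega)]
    rw [inv_mul_cancel, Equiv.Perm.one_apply]
  rw [h4]
  rcases Nat.lt_trichotomy m k.val with h | h | h
  · rw [if_pos (by omega)] at h2
    rw [h2, tn_ne (by omega) (by omega)] at h3
    rw [if_pos (by omega), if_pos h, dl_sg_gt (by omega) (by omega),
      dl_sg_gt (by omega) (by omega)]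
    group
  · rw [if_neg (by omega)] at h2
    rw [h2, ← h, tn_self] at h3
    rw [if_neg (by omega), if_neg (by omega), if_pos h, dl_sg_eq (by omega) (Or.inr (by omega)),
      dl_sg_eq (by omega) (Or.inl (by omega))]
    group
  · rw [if_neg (by omega)] at h2
    rw [h2, tn_ne (by omega) (by omega)] at h3
    have h5 : C e (m - 1 + 1) = C e (m + 1 - 1) := congrArg (C e) (by omega)
    rw [if_neg (by omega), if_neg (by omega), if_neg (by omega), dl_sg_lt (by omega) (by omega),
      dl_sg_lt (by omega) (by omega), h5]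
    group

/-- kill the generator `i` and renumber -/
def rr {e : ℕ} (i : Fin (e + 1)) : FreeGroup (Fin (e + 1)) →* FreeGroup (Fin e) :=
  FreeGroup.lift fun m => if h : m.val < i.val then FreeGroup.of ⟨m.val, by omega⟩ else
    if h' : m.val = i.val then 1 else FreeGroup.of ⟨m.val - 1, by omega⟩

lemma dl_push {e : ℕ} (i : Fin (e + 1)) (w : FreeGroup (Fin (e + 1))) :
    dl (push (e + 1) w) i.castSucc = push e (rr i w) := by
  induction w using FreeGroup.induction_on with
  | C1 => rw [map_one, map_one, map_one, dl_one]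
  | of x =>
    have h1 : push (e + 1) (FreeGroup.of x) = A (e + 1) x.val := FreeGroup.lift_apply_of ..
    have h2 : rr i (FreeGroup.of x) = if h : x.val < i.val then FreeGroup.of ⟨x.val, by omega⟩ else
        if h' : x.val = i.val then 1 else FreeGroup.of ⟨x.val - 1, by omega⟩ :=
      FreeGroup.lift_apply_of ..
    have h3 : ∀ y : Fin e, push e (FreeGroup.of y) = A e y.val :=
      fun y => FreeGroup.lift_apply_of ..
    rw [h1, h2, dl_A x.2 (by rw [Fin.val_castSucc]; exact i.2), Fin.val_castSucc]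
    rcases Nat.lt_trichotomy x.val i.val with h | h | h
    · rw [if_pos h, dif_pos h, h3]
    · rw [if_neg (by omega), dif_neg (by omega), if_pos h, dif_pos h, map_one]
    · rw [if_neg (by omega), dif_neg (by omega), if_neg (by omega), dif_neg (by omega), h3]
  | inv_of x ih => rw [map_inv, dl_inv, pm_push, Equiv.Perm.one_apply, ih, map_inv, map_inv]
  | mul x y hx hy =>
    rw [map_mul, dl_mul, pm_push, inv_one, Equiv.Perm.one_apply, hx, hy, map_mul, map_mul]

lemma kill_eq {e : ℕ} (i : Fin (e + 1)) (w : FreeGroup (Fin (e + 1))) :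
    kill i w = FreeGroup.map i.succAbove (rr i w) := by
  have h : kill i = (FreeGroup.map i.succAbove).comp (rr i) := by
    apply FreeGroup.ext_hom
    intro x
    rw [MonoidHom.comp_apply]
    unfold kill rr
    rw [FreeGroup.lift_apply_of, FreeGroup.lift_apply_of]
    rcases Nat.lt_trichotomy x.val i.val with h | h | h
    · rw [if_neg (fun h' => by rw [h'] at h; omega), dif_pos h, FreeGroup.map.of]
      congr 1
      apply Fin.ext
      rw [Fin.succAbove_of_castSucc_lt _ _ (by rw [Fin.lt_def, Fin.val_castSucc]; exact h),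
        Fin.val_castSucc]
    · rw [if_pos (Fin.ext h), dif_neg (by omega), dif_pos h, map_one]
    · rw [if_neg (fun h' => by rw [h'] at h; omega), dif_neg (by omega), dif_neg (by omega),
        FreeGroup.map.of]
      congr 1
      apply Fin.ext
      rw [Fin.succAbove_of_le_castSucc _ _ (by
        rw [Fin.le_def, Fin.val_castSucc]
        change i.val ≤ x.val - 1
        omega), Fin.val_succ]
      change x.val = x.val - 1 + 1
      omega
  rw [h, MonoidHom.comp_apply]

lemma push_inj (d : ℕ) : Function.Injective (push d) := by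
  intro a b h
  have h1 : Psi d (SemidirectProduct.inl a) = Psi d (SemidirectProduct.inl b) := by
    rw [Psi_inl, Psi_inl, h]
  exact SemidirectProduct.inl_injective (Psi_injective d h1)

lemma NN_le (e : ℕ) {g : Braid (e + 2)} (hg : g ∈ NN (e + 2)) :
    ∃ w, push (e + 1) w = g := by
  have h0 : Subgroup.closure {c : Braid (e + 2) | ∃ i : Fin (e + 2 - 1), i.val + 2 < e + 2 ∧
      c = sigma i} ≤ (iota (e + 1)).range := by
    rw [Subgroup.closure_le]
    rintro c ⟨i, hi, rfl⟩
    refine ⟨sigma ⟨i.val, by omega⟩, ?_⟩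
    rw [iota_sigma, ← sigma_eq]
  have h1 : NN (e + 2) ≤ (push (e + 1)).range := by
    unfold NN
    rw [Subgroup.closure_le]
    rintro c ⟨b, hb, i, hi, rfl⟩
    obtain ⟨b', rfl⟩ := h0 hb
    refine ⟨artin (e + 1) b' (gen (Fin.last e))⁻¹, ?_⟩
    rw [push_artin, map_inv, push_gen, Fin.val_last, A_last, sigma_eq, show i.val = e by omega]
    congr 1
    congr 1
    rw [mul_inv_rev, inv_inv, pow_two]
  exact h1 hg

lemma C_mem_HH (e : ℕ) : ∀ j, j ≤ e + 1 → (0 < j → C (e + 1) j ∈ HH (e + 2)) := by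
  refine C_ind ?_ ?_
  · intro _
    rw [C_top]
    exact one_mem _
  · intro j hj ih h
    rw [C_succ hj]
    refine mul_mem (ih (by omega)) (inv_mem (Subgroup.subset_closure ⟨⟨j, by omega⟩, h, ?_⟩))
    rw [sigma_eq]

/-- Module DE. -/
theorem specDE : SpecDE := by
  intro e x hx
  have h0 := hx 1 (one_mem _)
  rw [inv_one, one_mul, mul_one] at h0
  obtain ⟨z, rfl⟩ := NN_le e h0
  refine ⟨z, rfl, ?_⟩
  intro i hi
  have h1 := hx (C (e + 1) i.val)⁻¹ (inv_mem (C_mem_HH e i.val (by omega) (by omega)))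
  obtain ⟨w, hw⟩ := NN_le e h1
  rw [inv_inv] at hw
  have h2 : dl (C (e + 1) i.val * push (e + 1) z * (C (e + 1) i.val)⁻¹) (Fin.last (e + 1)) = 1 := by
    rw [← hw]
    unfold dl
    rw [← Psi_inl, (comp_Psi _).1, SemidirectProduct.right_inl]
  obtain ⟨h3, h4⟩ := comp_C (d := e + 1) i.val (by omega)
  rw [dl_conj _ _ (pm_push z)] at h2
  have h5 : (pm (e + 1 + 1) (C (e + 1) i.val))⁻¹ (Fin.last (e + 1)) = i.castSucc := by
    apply Fin.ext
    rw [h4, Fin.val_castSucc]
  rw [h5, dl_push] at h2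
  have h6 : push e (rr i z) = 1 := by
    have h7 : dl (C (e + 1) i.val) (Fin.last (e + 1)) = 1 := by
      unfold dl
      rw [h3, SemidirectProduct.one_right]
    rwa [h7, one_mul, inv_one, mul_one] at h2
  have h8 : rr i z = 1 := push_inj e (by rw [h6, map_one])
  rw [kill_eq, h8, map_one]

end Pool.Agent.Lib.MP347126.BR.DEM
end

section
/-!
# MP_347126_al: the theorem on Brunnian braids, from the modules
-/
set_option autoImplicit false

namespace Pool.Agent.Lib.MP347126.BR.FINM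

open MPd28408

lemma DD_one {G : Type} [Group G] (hG : RF G) : DD (1 : G) := by
  intro U y hy
  have h1 : y = 1 := by
    refine hG y fun Q _ _ q => ?_
    have h2 : FI q.ker := ⟨inferInstance, Subgroup.finiteIndex_ker q⟩
    obtain ⟨g, hg⟩ := (hy q.ker h2).exists
    rw [mul_one, mul_inv_cancel, one_mul, MonoidHom.mem_ker, map_inv, inv_eq_one] at hg
    exact hg
  refine ⟨1, by rw [h1]; group, fun M _ => Filter.Eventually.of_forall fun g => ⟨g, ?_, ?_⟩⟩
  · rw [mul_one, one_mul]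
  · rw [one_mul, inv_mul_cancel]
    exact one_mem M

theorem DD_main (hID : SpecID) (hGE : SpecGE) (hDE : SpecDE) {n : ℕ} (hn : 3 ≤ n)
    (x z : Braid n) (hx : ∀ h ∈ HH n, h⁻¹ * x * h ∈ NN n) (hz : z ∈ Subgroup.center (Braid n)) :
    DD (x * z) := by
  obtain ⟨g1, g2, g3, g4⟩ := hGE
  refine g3 _ x z hz ?_
  obtain ⟨e, rfl⟩ : ∃ e, n = e + 2 := ⟨n - 2, by omega⟩
  obtain ⟨t, ht, hk⟩ := hDE e x hx
  by_cases h1 : t = 1
  · rw [← ht, h1, map_one]
    exact DD_one (rf_braid _)
  · have h2 := (hID e t (by omega) ⟨h1, hk⟩).1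
    have h3 : (pm (e + 2)).ker.FiniteIndex := Subgroup.finiteIndex_ker _
    have h4 := (g2 (Braid (e + 2)) (pm (e + 2)).ker (nuB (e + 1) t) h3).1 h2
    rw [← ht]
    exact h4

theorem specFIN (hID : SpecID) (hGE : SpecGE) (hDE : SpecDE) : SpecFin := by
  intro n x z hn hx hz K g y hK hg hy
  have h1 := DD_main hID hGE hDE hn x z hx hz
  rw [← hg] at h1
  exact hGE.2.2.2 K g ((hGE.2.1 _ K g hK).2 h1) y hy

end Pool.Agent.Lib.MP347126.BR.FINM
end

section
/-!
# MP_347126_al: Brunnian braids. Module ID: the induction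
-/
set_option autoImplicit false

namespace Pool.Agent.Lib.MP347126.BR.ID

open MPd28408

theorem braid_one (g : Braid 1) : g = 1 := by
  obtain ⟨w, rfl⟩ := QuotientGroup.mk_surjective g
  have h : w = 1 := by
    have : IsEmpty (Fin (1 - 1)) := Fin.isEmpty
    exact Subsingleton.elim _ _
  rw [h]
  rfl

theorem pb_one (g : PB 1) : g = 1 := Subtype.ext (braid_one g.1)

theorem free_comm (a b : FreeGroup (Fin 1)) : a * b = b * a := by
  have h := (FreeGroup.mulEquivIntOfUnique (α := Fin 1)).injective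
  apply h
  rw [map_mul, map_mul, mul_comm]

/-- in the pure braid group of two strands -/
theorem ht_two (hCY : SpecCY) (hHT : SpecHT) (hIN : SpecIN) : Ht 1 (⊤ : Subgroup (PB 2)) := by
  obtain ⟨S, hS, -⟩ := hIN 0
  refine hHT.2.2.1 (PB 2) (PB 1) S.p 0 ⊤ ?_ ?_
  · intro B _ v
    refine MonoidHom.ext fun b => ?_
    have hb : b = 1 := Subtype.ext (pb_one b.1)
    rw [hb, map_one, map_one]
  · intro a _ b _ ha hb ha1 hb1
    obtain ⟨u, hu⟩ := (S.nu_range a).1 ha
    obtain ⟨v, hv⟩ := (S.nu_range b).1 hb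
    have hu1 : u ≠ 1 := by
      rintro rfl
      exact ha1 (by rw [← hu, map_one])
    have hv1 : v ≠ 1 := by
      rintro rfl
      exact hb1 (by rw [← hv, map_one])
    obtain ⟨i, k, hi, hk, h⟩ := (hCY (Fin 1) v hv1).2 u hu1 (free_comm u v)
    refine ⟨i, k, hi, hk, ?_⟩
    rw [← hu, ← hv, ← map_zpow, ← map_zpow, h]

/-- the base of the induction -/
theorem base (hCY : SpecCY) (hHT : SpecHT) (hPin : SpecPin) (hIN : SpecIN)
    (x : FreeGroup (Fin 2)) (hx : x ≠ 1) :
    DD (nuB 2 x) ∧ ∃ k, Ht k (Subgroup.centralizer {nuB 2 x}) := by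
  have h2 := ht_two hCY hHT hIN
  obtain ⟨S, hS, -⟩ := hIN 1
  constructor
  · intro U y hU
    rw [← hS] at hU ⊢
    refine hPin 2 (PB 3) (PB 2) S.toPinData x U y hU ⊤ 1 h2 1 fun M' _ => ?_
    exact Filter.Eventually.of_forall fun g => ⟨S.p g, Subgroup.mem_top _, by
      rw [one_mul, inv_mul_cancel]; exact M'.one_mem⟩
  · refine ⟨2, hHT.2.2.1 (PB 3) (PB 2) S.p 1 _ (hHT.1 _ 1 ⊤ _ le_top h2) ?_⟩
    intro a ha b hb hpa hpb ha1 hb1
    obtain ⟨u, hu⟩ := (S.nu_range a).1 hpa
    obtain ⟨v, hv⟩ := (S.nu_range b).1 hpb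
    have hu1 : u ≠ 1 := by
      rintro rfl
      exact ha1 (by rw [← hu, map_one])
    have hv1 : v ≠ 1 := by
      rintro rfl
      exact hb1 (by rw [← hv, map_one])
    have hux : u * x = x * u := by
      apply S.nu_inj
      rw [map_mul, map_mul, hu, hS]
      exact Subgroup.mem_centralizer_singleton_iff.1 ha
    have hvx : v * x = x * v := by
      apply S.nu_inj
      rw [map_mul, map_mul, hv, hS]
      exact Subgroup.mem_centralizer_singleton_iff.1 hb
    obtain ⟨r, hr⟩ := (hCY (Fin 2) x hx).1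
    obtain ⟨m, hm⟩ := hr u hux
    obtain ⟨n, hn⟩ := hr v hvx
    have hm0 : m ≠ 0 := by
      rintro rfl
      exact hu1 (by rw [hm, zpow_zero])
    have hn0 : n ≠ 0 := by
      rintro rfl
      exact hv1 (by rw [hn, zpow_zero])
    refine ⟨n, m, hn0, hm0, ?_⟩
    rw [← hu, ← hv, ← map_zpow, ← map_zpow, hm, hn, ← zpow_mul, ← zpow_mul, mul_comm m n]

theorem low (hMT : SpecMT) {Λ : Type} {z : FreeGroup Λ} (hz : z ≠ 1) : ∃ d, Low z 1 d := by
  classical
  have h1 : ∃ n : ℕ, ∃ ω : List Λ, ω.length = n ∧ T ω z ≠ T ω 1 := by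
    by_contra h
    push Not at h
    have h2 := hMT Λ z 1 fun ω => h _ ω rfl
    rw [isConj_one_left] at h2
    exact hz h2
  refine ⟨Nat.find h1, ?_, Nat.find_spec h1⟩
  intro ω hω
  by_contra hne
  exact Nat.find_min h1 hω ⟨ω, rfl, hne⟩

/-- MODULE ID -/
theorem specID (hTr : SpecTr) (hMT : SpecMT) (hB0 : SpecB0) (hCY : SpecCY) (hHT : SpecHT)
    (hPin : SpecPin) (hCT : SpecCT) (hTS : SpecTS) (hWL : SpecWL) (hST : SpecST) (hIN : SpecIN) :
    SpecID := by
  intro e x he hx
  induction e, he using Nat.le_induction with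
  | base => exact base hCY hHT hPin hIN x hx.1
  | succ e he ih =>
    obtain ⟨S, hnu, hj⟩ := hIN (e + 1)
    have hk : kappa (e + 1) x = 1 := by
      rw [← hB0.2.2.2.2]
      exact hx.2 (Fin.last (e + 1)) (by simp)
    obtain ⟨z, hz⟩ := (hB0.2.1 (e + 1) x).1 hk
    have hz1 : z ≠ 1 := by
      rintro rfl
      exact hx.1 (by rw [← hz, map_one])
    obtain ⟨d, hd⟩ := low hMT hz1
    have hxz : Br (e + 1 + 1) (be (e + 1) z) := by rw [hz]; exact hx
    obtain ⟨w, hw, hwb⟩ := hWL (e + 1) z d (by omega) hd hxz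
    obtain ⟨hDD, k, hHt⟩ := ih w hwb
    have hd' : Low z (FreeGroup.of (1 : FreeGroup (Fin (e + 1))) ^ (0 : ℤ)) d := by
      rw [zpow_zero]; exact hd
    have hctl : ∀ t ∈ Tset z 1 d, Ctl S (S.nu x) t := by
      intro t ht U y hU
      rw [← hz] at hU
      refine hCT (e + 1) _ _ S z 1 1 0 d U y hU hd' (Or.inl rfl) t ?_
      rw [zpow_zero]; exact ht
    have hperm : ∀ a : PB (e + 1 + 2), a * S.nu x = S.nu x * a → ∀ t ∈ Tset z 1 d,
        ∃ t' ∈ Tset z 1 d, S.j t' = S.q a * S.j t * (S.p a)⁻¹ := by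
      intro a ha t ht
      rw [← hz] at ha
      have h1 := hTS (e + 1) _ _ S z 1 0 d hd' a ha (Or.inl rfl) t (by rw [zpow_zero]; exact ht)
      rw [zpow_zero] at h1
      exact h1
    have h3 := hST (e + 1) _ _ S x (Tset z 1 d) w k hx.1 (hTr.2.2.2.2 _ z 1 d) hctl hperm hw
      (by rw [hj]; exact hDD) (by rw [hj]; exact hHt)
    rw [hnu] at h3
    exact ⟨h3.1, k + 1, h3.2⟩

end Pool.Agent.Lib.MP347126.BR.ID
end

section
/-!
# MP_347126_al: Brunnian braids. Module IN: the step data of the pure braid groups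
-/
set_option autoImplicit false

namespace Pool.Agent.Lib.MP347126.BR.INM

open MPd28408

lemma pm_one {n : ℕ} (g : PB n) : pm n g.1 = 1 := g.2

/-- the component of a pure braid along the last strand -/
def LL (d : ℕ) : PB (d + 1) →* D d where
  toFun g := comp g.1 (Fin.last d)
  map_one' := comp_one _
  map_mul' a b := by
    have h : pm (d + 1) a.1 = 1 := pm_one a
    change comp (a.1 * b.1) (Fin.last d) = _
    rw [comp_mul, h, inv_one, Equiv.Perm.one_apply]

lemma Psi_LL {d : ℕ} (g : PB (d + 1)) : Psi d (LL d g) = g.1 := by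
  refine (eq_Psi g.1 ?_).symm
  rw [pm_one, Equiv.Perm.one_apply]

lemma LL_inj {d : ℕ} {g h : PB (d + 1)} (e : LL d g = LL d h) : g = h := by
  apply Subtype.ext
  rw [← Psi_LL g, ← Psi_LL h, e]

lemma pm_right {d : ℕ} (g : PB (d + 1)) : pm d (LL d g).right = 1 := by
  apply Equiv.ext
  intro k
  have h4 := pm_Psi (LL d g) k
  rw [Psi_LL, pm_one, Equiv.Perm.one_apply] at h4
  rw [Equiv.Perm.one_apply]
  exact (Fin.castSucc_injective _ h4).symm

lemma pm_Psi_one {d : ℕ} {δ : D d} (h : pm d δ.right = 1) : pm (d + 1) (Psi d δ) = 1 := by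
  apply Equiv.ext
  intro k
  refine Fin.lastCases ?_ ?_ k
  · rw [(comp_Psi δ).2, Equiv.Perm.one_apply]
  · intro k
    rw [pm_Psi, h, Equiv.Perm.one_apply, Equiv.Perm.one_apply]

/-- the pure braid with given component -/
def mk {d : ℕ} (δ : D d) (h : pm d δ.right = 1) : PB (d + 1) := ⟨Psi d δ, pm_Psi_one h⟩

lemma LL_mk {d : ℕ} (δ : D d) (h : pm d δ.right = 1) : LL d (mk δ h) = δ := (comp_Psi δ).1

lemma LL_nuB {d : ℕ} (w : FreeGroup (Fin d)) : LL d (nuB d w) = SemidirectProduct.inl w := by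
  change comp (push d w) (Fin.last d) = _
  rw [← Psi_inl, (comp_Psi _).1]

/-- forget the last strand -/
def pD (d : ℕ) : PB (d + 1) →* PB d :=
  ((SemidirectProduct.rightHom (φ := artin d)).comp (LL d)).codRestrict (pm d).ker fun g => pm_right g

lemma pD_val {d : ℕ} (g : PB (d + 1)) : (pD d g).1 = (LL d g).right := rfl

lemma nuB_inj (d : ℕ) : Function.Injective (nuB d) := by
  intro a b h
  have h1 := congrArg (LL d) h
  rw [LL_nuB, LL_nuB] at h1
  exact SemidirectProduct.inl_injective h1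

lemma pD_surj (d : ℕ) : Function.Surjective (pD d) := by
  intro h
  have h1 : pm d (SemidirectProduct.inr h.1 : D d).right = 1 := by
    rw [SemidirectProduct.right_inr]
    exact h.2
  refine ⟨mk _ h1, ?_⟩
  apply Subtype.ext
  rw [pD_val, LL_mk, SemidirectProduct.right_inr]

lemma pD_range {d : ℕ} (g : PB (d + 1)) : pD d g = 1 ↔ ∃ n, nuB d n = g := by
  constructor
  · intro h
    have h1 : (LL d g).right = 1 := congrArg Subtype.val h
    refine ⟨(LL d g).left, ?_⟩
    apply LL_inj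
    rw [LL_nuB]
    apply SemidirectProduct.ext
    · rw [SemidirectProduct.left_inl]
    · rw [SemidirectProduct.right_inl, h1]
  · rintro ⟨n, rfl⟩
    apply Subtype.ext
    rw [pD_val, LL_nuB, SemidirectProduct.right_inl]
    rfl

lemma conj_nu {d : ℕ} (g : PB (d + 1)) (i : Fin d) :
    ∃ n, g * nuB d (FreeGroup.of i) * g⁻¹ = nuB d (n * FreeGroup.of i * n⁻¹) := by
  obtain ⟨t, ht⟩ := artin_pm (LL d g).right i
  rw [pm_right, Equiv.Perm.one_apply] at ht
  refine ⟨(LL d g).left * t, ?_⟩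
  apply LL_inj
  rw [map_mul, map_mul, map_inv, LL_nuB, LL_nuB, conj_inl]
  congr 1
  have ht' : artin d (LL d g).right (FreeGroup.of i) = t * FreeGroup.of i * t⁻¹ := ht
  rw [ht']
  group

lemma conj_nu' {d : ℕ} (g : PB (d + 1)) (u : FreeGroup (Fin d)) :
    ∃ u', g * nuB d u * g⁻¹ = nuB d u' := by
  refine ⟨(LL d g).left * artin d (LL d g).right u * (LL d g).left⁻¹, ?_⟩
  apply LL_inj
  rw [map_mul, map_mul, map_inv, LL_nuB, LL_nuB, conj_inl]

lemma fi_ker {G Q : Type} [Group G] [Group Q] [Finite Q] (f : G →* Q) : FI f.ker :=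
  ⟨inferInstance, inferInstance⟩

lemma rf_PB (n : ℕ) : RFs (PB n) := by
  intro g hg
  apply Subtype.ext
  refine rf_braid n g.1 fun Q _ _ q => ?_
  exact hg _ (fi_ker (q.comp (pm n).ker.subtype))

lemma dom_PB {d : ℕ} (Q : Type) [Group Q] [Finite Q] (f : FreeGroup (Fin d) →* Q) :
    ∃ M : Subgroup (PB (d + 1)), FI M ∧ ∀ n, nuB d n ∈ M → f n = 1 := by
  refine ⟨((Theta Q).comp (LL d)).ker, fi_ker _, fun n hn => ?_⟩
  rw [MonoidHom.mem_ker, MonoidHom.comp_apply, LL_nuB] at hn
  have h1 : Theta Q (SemidirectProduct.inl n) =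
      Theta Q (SemidirectProduct.inl (φ := artin d) (1 : FreeGroup (Fin d))) := by
    rw [hn, map_one, map_one]
  have h2 := Theta_inl_inj h1 f
  rw [h2, map_one]

/-! ### The second projection -/

lemma C_iota {e : ℕ} : ∀ k, k ≤ e → C (e + 1) k = (sg (e + 2) e)⁻¹ * iota (e + 1) (C e k) := by
  refine C_ind ?_ ?_
  · rw [C_succ (Nat.lt_succ_self e), C_top, C_top, map_one, one_mul, mul_one]
  · intro j hj ih
    have h1 : iota (e + 1) (sg (e + 1) j) = sg (e + 2) j := by
      rw [sg_of (show j < e + 1 - 1 by omega), iota_sigma]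
    rw [C_succ (show j < e + 1 by omega), ih, C_succ hj, map_mul, map_inv, h1, mul_assoc]

lemma conj_A {e i : ℕ} (hi : i < e) :
    sg (e + 2) e * A (e + 1) i * (sg (e + 2) e)⁻¹ = iota (e + 1) (A e i) := by
  have h1 : iota (e + 1) (sg (e + 1) i) = sg (e + 2) i := by
    rw [sg_of (show i < e + 1 - 1 by omega), iota_sigma]
  unfold A
  rw [C_iota (i + 1) hi, map_mul, map_mul, map_mul, map_inv, map_inv, h1]
  group

/-- the second projection -/
def qD (e : ℕ) : PB (e + 1 + 1) →* PB (e + 1) :=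
  (pD (e + 1)).comp (MulAut.conjNormal (H := (pm (e + 1 + 1)).ker) (sg (e + 1 + 1) e)).toMonoidHom

lemma qD_val {e : ℕ} (g : PB (e + 1 + 1)) : (qD e g).1 =
    (comp (sg (e + 1 + 1) e * g.1 * (sg (e + 1 + 1) e)⁻¹) (Fin.last (e + 1))).right := rfl

lemma q_nu {e : ℕ} (n : FreeGroup (Fin (e + 1))) : qD e (nuB (e + 1) n) = nuB e (kappa e n) := by
  have h : (qD e).comp (nuB (e + 1)) = (nuB e).comp (kappa e) := by
    apply FreeGroup.ext_hom
    intro i
    apply Subtype.ext
    rw [MonoidHom.comp_apply, MonoidHom.comp_apply, qD_val]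
    have e1 : (nuB (e + 1) (FreeGroup.of i)).1 = A (e + 1) i := push_gen i
    rw [e1]
    by_cases hi : i.val < e
    · have e2 : kappa e (FreeGroup.of i) = gen ⟨i.val, hi⟩ := by
        unfold kappa
        rw [FreeGroup.lift_apply_of, dif_pos hi]
      have e3 : (nuB e (gen ⟨i.val, hi⟩)).1 = A e i := push_gen _
      rw [e2, e3, show sg (e + 1 + 1) e * A (e + 1) i * (sg (e + 1 + 1) e)⁻¹ =
        iota (e + 1) (A e i) from conj_A hi, ← Psi_inr, (comp_Psi _).1, SemidirectProduct.right_inr]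
    · have e2 : kappa e (FreeGroup.of i) = 1 := by
        unfold kappa
        rw [FreeGroup.lift_apply_of, dif_neg hi]
      have e3 : i.val = e := by omega
      have e4 : sg (e + 1 + 1) e * A (e + 1) e * (sg (e + 1 + 1) e)⁻¹ = A (e + 1) e := by
        rw [A_last]
        group
      rw [e2, map_one, e3, e4, (comp_A (Nat.lt_succ_self e)).1, right_xD]
      rfl
  exact DFunLike.congr_fun h n

lemma cab_PB {e : ℕ} (h : PB (e + 1)) : ∃ s : PB (e + 1 + 1), pD (e + 1) s = h ∧ qD e s = h ∧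
    s * nuB (e + 1) (cc e) = nuB (e + 1) (cc e) * s := by
  have h1 : h.1 ∈ ZZ e := by
    rw [← Psi_LL h]
    exact Psi_mem_ZZ _
  obtain ⟨κ, hκ, hκ2⟩ := h1
  obtain ⟨k1, k2⟩ := mem_KK.1 hκ
  rw [SemidirectProduct.rightHom_eq_right] at hκ2
  have h2 : pm (e + 1) κ.right = 1 := by
    rw [hκ2]
    exact h.2
  refine ⟨mk κ h2, ?_, ?_, ?_⟩
  · apply Subtype.ext
    rw [pD_val, LL_mk, hκ2]
  · apply Subtype.ext
    have h3 : sg (e + 1 + 1) e * (mk κ h2).1 * (sg (e + 1 + 1) e)⁻¹ = (mk κ h2).1 := by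
      have k2' : Psi (e + 1) κ * sg (e + 1 + 1) e = sg (e + 1 + 1) e * Psi (e + 1) κ := k2
      change sg (e + 1 + 1) e * Psi (e + 1) κ * (sg (e + 1 + 1) e)⁻¹ = Psi (e + 1) κ
      rw [← k2', mul_inv_cancel_right]
    rw [qD_val, h3]
    change (LL (e + 1) (mk κ h2)).right = h.1
    rw [LL_mk, hκ2]
  · apply LL_inj
    rw [map_mul, map_mul, LL_mk, LL_nuB]
    have h4 : (SemidirectProduct.inl (cc e) : D (e + 1)) = xD (e + 1) e :=
      (xD_of (Nat.lt_succ_self e)).symm
    rw [h4]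
    exact k1

theorem specIN : SpecIN := by
  intro e
  refine ⟨{
    p := pD (e + 1)
    nu := nuB (e + 1)
    p_surj := pD_surj _
    nu_inj := nuB_inj _
    nu_range := pD_range
    conj := conj_nu
    rf := rf_PB _
    dom := fun Q _ _ f => dom_PB Q f
    q := qD e
    j := nuB e
    j_inj := nuB_inj _
    j_norm := conj_nu'
    q_nu := q_nu
    cab := cab_PB }, rfl, rfl⟩

end Pool.Agent.Lib.MP347126.BR.INM
end

section
/-!
# MP_347126_al: Brunnian braids, assembly
-/
set_option autoImplicit false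

namespace Pool.Agent.Lib.MP347126.BR.Glue

theorem gMT : SpecMT := MTM.specMT TRM.specTR NFM.specNF CKM.specCK (ROM.specRO CKM.specCK) BR.IP.specIP

theorem gFR : SpecFR := FRM.specFR TRM.specTR T3M.specT3 gMT

theorem gPin : SpecPin :=
  PINM.specPin TRM.specTR T2M.specT2 T3M.specT3 gMT gFR GEM.specGE HTM.specHT ZMM.specZM

theorem gAct : SpecAct := ACTM.specAct B0M.specB0

theorem gCT : SpecCT := CTM.specCT TRM.specTR T2M.specT2 T3M.specT3 gAct FQM.specFQ

theorem gTS : SpecTS := TSM.specTS TRM.specTR T2M.specT2 B0M.specB0 gAct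

theorem gWL : SpecWL := BR.WL.specWL T2M.specT2 B0M.specB0 CYM.specCY

theorem gST : SpecST := STM.specST CYM.specCY HTM.specHT gPin

theorem gID : SpecID :=
  ID.specID TRM.specTR gMT B0M.specB0 CYM.specCY HTM.specHT gPin gCT gTS gWL gST INM.specIN

theorem gFin : SpecFin := FINM.specFIN gID GEM.specGE DEM.specDE

end Pool.Agent.Lib.MP347126.BR.Glue
end
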